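import Pool.Agent.H547.P3.Fricke

set_option autoImplicit false

/-!
# The Fricke involution, continued
-/

namespace Pool.Agent.H547.P3

open Finset Pool.Agent.Helper484_Domb

variable {p : ℕ} [hp : Fact p.Prime] {n : ℕ} {h : ZMod (p ^ 3)}

/-- the family `κ ↦ z^{(p-1)κ} Σ_j G_j(κ) z^j` -/
noncomputable def fS (p : ℕ) (z : ZMod (p ^ 3)) (κ : ℕ) : ZMod (p ^ 3) := (z ^ (p - 1)) ^ κ * ∑ j ∈ range p, Gu p j κ * z ^ j

theorem fS_ex (hh : 2 * h = 1) {z ν : ZMod (p ^ 3)} (hz : z ^ (p - 1) = 1 + (p : ZMod (p ^ 3)) * ν) (X : ZMod (p ^ 3)) :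
    ex h (fS p z) X = pw h ((p : ZMod (p ^ 3)) * ν) X * ∑ j ∈ range p, gX h X j * z ^ j := by
  have hP := p3_zero (p := p)
  have q1 : QP (p : ZMod (p ^ 3)) (fun κ => (z ^ (p - 1)) ^ κ) := by
    have := QP.exp hP hh ν 1
    simpa only [one_mul, ← hz] using this
  have q2 : ∀ j ∈ range p, QP (p : ZMod (p ^ 3)) (fun κ => Gu p j κ * z ^ j) := fun j hj =>
    QP.mul hP (Gu_QP j (mem_range.mp hj)) (QP.const _ _)
  have e : fS p z = fun κ => (z ^ (p - 1)) ^ κ * ∑ j ∈ range p, Gu p j κ * z ^ j := rfl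
  rw [e, ex_mul hP hh q1 (QP.sum _ q2), ex_zpow hP hh hz, ex_sum]
  congr 1
  refine sum_congr rfl fun j hj => ?_
  rw [ex_mul hP hh (Gu_QP j (mem_range.mp hj)) (QP.const _ _), ex_const hh]
  rfl

theorem gX_n (hp5 : 5 ≤ p) (hh : 2 * h = 1) (hn : p = 2 * n + 1) {t : ZMod (p ^ 3)} (ht : (4 : ZMod (p ^ 3)) ^ n = 1 + t) (X : ZMod (p ^ 3)) :
    gX h X n = (-1) ^ n * pw h t (12 * X + 6) := by
  obtain ⟨a1, a2, a3, a4, a5⟩ := harm_main hp.out (by omega) hn t ht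
  have h1 := gX_prod hp5 hh hn X n le_rfl
  have h2 := OD_one (p := p) hh (by omega) hn X
  have h3 := D_eq hh (by omega) hn ht X
  have h4 := gX_at_zero (h := h) hp5 (show n < p by omega)
  have h5 : (uc n : ZMod (p ^ 3)) = ((n.centralBinom : ℕ) : ZMod (p ^ 3)) ^ 3 := by
    unfold uc; rw [Nat.centralBinom_eq_two_mul_choose]; push_cast; rfl
  rw [h4, h5, a2] at h1
  rw [h3] at h1 h2
  set O := ∏ i ∈ range n, (1 + 2 * (p : ZMod (p ^ 3)) * X * iv p (2 * i + 1))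
  have e1 : (1 + t) ^ 6 = pw h t 6 := by
    have := pw_nat a3 hh 6
    rw [← this]; norm_num
  have e2 : pw h t (12 * X) * pw h t (-2 * X) ^ 6 = 1 := by
    rw [pw_pow a3 hh, ← pw_add a3 hh]
    have : (12 * X + ((6 : ℕ) : ZMod (p ^ 3)) * (-2 * X)) = 0 := by push_cast; ring
    rw [this, pw_zero]
  have e3 : pw h t (12 * X + 6) = pw h t (12 * X) * pw h t 6 := pw_add a3 hh _ _
  have e4 : ((-1 : ZMod (p ^ 3)) ^ n) ^ 2 = 1 := by rw [← pow_mul, mul_comm, pow_mul]; norm_num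
  rw [e3, ← e1]
  have h6 : gX h X n * pw h t (-2 * X) ^ 6 = (-1) ^ n * (1 + t) ^ 6 := by
    have h7 : (O * pw h t (-2 * X)) ^ 3 = 1 := by rw [h2, one_pow]
    linear_combination pw h t (-2 * X) ^ 3 * h1 + (((-1) ^ n * (1 + t) ^ 2) ^ 3) * h7 + ((-1) ^ n * (1 + t) ^ 6) * e4
  linear_combination pw h t (12 * X) * h6 - gX h X n * e2

/-- **Fricke** -/
theorem fricke (hp5 : 5 ≤ p) (hh : 2 * h = 1) (hn : p = 2 * n + 1) {z z' ν : ZMod (p ^ 3)}
    (hzz : 4096 * z * z' = 1) (hz : z ^ (p - 1) = 1 + (p : ZMod (p ^ 3)) * ν) :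
    ∃ c : ZMod (p ^ 3), c ^ 2 = 1 ∧ (∃ y : ZMod (p ^ 3), c = (-1) ^ n * z ^ n * (1 + (p : ZMod (p ^ 3)) * y)) ∧ ∀ X, ex h (fS p z) X = c * ex h (fS p z') (-X - h) := by
  have hP := p3_zero (p := p)
  obtain ⟨τ, hτ⟩ := fermat hp.out (by omega) hn
  set t := (p : ZMod (p ^ 3)) * τ with ht
  have ht3 : t ^ 3 = 0 := by rw [ht, mul_pow, hP, zero_mul]
  have hzu' : IsUnit z' := IsUnit.of_mul_eq_one (4096 * z) (by linear_combination hzz)
  obtain ⟨ν', hz'⟩ := fermat_unit hzu'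
  have hν3 : ((p : ZMod (p ^ 3)) * ν) ^ 3 = 0 := by rw [mul_pow, hP, zero_mul]
  have hν3' : ((p : ZMod (p ^ 3)) * ν') ^ 3 = 0 := by rw [mul_pow, hP, zero_mul]
  -- the exponentials
  have hE : ∀ Y, pw h ((p : ZMod (p ^ 3)) * ν') Y * pw h ((p : ZMod (p ^ 3)) * ν) Y * pw h t (12 * Y) = 1 := by
    intro Y
    have h12 : (4096 : ZMod (p ^ 3)) ^ (p - 1) = (1 + t) ^ 12 := by
      rw [← hτ, ← pow_mul, show p - 1 = 2 * n by omega, show (4096 : ZMod (p ^ 3)) = 4 ^ 6 by norm_num, ← pow_mul]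
      congr 1; ring
    have h1 : (1 + (p : ZMod (p ^ 3)) * ν') * (1 + p * ν) * (1 + t) ^ 12 = 1 := by
      rw [← hz, ← hz', ← h12, ← mul_pow, ← mul_pow]
      have : z' * z * 4096 = 1 := by linear_combination hzz
      rw [this, one_pow]
    have h2 : ∃ a, (1 + t) ^ 12 = 1 + (p : ZMod (p ^ 3)) * a := by
      rw [one_add_pow3 ht3 hh]
      exact ⟨12 * τ + h * (12 * 11) * (p * τ ^ 2), by rw [ht]; push_cast; ring⟩
    obtain ⟨a, ha⟩ := h2
    have h3 : pw h t (12 * Y) = pw h ((p : ZMod (p ^ 3)) * a) Y := by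
      have e1 : (p : ZMod (p ^ 3)) * a = 12 * t + 66 * t ^ 2 := by
        have := one_add_pow3 ht3 hh 12
        rw [ha] at this
        push_cast at this
        linear_combination this + (66 * t ^ 2) * hh
      rw [e1]
      unfold pw
      linear_combination (66 * Y * t ^ 2) * hh - (h * (Y ^ 2 - Y) * (2 * 12 * 66 + 66 ^ 2 * t)) * ht3
    have h4 : ∃ b, (1 + (p : ZMod (p ^ 3)) * ν') * (1 + p * ν) = 1 + p * b := ⟨ν' + ν + p * ν' * ν, by ring⟩
    obtain ⟨b, hb⟩ := h4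
    rw [h3, pw_mul (P := (p : ZMod (p ^ 3))) hP hh hb]
    rw [hb, ha] at h1
    rw [pw_mul (P := (p : ZMod (p ^ 3))) hP hh (r := 0) (by rw [h1]; ring)]
    unfold pw; ring
  set c := (-1) ^ n * z ^ n * pw h ((p : ZMod (p ^ 3)) * ν) (-h) with hc
  refine ⟨c, ?_, ?_, ?_⟩
  · have e1 : (z ^ n) ^ 2 = 1 + (p : ZMod (p ^ 3)) * ν := by rw [← hz, ← pow_mul]; congr 1; omega
    have e4 : ((-1 : ZMod (p ^ 3)) ^ n) ^ 2 = 1 := by rw [← pow_mul, mul_comm, pow_mul]; norm_num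
    have e2 : pw h ((p : ZMod (p ^ 3)) * ν) (-h) ^ 2 * (1 + (p : ZMod (p ^ 3)) * ν) = 1 := by
      have e3 := pw_nat hν3 hh 1
      rw [pow_one] at e3
      rw [pw_pow hν3 hh, ← e3, ← pw_add hν3 hh]
      have : (((2 : ℕ) : ZMod (p ^ 3)) * -h + ((1 : ℕ) : ZMod (p ^ 3))) = 0 := by push_cast; linear_combination -hh
      rw [this, pw_zero]
    rw [hc, mul_pow, mul_pow, e1, e4]
    linear_combination e2
  · refine ⟨-h * ν + h * (h ^ 2 + h) * p * ν ^ 2, ?_⟩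
    rw [hc]; unfold pw; ring
  · intro X
    rw [fS_ex hh hz, fS_ex hh hz']
    -- split the sums
    have hsplit : ∀ (Y w : ZMod (p ^ 3)), ∑ j ∈ range p, gX h Y j * w ^ j = ∑ j ∈ range (n + 1), gX h Y j * w ^ j := by
      intro Y w
      have hr : range p = range ((n + 1) + n) := by congr 1; omega
      rw [hr, Finset.sum_range_add]
      have : ∑ x ∈ range n, gX h Y (n + 1 + x) * w ^ (n + 1 + x) = 0 := by
        refine sum_eq_zero fun x hx => ?_
        rw [mem_range] at hx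
        rw [gX_top hh hn (by omega) Y x (by omega), zero_mul]
      rw [this, add_zero]
    have hrefl : ∑ j ∈ range (n + 1), gX h X j * z ^ j = gX h X n * z ^ n * ∑ k ∈ range (n + 1), gX h (-X - h) k * z' ^ k := by
      rw [← sum_range_reflect, mul_sum]
      refine sum_congr rfl fun k hk => ?_
      rw [mem_range] at hk
      have h1 := gX_refl hh hn X k (by omega)
      rw [show n + 1 - 1 - k = n - k by omega]
      have h2 : (4096 * z * z') ^ k = 1 := by rw [hzz, one_pow]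
      rw [mul_pow, mul_pow] at h2
      have h3 : z ^ n = z ^ (n - k) * z ^ k := by rw [← pow_add]; congr 1; omega
      rw [h3]
      linear_combination (z ^ (n - k) * z ^ k * z' ^ k) * h1 - (gX h X (n - k) * z ^ (n - k)) * h2
    rw [hsplit, hsplit, hrefl, gX_n hp5 hh hn hτ]
    set Sg := ∑ k ∈ range (n + 1), gX h (-X - h) k * z' ^ k
    have f1 := hE (-X - h)
    have f2 : pw h ((p : ZMod (p ^ 3)) * ν) (-X - h) * pw h ((p : ZMod (p ^ 3)) * ν) (X + h) = 1 := by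
      rw [← pw_add hν3 hh]
      have : (-X - h + (X + h)) = 0 := by ring
      rw [this, pw_zero]
    have f3 : pw h t (12 * (-X - h)) * pw h t (12 * X + 6) = 1 := by
      rw [← pw_add ht3 hh]
      have : (12 * (-X - h) + (12 * X + 6)) = 0 := by linear_combination -6 * hh
      rw [this, pw_zero]
    have f4 : pw h ((p : ZMod (p ^ 3)) * ν) X = pw h ((p : ZMod (p ^ 3)) * ν) (-h) * pw h ((p : ZMod (p ^ 3)) * ν) (X + h) := by
      rw [← pw_add hν3 hh]
      congr 1; ring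
    have f5 : pw h ((p : ZMod (p ^ 3)) * ν') (-X - h) = pw h ((p : ZMod (p ^ 3)) * ν) (X + h) * pw h t (12 * X + 6) := by
      linear_combination (pw h ((p : ZMod (p ^ 3)) * ν) (X + h) * pw h t (12 * X + 6)) * f1 -
        pw h ((p : ZMod (p ^ 3)) * ν') (-X - h) * f2 -
        (pw h ((p : ZMod (p ^ 3)) * ν') (-X - h) * pw h ((p : ZMod (p ^ 3)) * ν) (-X - h) * pw h ((p : ZMod (p ^ 3)) * ν) (X + h)) * f3
    rw [f4, f5, hc]
    ring

/-- the components under Fricke -/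
theorem fricke_comps (hh : 2 * h = 1) {z z' c : ZMod (p ^ 3)} (hX : ∀ X, ex h (fS p z) X = c * ex h (fS p z') (-X - h)) :
    c2 h (fS p z) = c * c2 h (fS p z') ∧ c1 h (fS p z) = c * (c2 h (fS p z') - c1 h (fS p z')) ∧
    fS p z 0 = c * (fS p z' 0 - h * c1 h (fS p z') + h ^ 2 * c2 h (fS p z')) := by
  have e0 := hX 0
  have e1 := hX 1
  have e2 := hX (-1)
  unfold ex at e0 e1 e2
  refine ⟨?_, ?_, ?_⟩
  · linear_combination h * e1 + h * e2 - 2 * h * e0 + (c * c2 h (fS p z') - c2 h (fS p z)) * hh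
  · linear_combination h * e1 - h * e2 + (c * (2 * h * c2 h (fS p z') - c1 h (fS p z')) - c1 h (fS p z) + c * c2 h (fS p z')) * hh
  · linear_combination e0

end Pool.Agent.H547.P3
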