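import Pool.Agent.H547.P3.Star

set_option autoImplicit false

/-!
# The points with discriminant `-7`
-/

namespace Pool.Agent.H547.P3

open Finset

variable {p : ℕ} [hp : Fact p.Prime] {n : ℕ} {h : ZMod (p ^ 3)}

/-- reduction modulo `p` -/
noncomputable def red (p : ℕ) : ZMod (p ^ 3) →+* ZMod p := ZMod.castHom (dvd_pow_self p (by norm_num)) (ZMod p)

theorem red_ker {w : ZMod (p ^ 3)} (hw : red p w = 0) : ∃ t : ZMod (p ^ 3), w = (p : ZMod (p ^ 3)) * t := by
  have : NeZero (p ^ 3) := ⟨pow_ne_zero _ hp.out.ne_zero⟩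
  have h1 : w = ((w.val : ℕ) : ZMod (p ^ 3)) := (ZMod.natCast_zmod_val w).symm
  rw [h1, map_natCast, ZMod.natCast_eq_zero_iff] at hw
  obtain ⟨t, ht⟩ := hw
  refine ⟨t, ?_⟩
  rw [h1, ht]; push_cast; rfl

theorem red_unit {w : ZMod (p ^ 3)} (hw : red p w ≠ 0) : IsUnit w := by
  have : NeZero (p ^ 3) := ⟨pow_ne_zero _ hp.out.ne_zero⟩
  have h1 : w = ((w.val : ℕ) : ZMod (p ^ 3)) := (ZMod.natCast_zmod_val w).symm
  rw [h1]
  apply Q277.Jac.isUnit_cast
  intro h
  apply hw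
  rw [h1, map_natCast, ZMod.natCast_eq_zero_iff]
  exact h

theorem unit_red {w : ZMod (p ^ 3)} (hw : IsUnit w) : red p w ≠ 0 := (hw.map (red p)).ne_zero

theorem red_p : red p (p : ZMod (p ^ 3)) = 0 := by
  rw [map_natCast]; exact ZMod.natCast_self p

theorem sq_one (hp2 : 2 < p) {x : ZMod (p ^ 3)} (hx : x ^ 2 = 1) : x = 1 ∨ x = -1 := by
  by_cases h1 : red p (x - 1) = 0
  · left
    have h2 : IsUnit (x + 1) := by
      apply red_unit
      have e : red p (x + 1) = 2 := by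
        have : x + 1 = (x - 1) + 2 := by ring
        rw [this, map_add, h1, map_ofNat]; ring
      rw [e]
      have := unit_red (unit_cast (p := p) (k := 2) (by norm_num) hp2)
      rwa [map_natCast, Nat.cast_ofNat] at this
    have h3 : (x + 1) * (x - 1) = 0 := by linear_combination hx
    have := h2.mul_right_eq_zero.mp h3
    linear_combination this
  · right
    have h3 : (x - 1) * (x + 1) = 0 := by linear_combination hx
    have := (red_unit h1).mul_right_eq_zero.mp h3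
    linear_combination this

/-- an element with square one is determined by its reduction -/
theorem sq_one_red (hp2 : 2 < p) {x y : ZMod (p ^ 3)} (hx : x ^ 2 = 1) (hy : y ^ 2 = 1) (hxy : red p x = red p y) : x = y := by
  have h2 : (2 : ZMod p) ≠ 0 := by
    have := unit_red (unit_cast (p := p) (k := 2) (by norm_num) hp2)
    rwa [map_natCast, Nat.cast_ofNat] at this
  rcases sq_one hp2 hx with rfl | rfl <;> rcases sq_one hp2 hy with rfl | rfl
  · rfl
  · exfalso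
    rw [map_neg, map_one] at hxy
    apply h2; linear_combination hxy
  · exfalso
    rw [map_neg, map_one] at hxy
    apply h2; linear_combination -hxy
  · rfl

theorem kill (hp2 : 2 < p) {a b A B s : ZMod (p ^ 3)} (ha : a ^ 2 = 1) (hb : b ^ 2 = 1) (hpl : IsUnit (A + B)) (hm : IsUnit (A - B))
    (e : a * A * s = b * B * s) : s = 0 := by
  rcases sq_one hp2 ha with rfl | rfl <;> rcases sq_one hp2 hb with rfl | rfl
  · exact hm.mul_right_eq_zero.mp (by linear_combination e)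
  · exact hpl.mul_right_eq_zero.mp (by linear_combination e)
  · exact hpl.mul_right_eq_zero.mp (by linear_combination -e)
  · exact hm.mul_right_eq_zero.mp (by linear_combination -e)

theorem red_x {x l y : ZMod (p ^ 3)} (hx : x = l ^ n * (1 + (p : ZMod (p ^ 3)) * y)) : red p x = red p l ^ n := by
  rw [hx, map_mul, map_pow, map_add, map_mul, red_p, map_one]; ring

/-- the core theorem -/
theorem D7_core (hp53 : 53 ≤ p) (hn : p = 2 * n + 1) (hh : 2 * h = 1) {r z1 z2 i15 : ZMod (p ^ 3)} (hr : r ^ 2 = -7)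
    (hz1 : 8192 * z1 = 47 + 45 * r) (hz2 : 8192 * z2 = 47 - 45 * r) (hi : 15 * i15 = 1) :
    fS p z1 0 = fS p z2 0 ∧ c1 h (fS p z1) = 0 ∧ c2 h (fS p z1) = 0 ∧
    c1 h (fT1 p (-i15 ^ 3)) = 0 ∧ c2 h (fT1 p (-i15 ^ 3)) = 0 ∧
    ∃ x : ZMod (p ^ 3), x ^ 2 = 1 ∧ red p x = red p (1 - 16 * z1) ^ n ∧ x * fT1 p (-i15 ^ 3) 0 = fS p z1 0 := by
  have u2 : IsUnit (2 : ZMod (p ^ 3)) := by have := unit_cast (p := p) (k := 2) (by norm_num) (by omega); simpa using this
  have u3 : IsUnit (3 : ZMod (p ^ 3)) := by have := unit_cast (p := p) (k := 3) (by norm_num) (by omega); simpa using this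
  have u5 : IsUnit (5 : ZMod (p ^ 3)) := by have := unit_cast (p := p) (k := 5) (by norm_num) (by omega); simpa using this
  have u7 : IsUnit (7 : ZMod (p ^ 3)) := by have := unit_cast (p := p) (k := 7) (by norm_num) (by omega); simpa using this
  have ur : IsUnit r := by
    have : IsUnit (r * r) := by
      have e : r * r = -7 := by linear_combination hr
      rw [e]; exact u7.neg
    exact isUnit_of_mul_isUnit_left this
  have hzz : 4096 * z1 * z2 = 1 := by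
    apply (u2.pow 14).mul_left_cancel
    linear_combination (8192 * z2) * hz1 + (47 + 45 * r) * hz2 - 45 ^ 2 * hr
  have uz1 : IsUnit z1 := IsUnit.of_mul_eq_one (4096 * z2) (by linear_combination hzz)
  have uz2 : IsUnit z2 := IsUnit.of_mul_eq_one (4096 * z1) (by linear_combination hzz)
  obtain ⟨l1, hl1⟩ : ∃ l1, l1 = 1 - 16 * z1 := ⟨_, rfl⟩
  obtain ⟨l2, hl2⟩ : ∃ l2, l2 = 1 - 16 * z2 := ⟨_, rfl⟩
  have hl1' : 512 * l1 = 15 * (31 - 3 * r) := by rw [hl1]; linear_combination -hz1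
  have hl2' : 512 * l2 = 15 * (31 + 3 * r) := by rw [hl2]; linear_combination -hz2
  have hll : 256 * (l1 * l2) = 225 := by
    apply (u2.pow 10).mul_left_cancel
    linear_combination (512 * l2) * hl1' + 15 * (31 - 3 * r) * hl2' - 225 * 9 * hr
  obtain ⟨li1, hli1⟩ : ∃ li1, li1 = 256 * l2 * i15 ^ 2 := ⟨_, rfl⟩
  obtain ⟨li2, hli2⟩ : ∃ li2, li2 = 256 * l1 * i15 ^ 2 := ⟨_, rfl⟩
  have hL1 : l1 * li1 = 1 := by rw [hli1]; linear_combination i15 ^ 2 * hll + (15 * i15 + 1) * hi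
  have hL2 : l2 * li2 = 1 := by rw [hli2]; linear_combination i15 ^ 2 * hll + (15 * i15 + 1) * hi
  have ul1 : IsUnit l1 := IsUnit.of_mul_eq_one li1 hL1
  have ul2 : IsUnit l2 := IsUnit.of_mul_eq_one li2 hL2
  have hw1 : z1 ^ 2 * li1 ^ 3 = -i15 ^ 3 := by
    have e1 : -15 ^ 3 * z1 ^ 2 = l1 ^ 3 := by
      apply (u2.pow 27).mul_left_cancel
      linear_combination (-2 * 15 ^ 3 * (8192 * z1 + (47 + 45 * r))) * hz1 -
        ((512 * l1) ^ 2 + (512 * l1) * (15 * (31 - 3 * r)) + (15 * (31 - 3 * r)) ^ 2) * hl1' + (15 ^ 3) * (27 * r - 4887) * hr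
    have e2 : l1 ^ 3 * li1 ^ 3 = 1 := by rw [← mul_pow, hL1, one_pow]
    have e3 : (15 : ZMod (p ^ 3)) ^ 3 * i15 ^ 3 = 1 := by rw [← mul_pow, hi, one_pow]
    linear_combination (-(i15 ^ 3) * li1 ^ 3) * e1 - i15 ^ 3 * e2 - (z1 ^ 2 * li1 ^ 3) * e3
  have hw2 : z2 ^ 2 * li2 ^ 3 = -i15 ^ 3 := by
    have e1 : -15 ^ 3 * z2 ^ 2 = l2 ^ 3 := by
      apply (u2.pow 27).mul_left_cancel
      linear_combination (-2 * 15 ^ 3 * (8192 * z2 + (47 - 45 * r))) * hz2 -
        ((512 * l2) ^ 2 + (512 * l2) * (15 * (31 + 3 * r)) + (15 * (31 + 3 * r)) ^ 2) * hl2' + (15 ^ 3) * (-27 * r - 4887) * hr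
    have e2 : l2 ^ 3 * li2 ^ 3 = 1 := by rw [← mul_pow, hL2, one_pow]
    have e3 : (15 : ZMod (p ^ 3)) ^ 3 * i15 ^ 3 = 1 := by rw [← mul_pow, hi, one_pow]
    linear_combination (-(i15 ^ 3) * li2 ^ 3) * e1 - i15 ^ 3 * e2 - (z2 ^ 2 * li2 ^ 3) * e3
  obtain ⟨x1, hx1, ⟨y1, hy1⟩, f10, f11, f12⟩ := star1 hp53 hn hh uz1 hl1 hL1
  obtain ⟨x2, hx2, ⟨y2, hy2⟩, f20, f21, f22⟩ := star1 hp53 hn hh uz2 hl2 hL2
  rw [hw1] at f10 f11 f12
  rw [hw2] at f20 f21 f22
  obtain ⟨ν, hν⟩ := fermat_unit uz1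
  obtain ⟨c, hc, ⟨yc, hyc⟩, hX⟩ := fricke (by omega) hh hn hzz hν
  obtain ⟨g2, g1, g0⟩ := fricke_comps hh hX
  rw [g2, g1] at f11
  rw [g2] at f12
  rw [g2, g1] at f10
  set T0 := fT1 p (-i15 ^ 3) 0
  set T1 := c1 h (fT1 p (-i15 ^ 3))
  set T2 := c2 h (fT1 p (-i15 ^ 3))
  set s0 := fS p z1 0
  set t0 := fS p z2 0
  set t1 := c1 h (fS p z2)
  set t2 := c2 h (fS p z2)
  -- the units
  have W1 : 512 * (l2 * (2 + 16 * z1)) = 135 * (7 + r) := by
    apply (u2.pow 9).mul_left_cancel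
    linear_combination (1024 + 8192 * z1) * hl2' + 15 * (31 + 3 * r) * hz1 + 2025 * hr
  have W2 : 512 * (l1 * (2 + 16 * z2)) = 135 * (7 - r) := by
    apply (u2.pow 9).mul_left_cancel
    linear_combination (1024 + 8192 * z2) * hl1' + 15 * (31 - 3 * r) * hz2 + 2025 * hr
  have c135 : (135 : ZMod (p ^ 3)) = 3 ^ 3 * 5 := by norm_num
  have U1 : IsUnit (l2 * (2 + 16 * z1) + l1 * (2 + 16 * z2)) := by
    apply isUnit_of_mul_isUnit_right (x := (512 : ZMod (p ^ 3)))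
    have : (512 : ZMod (p ^ 3)) * (l2 * (2 + 16 * z1) + l1 * (2 + 16 * z2)) = (3 ^ 3 * 5) * (2 * 7) := by
      linear_combination W1 + W2
    rw [this]
    exact ((u3.pow 3).mul u5).mul (u2.mul u7)
  have U2 : IsUnit (l2 * (2 + 16 * z1) - l1 * (2 + 16 * z2)) := by
    apply isUnit_of_mul_isUnit_right (x := (512 : ZMod (p ^ 3)))
    have : (512 : ZMod (p ^ 3)) * (l2 * (2 + 16 * z1) - l1 * (2 + 16 * z2)) = (3 ^ 3 * 5) * (2 * r) := by
      linear_combination W1 - W2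
    rw [this]
    exact ((u3.pow 3).mul u5).mul (u2.mul ur)
  have U3 : IsUnit ((l2 * (2 + 16 * z1)) ^ 2 + (l1 * (2 + 16 * z2)) ^ 2) := by
    apply isUnit_of_mul_isUnit_right (x := (512 ^ 2 : ZMod (p ^ 3)))
    have : (512 ^ 2 : ZMod (p ^ 3)) * ((l2 * (2 + 16 * z1)) ^ 2 + (l1 * (2 + 16 * z2)) ^ 2) = (3 ^ 3 * 5) ^ 2 * (2 ^ 2 * 3 * 7) := by
      linear_combination (512 * (l2 * (2 + 16 * z1)) + 135 * (7 + r)) * W1 + (512 * (l1 * (2 + 16 * z2)) + 135 * (7 - r)) * W2 +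
        135 ^ 2 * 2 * hr
    rw [this]
    exact (((u3.pow 3).mul u5).pow 2).mul (((u2.pow 2).mul u3).mul u7)
  have U4 : IsUnit ((l2 * (2 + 16 * z1)) ^ 2 - (l1 * (2 + 16 * z2)) ^ 2) := by
    have : (l2 * (2 + 16 * z1)) ^ 2 - (l1 * (2 + 16 * z2)) ^ 2 =
      (l2 * (2 + 16 * z1) + l1 * (2 + 16 * z2)) * (l2 * (2 + 16 * z1) - l1 * (2 + 16 * z2)) := by ring
    rw [this]; exact U1.mul U2
  have hp2 : 2 < p := by omega
  have hxc : (x1 * c) ^ 2 = 1 := by rw [mul_pow, hx1, hc, one_mul]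
  have ht2 : t2 = 0 := by
    refine kill hp2 (a := x1 * c) (b := x2) hxc hx2 U3 U4 ?_
    linear_combination (-x1 * l2 ^ 2) * f12 + (x2 * l1 ^ 2) * f22 + (l1 ^ 2 * l2 ^ 2 * T2) * (hx1 - hx2)
  have hT2 : T2 = 0 := by
    have : IsUnit (l2 ^ 2 * x2) := by
      refine (ul2.pow 2).mul (IsUnit.of_mul_eq_one x2 (by linear_combination hx2))
    apply this.mul_right_eq_zero.mp
    rw [ht2] at f22
    linear_combination f22
  rw [ht2] at f11 f21 f10 f20
  have ht1 : t1 = 0 := by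
    refine kill hp2 (a := -(x1 * c)) (b := x2) (by linear_combination hxc) hx2 U1 U2 ?_
    apply (ul1.mul ul2).mul_left_cancel
    linear_combination (-x1 * l2 ^ 2) * f11 + (x2 * l1 ^ 2) * f21 + (l1 ^ 2 * l2 ^ 2 * T1) * (hx1 - hx2)
  have hT1 : T1 = 0 := by
    have : IsUnit (l2 ^ 2 * x2) := by
      refine (ul2.pow 2).mul (IsUnit.of_mul_eq_one x2 (by linear_combination hx2))
    apply this.mul_right_eq_zero.mp
    rw [ht1] at f21
    linear_combination f21
  rw [ht1] at f10 f20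
  have k1 : x1 * T0 = s0 := by
    apply (ul1.pow 2).mul_left_cancel
    linear_combination f10
  have k2 : x2 * T0 = t0 := by
    apply (ul2.pow 2).mul_left_cancel
    linear_combination f20
  have r1 := red_x hy1
  have r2 := red_x hy2
  have hx12 : x1 = x2 := by
    apply sq_one_red hp2 hx1 hx2
    -- red l1 ^ n = red l2 ^ n
    have e1 : red p (16 : ZMod (p ^ 3)) ≠ 0 := by
      apply unit_red
      have : (16 : ZMod (p ^ 3)) = 2 ^ 4 := by norm_num
      rw [this]; exact u2.pow 4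
    have e2 : red p (15 : ZMod (p ^ 3)) ≠ 0 := unit_red (IsUnit.of_mul_eq_one i15 hi)
    have e3 : red p (l1 * l2) ^ n = 1 := by
      have f1 := congrArg (red p) hll
      have f2 : red p (16 : ZMod (p ^ 3)) ^ 2 * red p (l1 * l2) = red p (15 : ZMod (p ^ 3)) ^ 2 := by
        rw [← map_pow, ← map_pow, ← map_mul]
        congr 1
        linear_combination hll
      have f3 := congrArg (· ^ n) f2
      simp only [mul_pow, ← pow_mul] at f3
      rw [show 2 * n = p - 1 by omega, ZMod.pow_card_sub_one_eq_one e1, ZMod.pow_card_sub_one_eq_one e2, one_mul] at f3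
      exact f3
    have e4 : red p l2 ^ n * red p l2 ^ n = 1 := by
      rw [← pow_add, show n + n = p - 1 by omega, ZMod.pow_card_sub_one_eq_one (unit_red ul2)]
    rw [map_mul, mul_pow] at e3
    rw [r1, r2]
    linear_combination (red p l2 ^ n) * e3 - (red p l1 ^ n) * e4
  refine ⟨?_, ?_, ?_, hT1, hT2, x1, hx1, ?_, k1⟩
  · rw [← k1, ← k2, hx12]
  · rw [g1, ht1, ht2]; ring
  · rw [g2, ht2]; ring
  · rw [r1, hl1]

end Pool.Agent.H547.P3
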