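import Pool.Agent.H547.P3.D7

set_option autoImplicit false

/-!
# The points with discriminant `-7`, continued
-/

namespace Pool.Agent.H547.P3

open Finset

variable {p : ℕ} [hp : Fact p.Prime] {n : ℕ} {h : ZMod (p ^ 3)}

theorem one_unit_fact {x y : ZMod (p ^ 3)} (hxy : x * y = 1) : IsUnit x := IsUnit.of_mul_eq_one y hxy

theorem red_sq_pow (hn : p = 2 * n + 1) {a : ZMod (p ^ 3)} (ha : IsUnit a) : (red p a ^ 2) ^ n = 1 := by
  rw [← pow_mul, show 2 * n = p - 1 by omega, ZMod.pow_card_sub_one_eq_one (unit_red ha)]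

/-- the points `z = 1`, `z = 1/4096` and `z₁` for the second family -/
theorem D7_more (hp53 : 53 ≤ p) (hn : p = 2 * n + 1) (hh : 2 * h = 1) {r z1 z2 i15 i255 i81 : ZMod (p ^ 3)} (hr : r ^ 2 = -7)
    (hz1 : 8192 * z1 = 47 + 45 * r) (hz2 : 8192 * z2 = 47 - 45 * r) (hi : 15 * i15 = 1) (hi255 : 255 * i255 = 1) (hi81 : 81 * i81 = 1) :
    (∃ x : ZMod (p ^ 3), x ^ 2 = 1 ∧ red p x = red p (-15) ^ n ∧ fS p 1 0 = x * fT1 p (-i15 ^ 3) 0) ∧
    (∃ x : ZMod (p ^ 3), x ^ 2 = 1 ∧ red p x = red p (-255) ^ n ∧ fS p 1 0 = x * fT1 p (i255 ^ 3) 0) ∧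
    fS p 1 0 = fT2 p (-i81) 0 := by
  have u2 : IsUnit (2 : ZMod (p ^ 3)) := by have := unit_cast (p := p) (k := 2) (by norm_num) (by omega); simpa using this
  have u3 : IsUnit (3 : ZMod (p ^ 3)) := by have := unit_cast (p := p) (k := 3) (by norm_num) (by omega); simpa using this
  have u5 : IsUnit (5 : ZMod (p ^ 3)) := by have := unit_cast (p := p) (k := 5) (by norm_num) (by omega); simpa using this
  have hp2 : 2 < p := by omega
  have u15 : IsUnit (15 : ZMod (p ^ 3)) := one_unit_fact hi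
  have u255 : IsUnit (255 : ZMod (p ^ 3)) := one_unit_fact hi255
  obtain ⟨c00, c11, c12, cT1, cT2, x1, hx1, rx1, k1⟩ := D7_core hp53 hn hh hr hz1 hz2 hi
  -- z = 1
  obtain ⟨xo, hxo, ⟨yo, hyo⟩, o0, o1, o2⟩ := star1 (z := 1) (l := -15) (li := -i15) hp53 hn hh isUnit_one (by norm_num)
    (by linear_combination hi)
  have ew : (1 : ZMod (p ^ 3)) ^ 2 * (-i15) ^ 3 = -i15 ^ 3 := by ring
  rw [ew] at o0 o1 o2
  rw [cT2, mul_zero, mul_zero] at o2
  have hs2 : c2 h (fS p 1) = 0 := by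
    have : IsUnit ((2 + 16 * 1 : ZMod (p ^ 3)) ^ 2) := by
      have e : (2 + 16 * 1 : ZMod (p ^ 3)) = 2 * 3 ^ 2 := by norm_num
      rw [e]; exact (u2.mul (u3.pow 2)).pow 2
    exact this.mul_right_eq_zero.mp o2.symm
  rw [cT1, mul_zero, mul_zero, hs2, mul_zero, add_zero] at o1
  have hs1 : c1 h (fS p 1) = 0 := by
    have : IsUnit ((2 + 16 * 1 : ZMod (p ^ 3)) * (-15)) := by
      have e : (2 + 16 * 1 : ZMod (p ^ 3)) = 2 * 3 ^ 2 := by norm_num
      rw [e]; exact (u2.mul (u3.pow 2)).mul u15.neg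
    exact this.mul_right_eq_zero.mp o1.symm
  rw [hs1, hs2, mul_zero, mul_zero, add_zero, add_zero] at o0
  have ko : xo * fT1 p (-i15 ^ 3) 0 = fS p 1 0 := (u15.neg.pow 2).mul_left_cancel o0
  have rxo := red_x hyo
  -- Fricke
  have hzz : 4096 * (1 : ZMod (p ^ 3)) * h ^ 12 = 1 := by
    have : (2 * h) ^ 12 = 1 := by rw [hh, one_pow]
    linear_combination this
  obtain ⟨c, hc, ⟨yc, hyc⟩, hX⟩ := fricke (ν := 0) (by omega) hh hn hzz (by simp)
  obtain ⟨g2, g1, g0⟩ := fricke_comps hh hX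
  have uc' : IsUnit c := IsUnit.of_mul_eq_one c (by linear_combination hc)
  rw [hs2] at g2
  have q2 : c2 h (fS p (h ^ 12)) = 0 := uc'.mul_right_eq_zero.mp g2.symm
  rw [hs1, q2] at g1
  have q1 : c1 h (fS p (h ^ 12)) = 0 := by
    have := uc'.mul_right_eq_zero.mp g1.symm
    linear_combination -this
  rw [q1, q2] at g0
  have g0' : fS p 1 0 = c * fS p (h ^ 12) 0 := by rw [g0]; ring
  -- z = 1/4096
  have hl4 : 256 * (1 - 16 * h ^ 12) = (255 : ZMod (p ^ 3)) := by linear_combination (-1) * hzz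
  obtain ⟨l4, hl4'⟩ : ∃ l4, l4 = 1 - 16 * h ^ 12 := ⟨_, rfl⟩
  rw [← hl4'] at hl4
  have hL4 : l4 * (256 * i255) = 1 := by linear_combination i255 * hl4 + hi255
  obtain ⟨x4, hx4, ⟨y4, hy4⟩, m0, -, -⟩ := star1 (z := h ^ 12) hp53 hn hh (IsUnit.of_mul_eq_one 4096 (by linear_combination hzz)) hl4' hL4
  have ew4 : (h ^ 12) ^ 2 * (256 * i255) ^ 3 = i255 ^ 3 := by
    have : (2 * h) ^ 24 = 1 := by rw [hh, one_pow]
    linear_combination i255 ^ 3 * this
  rw [ew4, q1, q2, mul_zero, mul_zero, add_zero, add_zero] at m0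
  have k4 : x4 * fT1 p (i255 ^ 3) 0 = fS p (h ^ 12) 0 := ((one_unit_fact hL4).pow 2).mul_left_cancel m0
  have rx4 := red_x hy4
  -- z₁ and the second family
  have hl5 : 128 * (1 - 64 * z1) = 9 * (9 - 5 * r) := by linear_combination -hz1
  obtain ⟨l5, hl5'⟩ : ∃ l5, l5 = 1 - 64 * z1 := ⟨_, rfl⟩
  rw [← hl5'] at hl5
  have hl5s : 256 * l5 = (3 * (5 - r)) ^ 2 := by linear_combination 2 * hl5 - 9 * hr
  have hαu : (5 - r) * (5 + r) = 32 := by linear_combination -hr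
  have uα : IsUnit (5 - r) := by
    have : IsUnit ((5 - r) * (5 + r)) := by
      rw [hαu]
      have e : (32 : ZMod (p ^ 3)) = 2 ^ 5 := by norm_num
      rw [e]; exact u2.pow 5
    exact isUnit_of_mul_isUnit_left this
  have ul5 : IsUnit l5 := by
    have : IsUnit (256 * l5) := by rw [hl5s]; exact (u3.mul uα).pow 2
    exact isUnit_of_mul_isUnit_right this
  obtain ⟨li5, hli5⟩ : ∃ li5, l5 * li5 = 1 := ⟨_, ul5.mul_val_inv⟩
  have hzz1 : 4096 * z1 * z2 = 1 := by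
    apply (u2.pow 14).mul_left_cancel
    linear_combination (8192 * z2) * hz1 + (47 + 45 * r) * hz2 - 45 ^ 2 * hr
  have uz1 : IsUnit z1 := IsUnit.of_mul_eq_one (4096 * z2) (by linear_combination hzz1)
  obtain ⟨x5, hx5, ⟨y5, hy5⟩, n0, -, -⟩ := star2 (by omega) hn hh uz1 hl5' hli5
  have ew5 : z1 * li5 ^ 2 = -i81 := by
    have e1 : -81 * z1 = l5 ^ 2 := by
      apply (u2.pow 14).mul_left_cancel
      linear_combination (-81 * 2) * hz1 - (128 * l5 + 9 * (9 - 5 * r)) * hl5 - 81 * 25 * hr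
    have e2 : l5 ^ 2 * li5 ^ 2 = 1 := by rw [← mul_pow, hli5, one_pow]
    linear_combination (-i81 * li5 ^ 2) * e1 - i81 * e2 - (z1 * li5 ^ 2) * hi81
  rw [ew5, c11, c12, mul_zero, mul_zero, add_zero, add_zero] at n0
  have k5 : x5 * fT2 p (-i81) 0 = fS p z1 0 := (ul5.pow 2).mul_left_cancel n0
  have rx5 := red_x hy5
  have u16 : IsUnit (16 : ZMod (p ^ 3)) := by
    have e : (16 : ZMod (p ^ 3)) = 2 ^ 4 := by norm_num
    rw [e]; exact u2.pow 4
  have h5 : x5 = 1 := by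
    apply sq_one_red hp2 hx5 (one_pow 2)
    rw [rx5, map_one]
    have f2 : red p (16 : ZMod (p ^ 3)) ^ 2 * red p l5 = red p (3 * (5 - r)) ^ 2 := by
      rw [← map_pow, ← map_pow, ← map_mul]
      congr 1
      linear_combination hl5s
    have f3 := congrArg (· ^ n) f2
    simp only [mul_pow] at f3
    rw [red_sq_pow hn u16, red_sq_pow hn (u3.mul uα), one_mul] at f3
    exact f3
  have h1o : xo * x1 = 1 := by
    apply sq_one_red hp2 (by rw [mul_pow, hxo, hx1, one_mul]) (one_pow 2)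
    rw [map_mul, rxo, rx1, map_one, ← mul_pow, ← map_mul]
    have f2 : red p (32 : ZMod (p ^ 3)) ^ 2 * red p (-15 * (1 - 16 * z1)) = red p (15 * (1 + 3 * r)) ^ 2 := by
      rw [← map_pow, ← map_pow, ← map_mul]
      congr 1
      linear_combination (15 * 16 * 2 ^ 10) * (0 : ZMod (p ^ 3)) * hr + (15 * 2) * hz1 - 225 * 9 * hr
    have u13 : IsUnit (1 + 3 * r) := by
      have : (1 + 3 * r) * (1 - 3 * r) = 2 ^ 6 := by linear_combination -9 * hr
      exact isUnit_of_mul_isUnit_left (by rw [this]; exact u2.pow 6)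
    have u32 : IsUnit (32 : ZMod (p ^ 3)) := by
      have e : (32 : ZMod (p ^ 3)) = 2 ^ 5 := by norm_num
      rw [e]; exact u2.pow 5
    have f3 := congrArg (· ^ n) f2
    simp only [mul_pow] at f3
    rw [red_sq_pow hn u32, red_sq_pow hn (u15.mul u13), one_mul] at f3
    exact f3
  refine ⟨⟨xo, hxo, rxo, ko.symm⟩, ⟨c * x4, by rw [mul_pow, hc, hx4, one_mul], ?_, ?_⟩, ?_⟩
  · rw [one_pow, mul_one] at hyc
    rw [map_mul, rx4, red_x hyc]
    have f2 : red p (16 : ZMod (p ^ 3)) ^ 2 * red p l4 = red p 255 := by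
      rw [← map_pow, ← map_mul]
      congr 1
      linear_combination hl4
    have f3 := congrArg (· ^ n) f2
    simp only [mul_pow] at f3
    rw [red_sq_pow hn u16, one_mul] at f3
    rw [f3, ← mul_pow, ← map_mul]
    congr 2
    norm_num
  · rw [g0', ← k4]; ring
  · have e1 : xo = x1 := by linear_combination x1 * h1o - xo * hx1
    rw [h5, one_mul] at k5
    rw [← ko, k5, ← k1, e1]

end Pool.Agent.H547.P3
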