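import Pool.Agent.H547.P3.D7b

set_option autoImplicit false

/-!
# Square roots modulo `p³`, transfer to rational congruences
-/

namespace Pool.Agent.H547.P3

open Finset

section

variable {p : ℕ} [hp : Fact p.Prime]

theorem exists_half' (hp2 : 2 < p) : ∃ h : ZMod (p ^ 3), 2 * h = 1 := by
  have := unit_cast (p := p) (k := 2) (by norm_num) hp2
  obtain ⟨u, hu⟩ := this
  refine ⟨(u⁻¹ : (ZMod (p ^ 3))ˣ), ?_⟩
  have h2 : ((2 : ℕ) : ZMod (p ^ 3)) = 2 := by norm_num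
  rw [← h2, ← hu]; exact u.mul_inv

theorem exists_sqrt (hp2 : 2 < p) {a : ZMod (p ^ 3)} (ha : IsUnit a) (hs : IsSquare (red p a)) : ∃ r : ZMod (p ^ 3), r ^ 2 = a := by
  obtain ⟨h, hh⟩ := exists_half' hp2
  obtain ⟨b, hb⟩ := hs
  have hb1 : ((b.val : ℕ) : ZMod p) = b := ZMod.natCast_zmod_val b
  set m : ZMod (p ^ 3) := ((b.val : ℕ) : ZMod (p ^ 3))
  have hm : red p m = b := by rw [map_natCast, hb1]
  have hmu : IsUnit m := by
    apply red_unit
    rw [hm]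
    intro h0
    apply unit_red ha
    rw [hb, h0, mul_zero]
  obtain ⟨mi, hmi⟩ : ∃ mi, m * mi = 1 := ⟨_, hmu.mul_val_inv⟩
  obtain ⟨y, hy⟩ := red_ker (p := p) (w := m ^ 2 - a) (by rw [map_sub, map_pow, hm, hb]; ring)
  set g := a * mi ^ 2 - 1 with hg
  have hmi2 : m ^ 2 * mi ^ 2 = 1 := by rw [← mul_pow, hmi, one_pow]
  have hg1 : g = p * (-(y * mi ^ 2)) := by rw [hg]; linear_combination (-mi ^ 2) * hy + hmi2
  have hg3 : g ^ 3 = 0 := by rw [hg1, mul_pow, p3_zero, zero_mul]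
  refine ⟨m * (1 + h * g - h ^ 3 * g ^ 2), ?_⟩
  rw [mul_pow, sqrt_sq hg3 hh, hg]
  linear_combination a * hmi2

theorem leg7_aux : ∀ r : ℕ, r < 7 → r ≠ 0 → haveI : Fact (Nat.Prime 7) := ⟨by norm_num⟩
    legendreSym 7 (r : ℤ) = if r = 1 ∨ r = 2 ∨ r = 4 then 1 else -1 := by
  decide

theorem legm7 (hp2 : p ≠ 2) (hp7 : p ≠ 7) : legendreSym p (-7) = if p % 7 = 1 ∨ p % 7 = 2 ∨ p % 7 = 4 then 1 else -1 := by
  haveI : Fact (Nat.Prime 7) := ⟨by norm_num⟩
  have h0 : p % 7 ≠ 0 := by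
    intro h0
    have := (Nat.prime_dvd_prime_iff_eq (by norm_num : Nat.Prime 7) hp.out).mp (Nat.dvd_of_mod_eq_zero h0)
    omega
  have h3 : legendreSym 7 p = if p % 7 = 1 ∨ p % 7 = 2 ∨ p % 7 = 4 then 1 else -1 := by
    rw [legendreSym.mod]
    have hc : ((p : ℤ) % ((7 : ℕ) : ℤ)) = ((p % 7 : ℕ) : ℤ) := by norm_cast
    rw [hc]
    exact leg7_aux _ (Nat.mod_lt _ (by norm_num)) h0
  have hm : legendreSym p (-7) = legendreSym p (-1) * legendreSym p 7 := by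
    rw [← legendreSym.mul]; norm_num
  have hq := legendreSym.quadratic_reciprocity' (p := p) (q := 7) hp2 (by norm_num)
  rw [← h3, hm, legendreSym.at_neg_one hp2, hq]
  have hodd : p % 2 = 1 := by
    rcases hp.out.eq_two_or_odd with h | h
    · exact absurd h hp2
    · exact h
  rw [ZMod.χ₄_eq_neg_one_pow hodd]
  have e1 : (-1 : ℤ) ^ (p / 2 * (7 / 2)) = (-1) ^ (p / 2) := by
    rw [show (7 / 2 : ℕ) = 3 by norm_num, mul_comm, pow_mul]; norm_num
  rw [e1]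
  rfl

theorem exists_sqrt_m7 (hp7 : 7 < p) (h : p % 7 = 1 ∨ p % 7 = 2 ∨ p % 7 = 4) : ∃ r : ZMod (p ^ 3), r ^ 2 = -7 := by
  have u7 : IsUnit (7 : ZMod (p ^ 3)) := by have := unit_cast (p := p) (k := 7) (by norm_num) hp7; simpa using this
  apply exists_sqrt (by omega) u7.neg
  have h1 := legm7 (p := p) (by omega) (by omega)
  rw [if_pos h] at h1
  have h2 : ((-7 : ℤ) : ZMod p) ≠ 0 := by
    have := unit_red u7
    rw [map_ofNat] at this
    push_cast
    exact neg_ne_zero.mpr this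
  have h3 := (legendreSym.eq_one_iff p h2).mp h1
  rw [map_neg, map_ofNat]
  push_cast at h3
  exact h3

theorem leg_sq_one {a : ℤ} (hp2 : 2 < p) {n : ℕ} (hn : p = 2 * n + 1) {x : ZMod (p ^ 3)} (hx : x ^ 2 = 1) (hr : red p x = red p (a : ZMod (p ^ 3)) ^ n) :
    x = ((legendreSym p a : ℤ) : ZMod (p ^ 3)) := by
  have h1 := legendreSym.eq_pow p a
  rw [show p / 2 = n by omega] at h1
  have ha : ((a : ℤ) : ZMod p) ≠ 0 := by
    intro h0
    have h2 : red p x ^ 2 = 1 := by rw [← map_pow, hx, map_one]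
    rw [hr, map_intCast, h0] at h2
    rcases Nat.eq_zero_or_pos n with h3 | h3
    · omega
    · rw [zero_pow (by omega)] at h2; norm_num at h2
  apply sq_one_red hp2 hx
  · have := legendreSym.sq_one p ha
    have := congrArg (Int.cast : ℤ → ZMod (p ^ 3)) this
    push_cast at this
    exact this
  · rw [hr, map_intCast, map_intCast, h1]

end

/-! ### transfer -/

/-- `ξ` represents the rational number `x` modulo `p³` -/
def Rep (p : ℕ) (x : ℚ) (ξ : ZMod (p ^ 3)) : Prop := ∃ N D : ℤ, ¬ (p : ℤ) ∣ D ∧ x * D = N ∧ (N : ZMod (p ^ 3)) = D * ξ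

section

variable {p : ℕ} [hp : Fact p.Prime]

theorem Rep.int (a : ℤ) : Rep p a a := ⟨a, 1, by
  rw [← Int.natCast_one, Int.natCast_dvd_natCast, Nat.dvd_one]; exact hp.out.one_lt.ne', by push_cast; ring, by push_cast; ring⟩

theorem Rep.nat (a : ℕ) : Rep p a a := by simpa using Rep.int (p := p) (a : ℤ)

theorem Rep.add {x y : ℚ} {ξ η : ZMod (p ^ 3)} (hx : Rep p x ξ) (hy : Rep p y η) : Rep p (x + y) (ξ + η) := by
  obtain ⟨N, D, h1, h2, h3⟩ := hx
  obtain ⟨N', D', h1', h2', h3'⟩ := hy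
  refine ⟨N * D' + N' * D, D * D', ?_, ?_, ?_⟩
  · intro h; rcases (Nat.prime_iff_prime_int.mp hp.out).dvd_mul.mp h with h | h
    · exact h1 h
    · exact h1' h
  · push_cast; linear_combination (D' : ℚ) * h2 + (D : ℚ) * h2'
  · push_cast; rw [h3, h3']; ring

theorem Rep.mul {x y : ℚ} {ξ η : ZMod (p ^ 3)} (hx : Rep p x ξ) (hy : Rep p y η) : Rep p (x * y) (ξ * η) := by
  obtain ⟨N, D, h1, h2, h3⟩ := hx
  obtain ⟨N', D', h1', h2', h3'⟩ := hy
  refine ⟨N * N', D * D', ?_, ?_, ?_⟩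
  · intro h; rcases (Nat.prime_iff_prime_int.mp hp.out).dvd_mul.mp h with h | h
    · exact h1 h
    · exact h1' h
  · push_cast; rw [← h2, ← h2']; ring
  · push_cast; rw [h3, h3']; ring

theorem Rep.neg {x : ℚ} {ξ : ZMod (p ^ 3)} (hx : Rep p x ξ) : Rep p (-x) (-ξ) := by
  have := (Rep.int (p := p) (-1)).mul hx
  push_cast at this
  simpa using this

theorem Rep.sub {x y : ℚ} {ξ η : ZMod (p ^ 3)} (hx : Rep p x ξ) (hy : Rep p y η) : Rep p (x - y) (ξ - η) := by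
  have := hx.add hy.neg
  rwa [← sub_eq_add_neg, ← sub_eq_add_neg] at this

theorem Rep.sum {ι : Type*} (s : Finset ι) {f : ι → ℚ} {g : ι → ZMod (p ^ 3)} (h : ∀ i ∈ s, Rep p (f i) (g i)) :
    Rep p (∑ i ∈ s, f i) (∑ i ∈ s, g i) := by
  classical
  induction s using Finset.induction_on with
  | empty => simpa using Rep.int (p := p) 0
  | insert a s ha ih =>
    rw [sum_insert ha, sum_insert ha]
    exact (h a (mem_insert_self _ _)).add (ih fun i hi => h i (mem_insert_of_mem hi))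

theorem Rep.inv {m : ℤ} (hm : ¬ (p : ℤ) ∣ m) {w : ZMod (p ^ 3)} (hw : (m : ZMod (p ^ 3)) * w = 1) (k : ℕ) :
    Rep p (1 / (m : ℚ) ^ k) (w ^ k) := by
  have hm0 : (m : ℚ) ≠ 0 := by
    intro h
    have : m = 0 := by exact_mod_cast h
    exact hm (this ▸ dvd_zero _)
  refine ⟨1, m ^ k, ?_, ?_, ?_⟩
  · intro h; exact hm ((Nat.prime_iff_prime_int.mp hp.out).dvd_of_dvd_pow h)
  · push_cast; field_simp
  · push_cast; rw [← mul_pow, hw, one_pow]

/-- the congruence of rationals modulo `p³` -/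
theorem Rep.cong {x : ℚ} (hx : Rep p x 0) : ∃ u : ℚ, ¬ p ∣ u.den ∧ x = (p : ℚ) ^ 3 * u := by
  obtain ⟨N, D, h1, h2, h3⟩ := hx
  rw [mul_zero] at h3
  have h4 : ((p ^ 3 : ℕ) : ℤ) ∣ N := (ZMod.intCast_zmod_eq_zero_iff_dvd N (p ^ 3)).mp h3
  obtain ⟨N', hN'⟩ := h4
  have hD : (D : ℚ) ≠ 0 := by
    intro h
    have : D = 0 := by exact_mod_cast h
    exact h1 (this ▸ dvd_zero _)
  refine ⟨(N' : ℚ) / D, ?_, ?_⟩
  · intro h
    have h5 := Rat.den_dvd N' D
    rw [← Rat.intCast_div_eq_divInt] at h5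
    exact h1 ((Int.natCast_dvd_natCast.mpr h).trans h5)
  · rw [hN'] at h2
    push_cast at h2
    field_simp
    linear_combination h2

theorem Rep.congr {x y : ℚ} {ξ η : ZMod (p ^ 3)} (hx : Rep p x ξ) (hy : Rep p y η) (h : ξ = η) :
    ∃ u : ℚ, ¬ p ∣ u.den ∧ x - y = (p : ℚ) ^ 3 * u := by
  have := hx.sub hy
  rw [h, sub_self] at this
  exact this.cong

theorem inv_exists {m : ℤ} (hm : ¬ (p : ℤ) ∣ m) : ∃ w : ZMod (p ^ 3), (m : ZMod (p ^ 3)) * w = 1 := by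
  have hu : IsUnit (m : ZMod (p ^ 3)) := by
    apply red_unit
    rw [map_intCast]
    intro h
    exact hm ((ZMod.intCast_zmod_eq_zero_iff_dvd m p).mp h)
  exact ⟨_, hu.mul_val_inv⟩

end

end Pool.Agent.H547.P3
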