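import Mathlib

set_option autoImplicit false

/-!
# Derivatives of the pullback identity
-/

namespace Pool.Agent.H547.P3

open Finset PowerSeries

variable {A : Type*} [CommRing A]

/-- `X d/dX` -/
noncomputable def th (f : A⟦X⟧) : A⟦X⟧ := X * derivative A f

theorem th_add (f g : A⟦X⟧) : th (f + g) = th f + th g := by simp [th, mul_add]
theorem th_sub (f g : A⟦X⟧) : th (f - g) = th f - th g := by simp [th, mul_sub]
theorem th_mul (f g : A⟦X⟧) : th (f * g) = th f * g + f * th g := by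
  simp only [th, Derivation.leibniz, smul_eq_mul]
  ring
theorem th_C (a : A) : th (C a) = 0 := by simp [th]
theorem th_sum {ι : Type*} (s : Finset ι) (f : ι → A⟦X⟧) : th (∑ i ∈ s, f i) = ∑ i ∈ s, th (f i) := by
  simp [th, mul_sum]
theorem th_X : th (X : A⟦X⟧) = X := by simp [th]

theorem th_X_pow (n : ℕ) : th ((X : A⟦X⟧) ^ n) = (n : A⟦X⟧) * X ^ n := by
  induction n with
  | zero => simp [th]
  | succ n ih =>
    rw [pow_succ, th_mul, ih, th_X]
    push_cast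
    ring

theorem th_dvd {K : ℕ} {f : A⟦X⟧} (h : X ^ K ∣ f) : X ^ K ∣ th f := by
  rw [X_pow_dvd_iff] at h ⊢
  intro n hn
  unfold th
  rcases Nat.eq_zero_or_pos n with h0 | h0
  · subst h0; simp
  · obtain ⟨j, rfl⟩ : ∃ j, n = j + 1 := ⟨n - 1, by omega⟩
    rw [coeff_succ_X_mul, coeff_derivative, h (j + 1) hn, zero_mul]

variable {β h : A} {σ : A⟦X⟧}

theorem th_sigma (hh : 2 * h = 1) (hs : σ ^ 2 * (1 - C (2 * β) * X) = 1) : th σ = C β * X * σ ^ 3 := by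
  have h1 := congrArg th hs
  have h2 : th (1 : A⟦X⟧) = 0 := by simpa using th_C (1 : A)
  have h21 : th (1 - C (2 * β) * X : A⟦X⟧) = -(C (2 * β) * X) := by
    rw [th_sub, h2, th_mul, th_C, th_X]; ring
  rw [th_mul, h21, h2] at h1
  have h3 : th (σ ^ 2) = 2 * σ * th σ := by
    rw [pow_two, th_mul]; ring
  rw [h3] at h1
  have hC : (2 : A⟦X⟧) * C h = 1 := by
    have := congrArg (C (R := A)) hh
    rwa [map_mul, map_one, map_ofNat] at this
  have hC2 : (C (2 * β) : A⟦X⟧) = 2 * C β := by rw [map_mul, map_ofNat]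
  rw [hC2] at h1 hs
  linear_combination (C h * σ) * h1 + (-2 * C h * th σ) * hs + (σ ^ 3 * C β * X - th σ) * hC

theorem th_sigma_pow (hh : 2 * h = 1) (hs : σ ^ 2 * (1 - C (2 * β) * X) = 1) (n : ℕ) :
    th (σ ^ n) = (n : A⟦X⟧) * (C β * X * σ ^ 2) * σ ^ n := by
  induction n with
  | zero =>
    have : th (1 : A⟦X⟧) = 0 := by simpa using th_C (1 : A)
    rw [pow_zero, this]; simp
  | succ n ih =>
    rw [pow_succ, th_mul, ih, th_sigma hh hs]
    push_cast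
    ring

/-- the pulled back partial sums -/
noncomputable def Ph (m d : ℕ) (σ : A⟦X⟧) (v : ℕ → A) (i K : ℕ) : A⟦X⟧ :=
  ∑ k ∈ range K, C ((k : A) ^ i * v k) * (X ^ (m * k) * σ ^ (2 * d * k + 1))

noncomputable def Ff (u : ℕ → A) (i K : ℕ) : A⟦X⟧ := ∑ k ∈ range K, C ((k : A) ^ i * u k) * X ^ k

theorem th_Ff (u : ℕ → A) (i K : ℕ) : th (Ff u i K) = Ff u (i + 1) K := by
  unfold Ff
  rw [th_sum]
  refine sum_congr rfl fun k _ => ?_
  rw [th_mul, th_C, th_X_pow, pow_succ, map_mul, map_mul, map_mul, map_natCast]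
  ring

theorem th_Ph (hh : 2 * h = 1) (hs : σ ^ 2 * (1 - C (2 * β) * X) = 1) (m d : ℕ) (v : ℕ → A) (i K : ℕ) :
    th (Ph m d σ v i K) = ((m : A⟦X⟧) + 2 * (d : A⟦X⟧) * C β * X * σ ^ 2) * Ph m d σ v (i + 1) K +
      C β * X * σ ^ 2 * Ph m d σ v i K := by
  unfold Ph
  rw [th_sum, mul_sum, mul_sum, ← sum_add_distrib]
  refine sum_congr rfl fun k _ => ?_
  rw [th_mul, th_C, th_mul, th_X_pow, th_sigma_pow hh hs, pow_succ (k : A) i, map_mul, map_mul, map_mul, map_natCast]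
  push_cast
  ring

/-- `X^K`-congruences for the first two derivatives -/
theorem base_der (hh : 2 * h = 1) (hs : σ ^ 2 * (1 - C (2 * β) * X) = 1) (m d : ℕ) (v u : ℕ → A) (K : ℕ)
    (h0 : X ^ K ∣ Ff u 0 K - Ph m d σ v 0 K) :
    X ^ K ∣ (1 - C (2 * β) * X) * Ff u 1 K -
      ((C (m : A) + C (2 * ((d : A) - m) * β) * X) * Ph m d σ v 1 K + C β * X * Ph m d σ v 0 K) ∧
    X ^ K ∣ (1 - C (2 * β) * X) ^ 2 * Ff u 2 K -
      ((C (m : A) + C (2 * ((d : A) - m) * β) * X) ^ 2 * Ph m d σ v 2 K +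
        (C (2 * (d : A) * β) * X + 2 * (C β * X) * (C (m : A) + C (2 * ((d : A) - m) * β) * X)) * Ph m d σ v 1 K +
        (C β * X + C (β ^ 2) * X ^ 2) * Ph m d σ v 0 K) := by
  have h1 := th_dvd h0
  have h2 := th_dvd h1
  have hρ : th (σ ^ 2) = 2 * (C β * X * σ ^ 2) * σ ^ 2 := by
    have := th_sigma_pow hh hs 2
    rw [this]; push_cast; ring
  have hg : th (C β * X * σ ^ 2) = C β * X * σ ^ 2 + C β * X * (2 * (C β * X * σ ^ 2) * σ ^ 2) := by
    rw [th_mul, hρ, th_mul, th_C, th_X]; ring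
  have hw : th ((m : A⟦X⟧) + 2 * (d : A⟦X⟧) * C β * X * σ ^ 2) =
      2 * (d : A⟦X⟧) * (C β * X * σ ^ 2 + C β * X * (2 * (C β * X * σ ^ 2) * σ ^ 2)) := by
    have e : (2 * (d : A⟦X⟧) * C β * X * σ ^ 2 : A⟦X⟧) = C (2 * (d : A)) * (C β * X * σ ^ 2) := by
      rw [map_mul, map_ofNat, map_natCast]; ring
    have e2 : ((m : A⟦X⟧)) = C (m : A) := by rw [map_natCast]
    rw [th_add, e, e2, th_C, th_mul, th_C, hg, map_mul, map_ofNat, map_natCast]
    ring
  rw [th_sub, th_Ff, th_Ph hh hs] at h1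
  rw [th_sub, th_Ff, th_Ph hh hs, th_sub, th_Ff, th_add, th_mul, th_mul, th_Ph hh hs, th_Ph hh hs, hg, hw] at h2
  simp only [map_mul, map_sub, map_natCast, map_ofNat, map_pow] at *
  norm_num only [zero_add] at h1 h2
  set B : A⟦X⟧ := C β
  set P0 := Ph m d σ v 0 K
  set P1 := Ph m d σ v 1 K
  set P2 := Ph m d σ v 2 K
  set M : A⟦X⟧ := (m : A⟦X⟧)
  set D : A⟦X⟧ := (d : A⟦X⟧)
  constructor
  · obtain ⟨q, hq⟩ := h1
    refine ⟨(1 - 2 * B * X) * q, ?_⟩
    linear_combination (1 - 2 * B * X) * hq + (2 * D * B * X * P1 + B * X * P0) * hs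
  · obtain ⟨q, hq⟩ := h2
    refine ⟨(1 - 2 * B * X) ^ 2 * q, ?_⟩
    have E1 : (1 - 2 * B * X) * (B * X * σ ^ 2) = B * X := by linear_combination (B * X) * hs
    have E2 : (1 - 2 * B * X) * (M + 2 * D * B * X * σ ^ 2) = M + 2 * (D - M) * B * X := by
      linear_combination (2 * D * B * X) * hs
    have E3 : (1 - 2 * B * X) ^ 2 * (B * X * σ ^ 2 + B * X * (2 * (B * X * σ ^ 2) * σ ^ 2)) = B * X := by
      linear_combination (1 - 2 * B * X) * E1 + 2 * (1 - 2 * B * X) * (B * X * σ ^ 2) * E1 + 2 * (B * X) * E1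
    linear_combination (1 - 2 * B * X) ^ 2 * hq + (2 * D * P1 + P0) * E3 +
      P2 * ((1 - 2 * B * X) * (M + 2 * D * B * X * σ ^ 2) + (M + 2 * (D - M) * B * X)) * E2 +
      2 * P1 * ((1 - 2 * B * X) * (M + 2 * D * B * X * σ ^ 2)) * E1 + 2 * P1 * (B * X) * E2 +
      P0 * ((1 - 2 * B * X) * (B * X * σ ^ 2) + B * X) * E1

end Pool.Agent.H547.P3
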