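import Mathlib

set_option autoImplicit false

/-!
# Quadratic functions of `κ` with coefficients divisible by `1, P, P²` when `P³ = 0`
-/

namespace Pool.Agent.H547.P3

open Finset Polynomial

section gen

variable {R : Type*} [CommRing R]

/-- `f κ = a + P b κ + P² c κ²` -/
def QP (P : R) (f : ℕ → R) : Prop := ∃ a b c : R, ∀ k : ℕ, f k = a + P * b * k + P ^ 2 * c * k ^ 2

theorem QP.const (P a : R) : QP P (fun _ => a) := ⟨a, 0, 0, fun k => by ring⟩

theorem QP.mul {P : R} (hP : P ^ 3 = 0) {f g : ℕ → R} (hf : QP P f) (hg : QP P g) : QP P (fun k => f k * g k) := by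
  obtain ⟨a, b, c, hf⟩ := hf
  obtain ⟨a', b', c', hg⟩ := hg
  refine ⟨a * a', a * b' + a' * b, a * c' + b * b' + a' * c, fun k => ?_⟩
  simp only [hf, hg]
  linear_combination (b * c' * (k : R) ^ 3 + b' * c * k ^ 3 + P * c * c' * k ^ 4) * hP

theorem QP.add {P : R} {f g : ℕ → R} (hf : QP P f) (hg : QP P g) : QP P (fun k => f k + g k) := by
  obtain ⟨a, b, c, hf⟩ := hf
  obtain ⟨a', b', c', hg⟩ := hg
  refine ⟨a + a', b + b', c + c', fun k => ?_⟩
  simp only [hf, hg]
  ring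

theorem QP.sum {P : R} {ι : Type*} (s : Finset ι) {f : ι → ℕ → R} (hf : ∀ i ∈ s, QP P (f i)) :
    QP P (fun k => ∑ i ∈ s, f i k) := by
  classical
  induction s using Finset.induction_on with
  | empty => simpa using QP.const P (0 : R)
  | insert a s ha ih =>
    have : (fun k => ∑ i ∈ insert a s, f i k) = fun k => f a k + ∑ i ∈ s, f i k := by
      funext k; rw [sum_insert ha]
    rw [this]
    exact (hf a (mem_insert_self _ _)).add (ih fun i hi => hf i (mem_insert_of_mem hi))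

theorem QP.pow {P : R} (hP : P ^ 3 = 0) {f : ℕ → R} (hf : QP P f) (n : ℕ) : QP P (fun k => f k ^ n) := by
  induction n with
  | zero => simpa using QP.const P (1 : R)
  | succ n ih =>
    have : (fun k => f k ^ (n + 1)) = fun k => f k ^ n * f k := by funext k; rw [pow_succ]
    rw [this]
    exact ih.mul hP hf

theorem QP.prod {P : R} (hP : P ^ 3 = 0) {ι : Type*} (s : Finset ι) {f : ι → ℕ → R} (hf : ∀ i ∈ s, QP P (f i)) :
    QP P (fun k => ∏ i ∈ s, f i k) := by
  classical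
  induction s using Finset.induction_on with
  | empty => simpa using QP.const P (1 : R)
  | insert a s ha ih =>
    have : (fun k => ∏ i ∈ insert a s, f i k) = fun k => f a k * ∏ i ∈ s, f i k := by
      funext k; rw [prod_insert ha]
    rw [this]
    exact (hf a (mem_insert_self _ _)).mul hP (ih fun i hi => hf i (mem_insert_of_mem hi))

theorem QP.map {S : Type*} [CommRing S] (φ : R →+* S) {P : R} {f : ℕ → R} (hf : QP P f) : QP (φ P) (fun k => φ (f k)) := by
  obtain ⟨a, b, c, hf⟩ := hf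
  exact ⟨φ a, φ b, φ c, fun k => by simp [hf]⟩

/-- `(1+y)^N` for `y³ = 0` -/
theorem one_add_pow3 {y h : R} (hy : y ^ 3 = 0) (hh : 2 * h = 1) (N : ℕ) :
    (1 + y) ^ N = 1 + N * y + h * (N * (N - 1)) * y ^ 2 := by
  induction N with
  | zero => simp
  | succ N ih =>
    rw [pow_succ, ih]
    push_cast
    linear_combination (h * ((N : R) * (N - 1))) * hy + (-(N : R) * y ^ 2) * hh

theorem QP.exp {P h : R} (hP : P ^ 3 = 0) (hh : 2 * h = 1) (x : R) (n : ℕ) : QP P (fun k => (1 + P * x) ^ (n * k)) := by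
  refine ⟨1, n * x - h * P * n * x ^ 2, h * n ^ 2 * x ^ 2, fun k => ?_⟩
  have : (P * x) ^ 3 = 0 := by rw [mul_pow, hP, zero_mul]
  show (1 + P * x) ^ (n * k) = _
  rw [one_add_pow3 this hh]
  push_cast
  ring

/-- square root of `1+g` -/
theorem sqrt_sq {g h : R} (hg : g ^ 3 = 0) (hh : 2 * h = 1) : (1 + h * g - h ^ 3 * g ^ 2) ^ 2 = 1 + g := by
  linear_combination (g + g ^ 2 * (-h ^ 2)) * hh + (-2 * h ^ 4 + h ^ 6 * g) * hg

theorem sqrt_pow {g h : R} (hg : g ^ 3 = 0) (hh : 2 * h = 1) (N : ℕ) :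
    (1 + h * g - h ^ 3 * g ^ 2) ^ (2 * N + 1) = 1 + (N + h) * g + (h * N ^ 2 - h ^ 3) * g ^ 2 := by
  rw [pow_succ, pow_mul, sqrt_sq hg hh, one_add_pow3 hg hh]
  linear_combination ((N : R) * g ^ 2 * (-h ^ 1 * 0)) * hh + (-(N : R) * h ^ 3 + h ^ 2 * (N * (N - 1)) - h ^ 4 * (N * (N - 1)) * g) * hg

end gen

section comps

variable {A : Type*} [CommRing A]

/-- second component -/
def c2 {R : Type*} [CommRing R] (h : R) (f : ℕ → R) : R := h * (f 2 - 2 * f 1 + f 0)

/-- first component -/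
def c1 {R : Type*} [CommRing R] (h : R) (f : ℕ → R) : R := f 1 - f 0 - c2 h f

theorem comps {R : Type*} [CommRing R] {P h : R} (hh : 2 * h = 1) {f : ℕ → R} (hf : QP P f) (k : ℕ) :
    f k = f 0 + k * c1 h f + k ^ 2 * c2 h f := by
  obtain ⟨a, b, c, hf⟩ := hf
  unfold c1 c2
  rw [hf k, hf 0, hf 1, hf 2]
  push_cast
  linear_combination ((k : R) * (P ^ 2 * c) - (k : R) ^ 2 * (P ^ 2 * c)) * hh

theorem c2_deg {h : A} {f : ℕ → A[X]} {D : ℕ} (hf : ∀ k, (f k).natDegree ≤ D) : (c2 (C h) f).natDegree ≤ D := by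
  unfold c2
  refine (natDegree_C_mul_le _ _).trans (natDegree_add_le_of_degree_le ((natDegree_sub_le _ _).trans
    (max_le (hf 2) ?_)) (hf 0))
  have : (2 : A[X]) * f 1 = C 2 * f 1 := by rw [map_ofNat]
  rw [this]
  exact (natDegree_C_mul_le _ _).trans (hf 1)

theorem c1_deg {h : A} {f : ℕ → A[X]} {D : ℕ} (hf : ∀ k, (f k).natDegree ≤ D) : (c1 (C h) f).natDegree ≤ D := by
  unfold c1
  exact (natDegree_sub_le _ _).trans (max_le ((natDegree_sub_le _ _).trans (max_le (hf 1) (hf 0))) (c2_deg hf))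

theorem c2_map {R S : Type*} [CommRing R] [CommRing S] (φ : R →+* S) (h : R) (f : ℕ → R) :
    φ (c2 h f) = c2 (φ h) (fun k => φ (f k)) := by simp [c2, map_ofNat]

theorem c1_map {R S : Type*} [CommRing R] [CommRing S] (φ : R →+* S) (h : R) (f : ℕ → R) :
    φ (c1 h f) = c1 (φ h) (fun k => φ (f k)) := by simp [c1, c2_map φ]

/-- the components are unique -/
theorem comps_unique {R : Type*} [CommRing R] {h : R} (hh : 2 * h = 1) {f : ℕ → R} {a b c : R}
    (hf : ∀ k : ℕ, f k = a + k * b + k ^ 2 * c) : f 0 = a ∧ c1 h f = b ∧ c2 h f = c := by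
  unfold c1 c2
  rw [hf 0, hf 1, hf 2]
  push_cast
  refine ⟨by ring, by linear_combination (-c) * hh, by linear_combination c * hh⟩

end comps

end Pool.Agent.H547.P3
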