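import Pool.Agent.H547.P3.Zeil
import Pool.Agent.H547.P3.QP
import Pool.Graph.R_pool_sql_team_seeded_3997aac3.Q277.Jacobsthal

set_option autoImplicit false

/-!
# Dwork congruences modulo `p³`
-/

namespace Pool.Agent.H547.P3

open Finset Nat

variable {p : ℕ} [hp : Fact p.Prime]

theorem unit_cast {k : ℕ} (h0 : 0 < k) (hk : k < p) : IsUnit (k : ZMod (p ^ 3)) :=
  Q277.Jac.isUnit_cast 3 k (fun h => absurd (Nat.le_of_dvd h0 h) (by omega))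

theorem p3_zero : ((p : ZMod (p ^ 3))) ^ 3 = 0 := by
  have : ((p ^ 3 : ℕ) : ZMod (p ^ 3)) = 0 := ZMod.natCast_self _
  push_cast at this
  exact this

theorem choose_p3 (hp5 : 5 ≤ p) (a b : ℕ) (h : b ≤ a) :
    (((p * a).choose (p * b) : ℕ) : ZMod (p ^ 3)) = ((a.choose b : ℕ) : ZMod (p ^ 3)) := by
  obtain ⟨m, rfl⟩ := Nat.exists_eq_add_of_le h
  have h1 := Q277.Jac.choose_rel p b m hp.out.pos
  have h2 := Q277.Jac.F_cong (p := p) hp5 0 b m (by simp) (by simp)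
  simp only [mul_zero, zero_add] at h2
  have h3 := Q277.Jac.F_zero_not_dvd (p := p) b
  have hu : IsUnit ((Q277.Jac.F p 0 b : ℤ) : ZMod (p ^ 3)) := by
    have hnn : 0 < Q277.Jac.F p 0 b := Q277.Jac.F_pos p b 0 le_rfl
    obtain ⟨n, hn⟩ := Int.eq_ofNat_of_zero_le hnn.le
    rw [hn, Int.cast_natCast]
    apply Q277.Jac.isUnit_cast
    rw [hn] at h3
    exact fun h => h3 (by exact_mod_cast h)
  have h4 : ((Q277.Jac.F p (p * m) b : ℤ) : ZMod (p ^ 3)) = ((Q277.Jac.F p 0 b : ℤ) : ZMod (p ^ 3)) := by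
    rw [eq_comm, ZMod.intCast_eq_intCast_iff_dvd_sub]
    exact_mod_cast h2
  have h5 := congrArg (Int.cast : ℤ → ZMod (p ^ 3)) h1
  push_cast at h5
  rw [h4] at h5
  exact hu.mul_right_cancel h5

theorem uc_p3 (hp5 : 5 ≤ p) (κ : ℕ) : ((uc (p * κ) : ℕ) : ZMod (p ^ 3)) = (uc κ : ZMod (p ^ 3)) := by
  unfold uc
  have := choose_p3 hp5 (2 * κ) κ (by omega)
  rw [show p * (2 * κ) = 2 * (p * κ) by ring] at this
  push_cast at this ⊢
  rw [this]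

theorem v1_p3 (hp5 : 5 ≤ p) (κ : ℕ) : ((v1 (p * κ) : ℕ) : ZMod (p ^ 3)) = (v1 κ : ZMod (p ^ 3)) := by
  unfold v1
  have h1 := choose_p3 hp5 (2 * κ) κ (by omega)
  have h2 := choose_p3 hp5 (3 * κ) κ (by omega)
  have h3 := choose_p3 hp5 (6 * κ) (3 * κ) (by omega)
  rw [show p * (2 * κ) = 2 * (p * κ) by ring] at h1
  rw [show p * (3 * κ) = 3 * (p * κ) by ring] at h2
  rw [show p * (3 * κ) = 3 * (p * κ) by ring, show p * (6 * κ) = 6 * (p * κ) by ring] at h3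
  push_cast
  rw [h1, h2, h3]

theorem v2_p3 (hp5 : 5 ≤ p) (κ : ℕ) : ((v2 (p * κ) : ℕ) : ZMod (p ^ 3)) = (v2 κ : ZMod (p ^ 3)) := by
  unfold v2
  have h1 := choose_p3 hp5 (2 * κ) κ (by omega)
  have h3 := choose_p3 hp5 (4 * κ) (2 * κ) (by omega)
  rw [show p * (2 * κ) = 2 * (p * κ) by ring] at h1
  rw [show p * (2 * κ) = 2 * (p * κ) by ring, show p * (4 * κ) = 4 * (p * κ) by ring] at h3
  push_cast
  rw [h1, h3]

/-- the block ratios -/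
noncomputable def HH (p : ℕ) (P : ℕ → ZMod (p ^ 3)) : ℕ → ℕ → ZMod (p ^ 3)
  | 0, _ => 1
  | j + 1, κ => HH p P j κ * (P (p * κ + j) * (((p * κ + j + 1 : ℕ) : ZMod (p ^ 3))⁻¹) ^ 3)

theorem inv_spec (κ : ℕ) {i : ℕ} (h0 : 0 < i) (hi : i < p) :
    ((p * κ + i : ℕ) : ZMod (p ^ 3)) * (((p * κ + i : ℕ) : ZMod (p ^ 3))⁻¹) = 1 := by
  apply ZMod.mul_inv_of_unit
  apply Q277.Jac.isUnit_cast
  intro h
  rw [Nat.dvd_add_right (dvd_mul_right p κ)] at h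
  exact absurd (Nat.le_of_dvd h0 h) (by omega)

theorem inv_QP {i : ℕ} (h0 : 0 < i) (hi : i < p) : QP (p : ZMod (p ^ 3)) (fun κ => ((p * κ + i : ℕ) : ZMod (p ^ 3))⁻¹) := by
  obtain ⟨u, hu⟩ := unit_cast (p := p) h0 hi
  have hu1 : (i : ZMod (p ^ 3)) * ((u⁻¹ : (ZMod (p ^ 3))ˣ) : ZMod (p ^ 3)) = 1 := by rw [← hu]; exact u.mul_inv
  set w := ((u⁻¹ : (ZMod (p ^ 3))ˣ) : ZMod (p ^ 3))
  refine ⟨w, -w ^ 2, w ^ 3, fun κ => ?_⟩
  have h1 := inv_spec (p := p) κ h0 hi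
  have h3 := p3_zero (p := p)
  set J := ((p * κ + i : ℕ) : ZMod (p ^ 3))⁻¹
  push_cast at h1
  have h2 : ((p : ZMod (p ^ 3)) * κ + i) * (w + p * (-w ^ 2) * κ + p ^ 2 * w ^ 3 * κ ^ 2) = 1 := by
    linear_combination (1 - (p : ZMod (p ^ 3)) * w * κ + p ^ 2 * w ^ 2 * κ ^ 2) * hu1 + (w ^ 3 * κ ^ 3) * h3
  linear_combination (-J) * h2 + (w + p * (-w ^ 2) * κ + p ^ 2 * w ^ 3 * κ ^ 2) * h1

theorem HH_QP {P : ℕ → ZMod (p ^ 3)} (hP : ∀ j, QP (p : ZMod (p ^ 3)) (fun κ => P (p * κ + j))) :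
    ∀ j < p, QP (p : ZMod (p ^ 3)) (fun κ => HH p P j κ) := by
  intro j
  induction j with
  | zero => intro _; exact QP.const _ _
  | succ j ih =>
    intro hj
    exact QP.mul p3_zero (ih (by omega)) (QP.mul p3_zero (hP j) (QP.pow p3_zero (inv_QP (i := j + 1) (by omega) hj) 3))

theorem HH_spec {P v : ℕ → ZMod (p ^ 3)} (hv0 : ∀ κ, v (p * κ) = v κ)
    (hrec : ∀ N : ℕ, v (N + 1) * ((N : ZMod (p ^ 3)) + 1) ^ 3 = P N * v N) :
    ∀ κ j, j < p → v (p * κ + j) = v κ * HH p P j κ := by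
  intro κ j
  induction j with
  | zero => intro _; rw [add_zero, hv0, HH, mul_one]
  | succ j ih =>
    intro hj
    have h1 := hrec (p * κ + j)
    rw [ih (by omega)] at h1
    have h2 := inv_spec (p := p) κ (i := j + 1) (by omega) hj
    rw [HH]
    rw [show p * κ + (j + 1) = p * κ + j + 1 by ring] at h2 ⊢
    set J := ((p * κ + j + 1 : ℕ) : ZMod (p ^ 3))⁻¹
    push_cast at h1 h2
    have h3 : (((p : ZMod (p ^ 3)) * κ + j + 1) * J) ^ 3 = 1 := by rw [h2, one_pow]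
    linear_combination J ^ 3 * h1 - v (p * κ + j + 1) * h3

/-- ratio polynomials -/
def Pu (p : ℕ) (N : ℕ) : ZMod (p ^ 3) := 8 * (2 * (N : ZMod (p ^ 3)) + 1) ^ 3
def P1 (p : ℕ) (N : ℕ) : ZMod (p ^ 3) := 24 * (6 * (N : ZMod (p ^ 3)) + 1) * (2 * N + 1) * (6 * N + 5)
def P2 (p : ℕ) (N : ℕ) : ZMod (p ^ 3) := 8 * (4 * (N : ZMod (p ^ 3)) + 1) * (2 * N + 1) * (4 * N + 3)

theorem lin_QP (a b j : ℕ) : QP (p : ZMod (p ^ 3)) (fun κ => a * ((p * κ + j : ℕ) : ZMod (p ^ 3)) + b) :=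
  ⟨a * j + b, a, 0, fun κ => by push_cast; ring⟩

theorem Pu_QP (j : ℕ) : QP (p : ZMod (p ^ 3)) (fun κ => Pu p (p * κ + j)) := by
  have h := QP.mul p3_zero (QP.const (p : ZMod (p ^ 3)) 8) (QP.pow p3_zero (lin_QP (p := p) 2 1 j) 3)
  unfold Pu
  push_cast at h ⊢
  exact h

theorem P1_QP (j : ℕ) : QP (p : ZMod (p ^ 3)) (fun κ => P1 p (p * κ + j)) := by
  have h := QP.mul p3_zero (QP.mul p3_zero (QP.mul p3_zero (QP.const (p : ZMod (p ^ 3)) 24) (lin_QP (p := p) 6 1 j))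
    (lin_QP (p := p) 2 1 j)) (lin_QP (p := p) 6 5 j)
  unfold P1
  push_cast at h ⊢
  exact h

theorem P2_QP (j : ℕ) : QP (p : ZMod (p ^ 3)) (fun κ => P2 p (p * κ + j)) := by
  have h := QP.mul p3_zero (QP.mul p3_zero (QP.mul p3_zero (QP.const (p : ZMod (p ^ 3)) 8) (lin_QP (p := p) 4 1 j))
    (lin_QP (p := p) 2 1 j)) (lin_QP (p := p) 4 3 j)
  unfold P2
  push_cast at h ⊢
  exact h

theorem v1_recQ (N : ℕ) : (v1 (N + 1) : ℚ) * ((N : ℚ) + 1) ^ 3 = 24 * (6 * (N : ℚ) + 1) * (2 * N + 1) * (6 * N + 5) * v1 N := by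
  rw [v1_Q, v1_Q]
  have h1 : ((3 * N)! : ℚ) ≠ 0 := by positivity
  have h3 : ((N)! : ℚ) ≠ 0 := by positivity
  have h4 : ((N : ℚ) + 1) ≠ 0 := by positivity
  have h5 : (3 * (N : ℚ) + 1) ≠ 0 := by positivity
  have h6 : (3 * (N : ℚ) + 2) ≠ 0 := by positivity
  have e1 : ((6 * (N + 1))! : ℚ) = (6 * N + 1) * (6 * N + 2) * (6 * N + 3) * (6 * N + 4) * (6 * N + 5) * (6 * N + 6) * (6 * N)! := by
    rw [show 6 * (N + 1) = 6 * N + 1 + 1 + 1 + 1 + 1 + 1 by ring]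
    simp only [Nat.factorial_succ]
    push_cast; ring
  have e2 : ((3 * (N + 1))! : ℚ) = 3 * (3 * N + 1) * (3 * N + 2) * (N + 1) * (3 * N)! := by
    rw [show 3 * (N + 1) = 3 * N + 1 + 1 + 1 by ring]
    simp only [Nat.factorial_succ]
    push_cast; ring
  have e3 : ((N + 1)! : ℚ) = (N + 1) * N ! := by rw [Nat.factorial_succ]; push_cast; ring
  rw [e1, e2, e3]
  field_simp
  ring

theorem v2_recQ (N : ℕ) : (v2 (N + 1) : ℚ) * ((N : ℚ) + 1) ^ 3 = 8 * (4 * (N : ℚ) + 1) * (2 * N + 1) * (4 * N + 3) * v2 N := by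
  rw [v2_Q, v2_Q]
  have h3 : ((N)! : ℚ) ≠ 0 := by positivity
  have h4 : ((N : ℚ) + 1) ≠ 0 := by positivity
  have e1 : ((4 * (N + 1))! : ℚ) = (4 * N + 1) * (4 * N + 2) * (4 * N + 3) * (4 * N + 4) * (4 * N)! := by
    rw [show 4 * (N + 1) = 4 * N + 1 + 1 + 1 + 1 by ring]
    simp only [Nat.factorial_succ]
    push_cast; ring
  have e3 : ((N + 1)! : ℚ) = (N + 1) * N ! := by rw [Nat.factorial_succ]; push_cast; ring
  rw [e1, e3]
  field_simp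
  ring

theorem v1_rec (N : ℕ) : (v1 (N + 1) : ZMod (p ^ 3)) * ((N : ZMod (p ^ 3)) + 1) ^ 3 = P1 p N * v1 N := by
  have h : v1 (N + 1) * (N + 1) ^ 3 = 24 * (6 * N + 1) * (2 * N + 1) * (6 * N + 5) * v1 N := by
    have := v1_recQ N
    exact_mod_cast this
  have := congrArg (Nat.cast : ℕ → ZMod (p ^ 3)) h
  push_cast at this
  exact this

theorem v2_rec (N : ℕ) : (v2 (N + 1) : ZMod (p ^ 3)) * ((N : ZMod (p ^ 3)) + 1) ^ 3 = P2 p N * v2 N := by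
  have h : v2 (N + 1) * (N + 1) ^ 3 = 8 * (4 * N + 1) * (2 * N + 1) * (4 * N + 3) * v2 N := by
    have := v2_recQ N
    exact_mod_cast this
  have := congrArg (Nat.cast : ℕ → ZMod (p ^ 3)) h
  push_cast at this
  exact this

noncomputable def Gu (p : ℕ) := HH p (Pu p)
noncomputable def H1 (p : ℕ) := HH p (P1 p)
/-- with sign -/
noncomputable def H2 (p : ℕ) := HH p (fun N => - P2 p N)

theorem Gu_QP : ∀ j < p, QP (p : ZMod (p ^ 3)) (fun κ => Gu p j κ) := HH_QP (fun j => Pu_QP j)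
theorem H1_QP : ∀ j < p, QP (p : ZMod (p ^ 3)) (fun κ => H1 p j κ) := HH_QP (fun j => P1_QP j)
theorem H2_QP : ∀ j < p, QP (p : ZMod (p ^ 3)) (fun κ => H2 p j κ) := HH_QP (fun j => by
  have := QP.mul p3_zero (QP.const (p : ZMod (p ^ 3)) (-1)) (P2_QP (p := p) j)
  simpa using this)

theorem Gu_spec (hp5 : 5 ≤ p) (κ j : ℕ) (hj : j < p) : (uc (p * κ + j) : ZMod (p ^ 3)) = uc κ * Gu p j κ :=
  HH_spec (v := fun k => (uc k : ZMod (p ^ 3))) (uc_p3 hp5) (fun N => uc_succ N) κ j hj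

theorem H1_spec (hp5 : 5 ≤ p) (κ j : ℕ) (hj : j < p) : (v1 (p * κ + j) : ZMod (p ^ 3)) = v1 κ * H1 p j κ :=
  HH_spec (v := fun k => (v1 k : ZMod (p ^ 3))) (v1_p3 hp5) (fun N => v1_rec N) κ j hj

theorem H2_spec (hp5 : 5 ≤ p) (κ j : ℕ) (hj : j < p) : ((-1) ^ (p * κ + j) * v2 (p * κ + j) : ZMod (p ^ 3)) =
    (-1) ^ κ * v2 κ * H2 p j κ :=
  HH_spec (v := fun k => ((-1) ^ k * v2 k : ZMod (p ^ 3))) (fun κ => by
    have hodd : Odd p := hp.out.odd_of_ne_two (by omega)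
    show (-1) ^ (p * κ) * (v2 (p * κ) : ZMod (p ^ 3)) = (-1) ^ κ * (v2 κ : ZMod (p ^ 3))
    rw [v2_p3 hp5, pow_mul, hodd.neg_one_pow]) (fun N => by
    have := v2_rec (p := p) N
    show (-1) ^ (N + 1) * (v2 (N + 1) : ZMod (p ^ 3)) * ((N : ZMod (p ^ 3)) + 1) ^ 3 = -P2 p N * ((-1) ^ N * (v2 N : ZMod (p ^ 3)))
    linear_combination (-(-1 : ZMod (p ^ 3)) ^ N) * this) κ j hj

theorem Gu_zero (hp5 : 5 ≤ p) (j : ℕ) (hj : j < p) : Gu p j 0 = (uc j : ZMod (p ^ 3)) := by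
  have := Gu_spec hp5 0 j hj
  simp only [mul_zero, zero_add] at this
  rw [this]; simp [uc]

theorem H1_zero (hp5 : 5 ≤ p) (j : ℕ) (hj : j < p) : H1 p j 0 = (v1 j : ZMod (p ^ 3)) := by
  have := H1_spec hp5 0 j hj
  simp only [mul_zero, zero_add] at this
  rw [this]; simp [v1]

theorem H2_zero (hp5 : 5 ≤ p) (j : ℕ) (hj : j < p) : H2 p j 0 = ((-1) ^ j * v2 j : ZMod (p ^ 3)) := by
  have := H2_spec hp5 0 j hj
  simp only [mul_zero, zero_add] at this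
  rw [this]; simp [v2]

end Pool.Agent.H547.P3
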