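import Pool.Agent.H547.P3.Dwork

set_option autoImplicit false

/-!
# Evaluation of quadratic functions at arbitrary arguments, and powers of one-units
-/

namespace Pool.Agent.H547.P3

open Finset

section gen

variable {R : Type*} [CommRing R] {P h : R}

/-- evaluation at `X` -/
def ex (h : R) (f : ℕ → R) (X : R) : R := f 0 + X * c1 h f + X ^ 2 * c2 h f

theorem ex_eq (hh : 2 * h = 1) {f : ℕ → R} {a b c : R} (hf : ∀ k : ℕ, f k = a + k * b + k ^ 2 * c) (X : R) :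
    ex h f X = a + X * b + X ^ 2 * c := by
  obtain ⟨h0, h1, h2⟩ := comps_unique hh hf
  unfold ex
  rw [h0, h1, h2]

theorem ex_QP (hh : 2 * h = 1) {f : ℕ → R} {a b c : R} (hf : ∀ k : ℕ, f k = a + P * b * k + P ^ 2 * c * k ^ 2) (X : R) :
    ex h f X = a + P * b * X + P ^ 2 * c * X ^ 2 := by
  rw [ex_eq hh (a := a) (b := P * b) (c := P ^ 2 * c) (fun k => by rw [hf k]; ring)]
  ring

theorem ex_const (hh : 2 * h = 1) (a X : R) : ex h (fun _ => a) X = a := by
  rw [ex_eq hh (a := a) (b := 0) (c := 0) (fun k => by ring)]; ring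

theorem ex_mul (hP : P ^ 3 = 0) (hh : 2 * h = 1) {f g : ℕ → R} (hf : QP P f) (hg : QP P g) (X : R) :
    ex h (fun k => f k * g k) X = ex h f X * ex h g X := by
  obtain ⟨a, b, c, hf⟩ := hf
  obtain ⟨a', b', c', hg⟩ := hg
  rw [ex_QP hh hf, ex_QP hh hg, ex_QP (P := P) (a := a * a') (b := a * b' + a' * b) (c := a * c' + b * b' + a' * c) hh (fun k => ?_)]
  · linear_combination (-(b * c' * X ^ 3 + b' * c * X ^ 3 + P * c * c' * X ^ 4)) * hP
  · simp only [hf, hg]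
    linear_combination (b * c' * (k : R) ^ 3 + b' * c * k ^ 3 + P * c * c' * k ^ 4) * hP

theorem ex_add (f g : ℕ → R) (X : R) : ex h (fun k => f k + g k) X = ex h f X + ex h g X := by
  unfold ex c1 c2; ring

theorem ex_sum {ι : Type*} (s : Finset ι) (f : ι → ℕ → R) (X : R) :
    ex h (fun k => ∑ i ∈ s, f i k) X = ∑ i ∈ s, ex h (f i) X := by
  classical
  induction s using Finset.induction_on with
  | empty => simp [ex, c1, c2]
  | insert a s ha ih =>
    have : (fun k => ∑ i ∈ insert a s, f i k) = fun k => f a k + ∑ i ∈ s, f i k := by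
      funext k; rw [sum_insert ha]
    rw [this, sum_insert ha, ex_add, ih]

theorem ex_pow (hP : P ^ 3 = 0) (hh : 2 * h = 1) {f : ℕ → R} (hf : QP P f) (n : ℕ) (X : R) :
    ex h (fun k => f k ^ n) X = ex h f X ^ n := by
  induction n with
  | zero => simp only [pow_zero, ex, c1, c2]; ring
  | succ n ih =>
    have : (fun k => f k ^ (n + 1)) = fun k => f k ^ n * f k := by funext k; rw [pow_succ]
    rw [this, ex_mul hP hh (hf.pow hP n) hf, ih, pow_succ]

/-- `(1+t)^X` for `t³ = 0` -/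
def pw (h t X : R) : R := 1 + X * t + h * (X ^ 2 - X) * t ^ 2

theorem pw_nat {t : R} (ht : t ^ 3 = 0) (hh : 2 * h = 1) (n : ℕ) : pw h t n = (1 + t) ^ n := by
  rw [one_add_pow3 ht hh]; unfold pw; ring

theorem pw_add {t : R} (ht : t ^ 3 = 0) (hh : 2 * h = 1) (X Y : R) : pw h t (X + Y) = pw h t X * pw h t Y := by
  unfold pw
  linear_combination (X * Y * t ^ 2) * hh - (h * X * (Y ^ 2 - Y) + h * Y * (X ^ 2 - X) + h ^ 2 * (X ^ 2 - X) * (Y ^ 2 - Y) * t) * ht

theorem pw_zero (t : R) : pw h t 0 = 1 := by unfold pw; ring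

theorem pw_neg {t : R} (ht : t ^ 3 = 0) (hh : 2 * h = 1) (X : R) : pw h t X * pw h t (-X) = 1 := by
  rw [← pw_add ht hh, add_neg_cancel, pw_zero]

theorem pw_pow {t : R} (ht : t ^ 3 = 0) (hh : 2 * h = 1) (X : R) (n : ℕ) : pw h t X ^ n = pw h t (n * X) := by
  induction n with
  | zero => simp [pw_zero]
  | succ n ih => rw [pow_succ, ih, ← pw_add ht hh]; congr 1; push_cast; ring

/-- `(1+t)(1+s) = 1 + r` -/
theorem pw_mul {a b : R} (hP : P ^ 3 = 0) (hh : 2 * h = 1) {r : R} (hr : (1 + P * a) * (1 + P * b) = 1 + r) (X : R) :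
    pw h (P * a) X * pw h (P * b) X = pw h r X := by
  have e : r = P * a + P * b + P ^ 2 * (a * b) := by linear_combination -hr
  rw [e]
  unfold pw
  linear_combination (-X * (X-1) * P ^ 2 * a * b) * hh + (2 * X * a * h * b ^ 2 + 2 * X * a ^ 2 * h * b + X * P * a ^ 2 * h * b ^ 2 -
    X ^ 2 * (3 * a * h * b ^ 2 + 3 * a ^ 2 * h * b + P * a ^ 2 * h * b ^ 2) + X ^ 2 * P * a ^ 2 * h ^ 2 * b ^ 2 +
    X ^ 3 * (a * h * b ^ 2 + a ^ 2 * h * b) - 2 * X ^ 3 * P * a ^ 2 * h ^ 2 * b ^ 2 + X ^ 4 * P * a ^ 2 * h ^ 2 * b ^ 2) * hP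

theorem ex_zpow {z ν : R} {p : ℕ} (hP : P ^ 3 = 0) (hh : 2 * h = 1) (hz : z ^ (p - 1) = 1 + P * ν) (X : R) :
    ex h (fun κ => (z ^ (p - 1)) ^ κ) X = pw h (P * ν) X := by
  have hν : (P * ν) ^ 3 = 0 := by rw [mul_pow, hP, zero_mul]
  rw [ex_eq hh (a := 1) (b := P * ν - h * (P * ν) ^ 2) (c := h * (P * ν) ^ 2)]
  · unfold pw; ring
  · intro k
    show (z ^ (p - 1)) ^ k = _
    rw [hz, one_add_pow3 hν hh]; ring

end gen

end Pool.Agent.H547.P3
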