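import Pool.Agent.H547.P3.Ex
import Pool.Graph.R_pool_sql_team_seeded_620a6dc7.helper484_domb_.Morley

set_option autoImplicit false

/-!
# The Fricke involution for the truncated sums of `C(2k,k)³ z^k`
-/

namespace Pool.Agent.H547.P3

open Finset Pool.Agent.Helper484_Domb

variable {p : ℕ} [hp : Fact p.Prime] {n : ℕ} {h : ZMod (p ^ 3)}

theorem fermat_unit {z : ZMod (p ^ 3)} (hz : IsUnit z) : ∃ ν : ZMod (p ^ 3), z ^ (p - 1) = 1 + (p : ZMod (p ^ 3)) * ν := by
  have hd' : p ∣ p ^ 3 := dvd_pow_self p (by norm_num)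
  have h1 : (ZMod.castHom hd' (ZMod p)) (z ^ (p - 1) - 1) = 0 := by
    rw [map_sub, map_pow, map_one, ZMod.pow_card_sub_one_eq_one, sub_self]
    exact (hz.map (ZMod.castHom hd' (ZMod p))).ne_zero
  have h2 : ∀ w : ZMod (p ^ 3), (ZMod.castHom hd' (ZMod p)) w = 0 → ∃ t : ZMod (p ^ 3), w = (p : ZMod (p ^ 3)) * t := by
    intro w hw
    have : NeZero (p ^ 3) := ⟨pow_ne_zero _ hp.out.ne_zero⟩
    have h1 : w = ((w.val : ℕ) : ZMod (p ^ 3)) := (ZMod.natCast_zmod_val w).symm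
    rw [h1, map_natCast, ZMod.natCast_eq_zero_iff] at hw
    obtain ⟨t, ht⟩ := hw
    refine ⟨t, ?_⟩
    rw [h1, ht]; push_cast; rfl
  obtain ⟨t, ht⟩ := h2 _ h1
  exact ⟨t, by linear_combination ht⟩

theorem unit_shift (X : ZMod (p ^ 3)) {i : ℕ} (h0 : 0 < i) (hi : i < p) : IsUnit ((p : ZMod (p ^ 3)) * X + (i : ZMod (p ^ 3))) := by
  obtain ⟨u, hu⟩ := unit_cast (p := p) h0 hi
  have hu1 : (i : ZMod (p ^ 3)) * ((u⁻¹ : (ZMod (p ^ 3))ˣ) : ZMod (p ^ 3)) = 1 := by rw [← hu]; exact u.mul_inv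
  set w := ((u⁻¹ : (ZMod (p ^ 3))ˣ) : ZMod (p ^ 3))
  have h3 := p3_zero (p := p)
  refine IsUnit.of_mul_eq_one (w + p * (-w ^ 2) * X + p ^ 2 * w ^ 3 * X ^ 2) ?_
  linear_combination (1 - (p : ZMod (p ^ 3)) * w * X + p ^ 2 * w ^ 2 * X ^ 2) * hu1 + (w ^ 3 * X ^ 3) * h3

theorem ex_lin (hh : 2 * h = 1) (a b j : ℕ) (X : ZMod (p ^ 3)) :
    ex h (fun κ => (a : ZMod (p ^ 3)) * ((p * κ + j : ℕ) : ZMod (p ^ 3)) + b) X = a * (p * X + j) + b := by
  rw [ex_eq hh (a := (a : ZMod (p ^ 3)) * j + b) (b := a * p) (c := 0) (fun k => by push_cast; ring)]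
  ring

/-- the evaluated ratios -/
noncomputable def gX (h : ZMod (p ^ 3)) (X : ZMod (p ^ 3)) (j : ℕ) : ZMod (p ^ 3) := ex h (Gu p j) X

theorem ex_inv (hh : 2 * h = 1) {i : ℕ} (h0 : 0 < i) (hi : i < p) (X : ZMod (p ^ 3)) :
    ex h (fun κ => ((p * κ + i : ℕ) : ZMod (p ^ 3))⁻¹) X * (p * X + i) = 1 := by
  have h1 := ex_lin (p := p) hh 1 0 i X
  have h2 := ex_mul (P := (p : ZMod (p ^ 3))) p3_zero hh (inv_QP h0 hi) (lin_QP (p := p) 1 0 i) X
  rw [h1] at h2
  have h3 : (fun k : ℕ => ((p * k + i : ℕ) : ZMod (p ^ 3))⁻¹ * (((1 : ℕ) : ZMod (p ^ 3)) * ((p * k + i : ℕ) : ZMod (p ^ 3)) + ((0 : ℕ) : ZMod (p ^ 3)))) =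
      fun _ => 1 := by
    funext k
    have := inv_spec (p := p) k h0 hi
    rw [Nat.cast_one, Nat.cast_zero, one_mul, add_zero, mul_comm, this]
  rw [h3, ex_const hh] at h2
  rw [h2]; push_cast; ring

theorem gX_zero (hh : 2 * h = 1) (X : ZMod (p ^ 3)) : gX h X 0 = 1 := ex_const hh 1 X

theorem gX_succ (hh : 2 * h = 1) (X : ZMod (p ^ 3)) {j : ℕ} (hj : j + 1 < p) :
    gX h X (j + 1) * (p * X + (j + 1)) ^ 3 = gX h X j * (8 * (2 * (p * X + j) + 1) ^ 3) := by
  have e1 : Gu p (j + 1) = fun κ => Gu p j κ * (Pu p (p * κ + j) * (((p * κ + (j + 1) : ℕ) : ZMod (p ^ 3))⁻¹) ^ 3) := by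
    funext κ; rfl
  have hinv := inv_QP (p := p) (i := j + 1) (by omega) hj
  unfold gX
  rw [e1, ex_mul (P := (p : ZMod (p ^ 3))) p3_zero hh (Gu_QP j (by omega)) (QP.mul p3_zero (Pu_QP j) (QP.pow p3_zero hinv 3)),
    ex_mul (P := (p : ZMod (p ^ 3))) p3_zero hh (Pu_QP j) (QP.pow p3_zero hinv 3), ex_pow (P := (p : ZMod (p ^ 3))) p3_zero hh hinv]
  have e2 : ex h (fun k => Pu p (p * k + j)) X = 8 * (2 * (p * X + j) + 1) ^ 3 := by
    have e3 : (fun k => Pu p (p * k + j)) = fun k => 8 * (((2 : ℕ) : ZMod (p ^ 3)) * ((p * k + j : ℕ) : ZMod (p ^ 3)) + ((1 : ℕ) : ZMod (p ^ 3))) ^ 3 := by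
      funext k; unfold Pu; push_cast; ring
    rw [e3, ex_mul (P := (p : ZMod (p ^ 3))) p3_zero hh (QP.const _ 8) (QP.pow p3_zero (lin_QP (p := p) 2 1 j) 3), ex_const hh,
      ex_pow (P := (p : ZMod (p ^ 3))) p3_zero hh (lin_QP (p := p) 2 1 j), ex_lin hh]
    push_cast; ring
  have e4 := ex_inv (p := p) hh (i := j + 1) (by omega) hj X
  rw [e2]
  set J := ex h (fun κ => ((p * κ + (j + 1) : ℕ) : ZMod (p ^ 3))⁻¹) X
  push_cast at e4
  have e5 : (J * (p * X + (j + 1))) ^ 3 = 1 := by rw [e4, one_pow]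
  show ex h (Gu p j) X * (8 * (2 * (↑p * X + ↑j) + 1) ^ 3 * J ^ 3) * (↑p * X + (↑j + 1)) ^ 3 = _
  linear_combination (ex h (Gu p j) X * (8 * (2 * (↑p * X + ↑j) + 1) ^ 3)) * e5

theorem gX_top (hh : 2 * h = 1) (hn : p = 2 * n + 1) (h1 : 1 ≤ n) (X : ZMod (p ^ 3)) :
    ∀ k, n + 1 + k < p → gX h X (n + 1 + k) = 0 := by
  intro k
  induction k with
  | zero =>
    intro hk
    have e := gX_succ hh X (j := n) (by omega)
    have hP := p3_zero (p := p)
    have hpc : (p : ZMod (p ^ 3)) = 2 * n + 1 := by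
      have := congrArg (Nat.cast : ℕ → ZMod (p ^ 3)) hn
      push_cast at this; exact this
    have e2 : (8 : ZMod (p ^ 3)) * (2 * (p * X + n) + 1) ^ 3 = 0 := by
      have : (2 * ((p : ZMod (p ^ 3)) * X + n) + 1) = p * (2 * X + 1) := by linear_combination -hpc
      rw [this, mul_pow, hP]; ring
    rw [e2, mul_zero] at e
    have hu : IsUnit (((p : ZMod (p ^ 3)) * X + (n + 1)) ^ 3) := by
      have := unit_shift (p := p) X (i := n + 1) (by omega) (by omega)
      push_cast at this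
      exact this.pow 3
    exact hu.mul_left_eq_zero.mp e
  | succ k ih =>
    intro hk
    have e := gX_succ hh X (j := n + 1 + k) (by omega)
    rw [ih (by omega), zero_mul] at e
    have hu : IsUnit (((p : ZMod (p ^ 3)) * X + (((n + 1 + k : ℕ) : ZMod (p ^ 3)) + 1)) ^ 3) := by
      have := unit_shift (p := p) X (i := n + 1 + k + 1) (by omega) (by omega)
      rw [Nat.cast_succ] at this
      exact this.pow 3
    exact hu.mul_left_eq_zero.mp e

theorem gX_refl (hh : 2 * h = 1) (hn : p = 2 * n + 1) (X : ZMod (p ^ 3)) :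
    ∀ k ≤ n, (4096 : ZMod (p ^ 3)) ^ k * gX h X (n - k) = gX h X n * gX h (-X - h) k := by
  have hpc : (p : ZMod (p ^ 3)) = 2 * n + 1 := by
    have := congrArg (Nat.cast : ℕ → ZMod (p ^ 3)) hn
    push_cast at this; exact this
  intro k
  induction k with
  | zero => intro _; rw [gX_zero hh]; simp
  | succ k ih =>
    intro hk
    obtain ⟨j, rfl⟩ : ∃ j, n = j + 1 + k := ⟨n - 1 - k, by omega⟩
    have ih' := ih (by omega)
    rw [show j + 1 + k - k = j + 1 by omega] at ih'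
    rw [show j + 1 + k - (k + 1) = j by omega]
    have e1 := gX_succ hh X (j := j) (by omega)
    have e2 := gX_succ hh (-X - h) (j := k) (by omega)
    push_cast at hpc
    have e3 : 8 * ((p : ZMod (p ^ 3)) * (-X - h) + (k + 1)) ^ 3 = -(2 * (p * X + j) + 1) ^ 3 := by
      have : 2 * ((p : ZMod (p ^ 3)) * (-X - h) + (k + 1)) = -(2 * (p * X + j) + 1) := by
        linear_combination -(p : ZMod (p ^ 3)) * hh - hpc
      have h3 := congrArg (fun x => x ^ 3) this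
      linear_combination h3
    have e4 : 8 * (2 * ((p : ZMod (p ^ 3)) * (-X - h) + k) + 1) ^ 3 = -64 * (p * X + (j + 1)) ^ 3 := by
      have : (2 * ((p : ZMod (p ^ 3)) * (-X - h) + k) + 1) = -2 * (p * X + (j + 1)) := by
        linear_combination -(p : ZMod (p ^ 3)) * hh - hpc
      rw [this]; ring
    rw [e4] at e2
    have hu : IsUnit ((2 * ((p : ZMod (p ^ 3)) * X + j) + 1) ^ 3) := by
      have := unit_shift (p := p) (2 * X) (i := 2 * j + 1) (by omega) (by omega)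
      push_cast at this
      have e : (2 * ((p : ZMod (p ^ 3)) * X + j) + 1) = p * (2 * X) + (2 * j + 1) := by ring
      rw [e]; exact this.pow 3
    apply hu.mul_left_cancel
    rw [pow_succ (4096 : ZMod (p ^ 3)) k]
    linear_combination (512 * (p * X + (j + 1)) ^ 3) * ih' - (gX h (-X - h) (k + 1) * gX h X (j + 1 + k)) * e3 +
      8 * gX h X (j + 1 + k) * e2 - (512 * 4096 ^ k) * e1

theorem gX_at_zero (hp5 : 5 ≤ p) {j : ℕ} (hj : j < p) : gX h 0 j = (uc j : ZMod (p ^ 3)) := by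
  unfold gX ex
  rw [Gu_zero hp5 j hj]; ring

theorem gX_prod (hp5 : 5 ≤ p) (hh : 2 * h = 1) (hn : p = 2 * n + 1) (X : ZMod (p ^ 3)) : ∀ k ≤ n,
    gX h X k * (∏ i ∈ range k, (1 + (p : ZMod (p ^ 3)) * X * iv p (i + 1))) ^ 3 =
      gX h 0 k * (∏ i ∈ range k, (1 + 2 * (p : ZMod (p ^ 3)) * X * iv p (2 * i + 1))) ^ 3 := by
  intro k
  induction k with
  | zero => intro _; rw [gX_zero hh, gX_zero hh]; simp
  | succ k ih =>
    intro hk
    have ih' := ih (by omega)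
    have e1 := gX_succ hh X (j := k) (by omega)
    have e2 := gX_succ hh 0 (j := k) (by omega)
    have u1 := mul_iv hp.out (j := k + 1) (by omega) (by omega)
    have u2 := mul_iv hp.out (j := 2 * k + 1) (by omega) (by omega)
    push_cast at u1 u2
    have hu : IsUnit (((k : ZMod (p ^ 3)) + 1) ^ 3) := by
      have := unit_cast (p := p) (k := k + 1) (by omega) (by omega)
      push_cast at this
      exact this.pow 3
    rw [prod_range_succ, prod_range_succ]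
    set D := ∏ i ∈ range k, (1 + (p : ZMod (p ^ 3)) * X * iv p (i + 1))
    set O := ∏ i ∈ range k, (1 + 2 * (p : ZMod (p ^ 3)) * X * iv p (2 * i + 1))
    have f1 : ((p : ZMod (p ^ 3)) * X + (k + 1)) = (k + 1) * (1 + p * X * iv p (k + 1)) := by
      linear_combination (-(p : ZMod (p ^ 3)) * X) * u1
    have f2 : (2 * ((p : ZMod (p ^ 3)) * X + k) + 1) = (2 * k + 1) * (1 + 2 * p * X * iv p (2 * k + 1)) := by
      linear_combination (-2 * (p : ZMod (p ^ 3)) * X) * u2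
    rw [f1, f2] at e1
    rw [mul_zero, zero_add, zero_add] at e2
    apply hu.mul_left_cancel
    linear_combination D ^ 3 * e1 + (8 * ((2 * (k : ZMod (p ^ 3)) + 1) * (1 + 2 * p * X * iv p (2 * k + 1))) ^ 3) * ih' -
      (O ^ 3 * (1 + 2 * p * X * iv p (2 * k + 1)) ^ 3) * e2

theorem prod_evenodd (f : ℕ → ZMod (p ^ 3)) (n : ℕ) :
    ∏ t ∈ range (2 * n), f t = (∏ i ∈ range n, f (2 * i)) * ∏ i ∈ range n, f (2 * i + 1) := by
  induction n with
  | zero => simp
  | succ n ih =>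
    rw [show 2 * (n + 1) = 2 * n + 1 + 1 by ring, prod_range_succ, prod_range_succ, ih, prod_range_succ, prod_range_succ]
    ring

theorem OD_one (hh : 2 * h = 1) (hp3 : 3 < p) (hn : p = 2 * n + 1) (X : ZMod (p ^ 3)) :
    (∏ i ∈ range n, (1 + 2 * (p : ZMod (p ^ 3)) * X * iv p (2 * i + 1))) * (∏ i ∈ range n, (1 + (p : ZMod (p ^ 3)) * X * iv p (i + 1))) = 1 := by
  have hP := p3_zero (p := p)
  have h1 : ∏ i ∈ range n, (1 + (p : ZMod (p ^ 3)) * X * iv p (i + 1)) = ∏ i ∈ range n, (1 + 2 * (p : ZMod (p ^ 3)) * X * iv p (2 * i + 1 + 1)) := by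
    refine prod_congr rfl fun i hi => ?_
    rw [mem_range] at hi
    have u1 := mul_iv hp.out (j := i + 1) (by omega) (by omega)
    have u2 := mul_iv hp.out (j := 2 * i + 1 + 1) (by omega) (by omega)
    push_cast at u1 u2
    have : 2 * iv p (2 * i + 1 + 1) = iv p (i + 1) := by
      linear_combination (-2 * iv p (2 * i + 1 + 1)) * u1 + (iv p (i + 1)) * u2
    linear_combination (-(p : ZMod (p ^ 3)) * X) * this
  rw [h1, ← prod_evenodd (fun t => 1 + 2 * (p : ZMod (p ^ 3)) * X * iv p (t + 1)) n, show 2 * n = n + n by ring, prod_range_add]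
  have h2 : ∏ x ∈ range n, (1 + 2 * (p : ZMod (p ^ 3)) * X * iv p (n + x + 1)) =
      ∏ x ∈ range n, (1 + 2 * (p : ZMod (p ^ 3)) * X * iv p (p - (x + 1))) := by
    rw [← prod_range_reflect]
    refine prod_congr rfl fun i hi => ?_
    rw [mem_range] at hi
    rw [show n + (n - 1 - i) + 1 = p - (i + 1) by omega]
  rw [h2, ← prod_mul_distrib]
  have h3 : ∀ m ≤ n, ∏ i ∈ range m, ((1 + 2 * (p : ZMod (p ^ 3)) * X * iv p (i + 1)) * (1 + 2 * (p : ZMod (p ^ 3)) * X * iv p (p - (i + 1)))) =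
      1 - (2 * X + 4 * X ^ 2) * ((p : ZMod (p ^ 3)) ^ 2 * H2m p m) := by
    intro m
    induction m with
    | zero => intro _; simp [H2m]
    | succ m ih =>
      intro hm
      have ih' := ih (by omega)
      have u1 := mul_iv hp.out (j := m + 1) (by omega) (by omega)
      have u2 := mul_iv hp.out (j := p - (m + 1)) (by omega) (by omega)
      rw [Nat.cast_sub (by omega)] at u2
      push_cast at u1 u2
      have hH : H2m p (m + 1) = H2m p m + iv p (m + 1) ^ 2 := by unfold H2m; rw [sum_range_succ]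
      rw [prod_range_succ, ih', hH]
      generalize H2m p m = S
      generalize iv p (m + 1) = u at *
      generalize iv p (p - (m + 1)) = v at *
      have e1 : u + v = p * (u * v) := by linear_combination (-v) * u1 - u * u2
      have e2 : (p : ZMod (p ^ 3)) ^ 2 * (u * v) = -(p ^ 2 * u ^ 2) := by
        linear_combination (p : ZMod (p ^ 3)) ^ 2 * u * e1 + u ^ 2 * v * hP
      have e3 : (1 + 2 * (p : ZMod (p ^ 3)) * X * u) * (1 + 2 * (p : ZMod (p ^ 3)) * X * v) = 1 - (2 * X + 4 * X ^ 2) * (p ^ 2 * u ^ 2) := by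
        linear_combination (2 * (p : ZMod (p ^ 3)) * X) * e1 + (2 * X + 4 * X ^ 2) * e2
      rw [e3]
      linear_combination ((2 * X + 4 * X ^ 2) ^ 2 * p * S * u ^ 2) * hP
  rw [h3 n le_rfl, P2H2 hp.out hp3 hn]
  ring

theorem D_eq (hh : 2 * h = 1) (hp3 : 3 < p) (hn : p = 2 * n + 1) {t : ZMod (p ^ 3)} (ht : (4 : ZMod (p ^ 3)) ^ n = 1 + t) (X : ZMod (p ^ 3)) :
    (∏ i ∈ range n, (1 + (p : ZMod (p ^ 3)) * X * iv p (i + 1))) = pw h t (-2 * X) := by
  obtain ⟨a1, a2, a3, a4, a5⟩ := harm_main hp.out hp3 hn t ht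
  have hP := p3_zero (p := p)
  have h1 := prod_expand (p : ZMod (p ^ 3)) hP (fun i => -(X * iv p (i + 1))) n
  have h2 := P2H2 hp.out hp3 hn
  have e1 : ∑ i ∈ range n, -(X * iv p (i + 1)) = -(X * Hm p n) := by rw [sum_neg_distrib, ← mul_sum]; rfl
  have e2 : ∑ i ∈ range n, (-(X * iv p (i + 1))) ^ 2 = X ^ 2 * H2m p n := by
    unfold H2m; rw [mul_sum]; exact sum_congr rfl fun i _ => by ring
  rw [e1, e2] at h1
  have e3 : ∏ i ∈ range n, (1 - (p : ZMod (p ^ 3)) * -(X * iv p (i + 1))) = ∏ i ∈ range n, (1 + (p : ZMod (p ^ 3)) * X * iv p (i + 1)) :=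
    prod_congr rfl fun i _ => by ring
  rw [e3] at h1
  set D := ∏ i ∈ range n, (1 + (p : ZMod (p ^ 3)) * X * iv p (i + 1))
  unfold pw
  linear_combination h * h1 + (-D + 1 - 2 * X * t) * hh + 2 * h * X * a1 + h * X ^ 2 * (p * Hm p n + (-(2 * t) + t ^ 2)) * a1 -
    h * X ^ 2 * h2 + h * X ^ 2 * (-4 + t) * a3

end Pool.Agent.H547.P3
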