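import Mathlib

set_option autoImplicit false

/-!
# Uniqueness: `∑ u(N-i) (a_i + (N-i) b_i + (N-i)² d_i) = 0` for many `N` forces `a = b = d = 0`
-/

namespace Pool.Agent.H547.P3

open Finset Polynomial

variable {A : Type*} [CommRing A]

/-- a polynomial of degree `< n` vanishing at `0, …, n-1` is zero -/
theorem eq_zero_of_roots (n : ℕ) : ∀ q : A[X], q.natDegree < n → (∀ k : ℕ, 0 < k → k < n → IsUnit (k : A)) →
    (∀ k < n, q.eval (k : A) = 0) → q = 0 := by
  induction n with
  | zero => intro q h; omega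
  | succ n ih =>
    intro q hd hu hr
    have h0 : q.eval 0 = 0 := by have := hr 0 (by omega); simpa using this
    obtain ⟨q1, rfl⟩ := (X_dvd_iff (f := q)).mpr (by rw [coeff_zero_eq_eval_zero]; exact h0) 
    rcases Nat.eq_zero_or_pos n with hn | hn
    · subst hn
      have h1 : (X * q1 : A[X]).natDegree = 0 := by omega
      have h2 := eq_C_of_natDegree_eq_zero h1
      rw [h2]
      have : (X * q1 : A[X]).coeff 0 = 0 := by simp
      rw [this, C_0]
    · have hdeg : q1.natDegree < n := by
        by_contra hc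
        push Not at hc
        have hc1 : q1.coeff q1.natDegree = (X * q1 : A[X]).coeff (q1.natDegree + 1) := by
          rw [coeff_X_mul]
        have hc2 : (X * q1 : A[X]).coeff (q1.natDegree + 1) = 0 := coeff_eq_zero_of_natDegree_lt (by omega)
        have hc3 : q1.leadingCoeff = 0 := by rw [leadingCoeff, hc1, hc2]
        have hc4 : q1 = 0 := leadingCoeff_eq_zero.mp hc3
        rw [hc4, natDegree_zero] at hc
        omega
      have hroot : ∀ k : ℕ, 0 < k → k < n + 1 → q1.eval (k : A) = 0 := by
        intro k hk hk'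
        have h := hr k hk'
        rw [eval_mul, eval_X] at h
        exact (hu k hk hk').mul_right_eq_zero.mp h
      have hz : q1.comp (X + C 1) = 0 := by
        apply ih
        · refine lt_of_le_of_lt natDegree_comp_le ?_
          have : (X + C 1 : A[X]).natDegree ≤ 1 := (natDegree_add_le _ _).trans (max_le natDegree_X_le (by simp))
          calc q1.natDegree * (X + C 1 : A[X]).natDegree ≤ q1.natDegree * 1 := Nat.mul_le_mul_left _ this
            _ < n := by omega
        · intro k hk hk'
          exact hu k hk (by omega)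
        · intro k hk
          rw [eval_comp, eval_add, eval_X, eval_C]
          have := hroot (k + 1) (by omega) (by omega)
          push_cast at this
          exact this
      have hq1 : q1 = 0 := by
        have := congrArg (fun f => f.comp (X - C 1)) hz
        simp only [comp_assoc, zero_comp] at this
        rw [show (X + C 1 : A[X]).comp (X - C 1) = X by simp, comp_X] at this
        exact this
      rw [hq1, mul_zero]

/-- the coefficient polynomial -/
noncomputable def tt (a b d : ℕ → A) (i : ℕ) : A[X] := C (a i) + C (b i) * (X - C (i : A)) + C (d i) * (X - C (i : A)) ^ 2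

noncomputable def ee (l : ℕ) : A[X] := C 8 * (C 2 * X - C (2 * (l : A) + 1)) ^ 3

noncomputable def Qf (a b d : ℕ → A) : ℕ → ℕ → A[X]
  | 0, i0 => tt a b d i0
  | r + 1, i0 => tt a b d i0 * ∏ l ∈ range (r + 1), ee (i0 + l) + (X - C (i0 : A)) ^ 3 * Qf a b d r (i0 + 1)

theorem tt_deg (a b d : ℕ → A) (i : ℕ) : (tt a b d i).natDegree ≤ 2 := by
  unfold tt
  have h1 : (X - C (i : A)).natDegree ≤ 1 := natDegree_X_sub_C_le _
  refine natDegree_add_le_of_degree_le (natDegree_add_le_of_degree_le ?_ ?_) ?_
  · simp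
  · exact (natDegree_C_mul_le _ _).trans (by omega)
  · exact (natDegree_C_mul_le _ _).trans ((natDegree_pow_le).trans (by omega))

theorem ee_deg (l : ℕ) : (ee l : A[X]).natDegree ≤ 3 := by
  unfold ee
  refine (natDegree_C_mul_le _ _).trans (natDegree_pow_le.trans ?_)
  have : (C 2 * X - C (2 * (l : A) + 1) : A[X]).natDegree ≤ 1 := by
    refine (natDegree_sub_le _ _).trans (max_le ((natDegree_C_mul_le _ _).trans natDegree_X_le) ?_)
    rw [natDegree_C]; omega
  omega

theorem prod_deg (r i0 : ℕ) : (∏ l ∈ range r, ee (i0 + l) : A[X]).natDegree ≤ 3 * r := by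
  induction r with
  | zero => simp
  | succ r ih =>
    rw [prod_range_succ]
    refine natDegree_mul_le.trans ?_
    have := ee_deg (A := A) (i0 + r)
    omega

theorem Qf_deg (a b d : ℕ → A) (r : ℕ) : ∀ i0, (Qf a b d r i0).natDegree ≤ 3 * r + 2 := by
  induction r with
  | zero => intro i0; simpa [Qf] using tt_deg a b d i0
  | succ r ih =>
    intro i0
    rw [Qf]
    refine natDegree_add_le_of_degree_le ?_ ?_
    · refine natDegree_mul_le.trans ?_
      have h1 := tt_deg a b d i0
      have h2 := prod_deg (A := A) (r + 1) i0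
      omega
    · refine natDegree_mul_le.trans ?_
      have h1 : ((X - C (i0 : A)) ^ 3).natDegree ≤ 3 := by
        refine natDegree_pow_le.trans ?_
        have : (X - C (i0 : A)).natDegree ≤ 1 := natDegree_X_sub_C_le _
        omega
      have h2 := ih (i0 + 1)
      omega

def uc (k : ℕ) : ℕ := ((2 * k).choose k) ^ 3

theorem uc_succ (k : ℕ) : (uc (k + 1) : A) * ((k : A) + 1) ^ 3 = 8 * (2 * (k : A) + 1) ^ 3 * (uc k : A) := by
  have h := Nat.succ_mul_centralBinom_succ k
  rw [Nat.centralBinom, Nat.centralBinom] at h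
  have h' := congrArg (Nat.cast : ℕ → A) h
  push_cast at h'
  unfold uc
  push_cast
  have : ((2 * (k + 1)).choose (k + 1) : A) ^ 3 * ((k : A) + 1) ^ 3 =
    (((k : A) + 1) * ((2 * (k + 1)).choose (k + 1) : A)) ^ 3 := by ring
  rw [this, h']
  ring

/-- the sum -/
noncomputable def Ss (a b d : ℕ → A) (r i0 N : ℕ) : A :=
  ∑ i ∈ range (r + 1), if i0 + i ≤ N then (uc (N - (i0 + i)) : A) * (tt a b d (i0 + i)).eval (N : A) else 0

theorem Qf_eval (a b d : ℕ → A) (r : ℕ) : ∀ i0 N, i0 ≤ N →
    (uc (N - i0) : A) * (Qf a b d r i0).eval (N : A) =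
      (∏ l ∈ range r, (ee (i0 + l) : A[X]).eval (N : A)) * Ss a b d r i0 N := by
  induction r with
  | zero =>
    intro i0 N h
    simp [Qf, Ss, h]
  | succ r ih =>
    intro i0 N h
    rw [Qf, eval_add, eval_mul, eval_mul, eval_prod, mul_add]
    have hS : Ss a b d (r + 1) i0 N = (uc (N - i0) : A) * (tt a b d i0).eval (N : A) + Ss a b d r (i0 + 1) N := by
      unfold Ss
      rw [sum_range_succ']
      simp only [add_zero]
      rw [if_pos h, add_comm]
      congr 1
      refine sum_congr rfl fun i _ => ?_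
      rw [show i0 + (i + 1) = i0 + 1 + i by omega]
    rw [hS]
    have hP : (∏ l ∈ range (r + 1), (ee (i0 + l) : A[X]).eval (N : A)) =
        (ee i0 : A[X]).eval (N : A) * ∏ l ∈ range r, (ee (i0 + 1 + l) : A[X]).eval (N : A) := by
      rw [prod_range_succ', add_zero, mul_comm]
      refine congrArg (fun x => (ee i0 : A[X]).eval (N : A) * x) (prod_congr rfl fun l _ => ?_)
      rw [show i0 + (l + 1) = i0 + 1 + l by omega]
    have key : (uc (N - i0) : A) * (((X - C (i0 : A)) ^ 3).eval (N : A) * (Qf a b d r (i0 + 1)).eval (N : A)) =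
        (∏ l ∈ range (r + 1), (ee (i0 + l) : A[X]).eval (N : A)) * Ss a b d r (i0 + 1) N := by
      rcases Nat.eq_or_lt_of_le h with h' | h'
      · subst h'
        have : Ss a b d r (i0 + 1) i0 = 0 := by
          unfold Ss
          refine sum_eq_zero fun i _ => ?_
          rw [if_neg (by omega)]
        rw [this, mul_zero]
        have : ((X - C (i0 : A)) ^ 3).eval (i0 : A) = 0 := by simp
        rw [this, zero_mul, mul_zero]
      · have h1 := ih (i0 + 1) N h'
        have h2 := uc_succ (A := A) (N - (i0 + 1))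
        rw [show N - (i0 + 1) + 1 = N - i0 by omega] at h2
        have h3 : ((N - (i0 + 1) : ℕ) : A) + 1 = (N : A) - i0 := by
          rw [Nat.cast_sub h']; push_cast; ring
        have h4 : 2 * ((N - (i0 + 1) : ℕ) : A) + 1 = 2 * (N : A) - (2 * i0 + 1) := by
          rw [Nat.cast_sub h']; push_cast; ring
        rw [h3, h4] at h2
        rw [hP, mul_assoc, ← h1]
        have h5 : (ee i0 : A[X]).eval (N : A) = 8 * (2 * (N : A) - (2 * i0 + 1)) ^ 3 := by
          simp [ee]
        have h6 : ((X - C (i0 : A)) ^ 3).eval (N : A) = ((N : A) - i0) ^ 3 := by simp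
        rw [h5, h6]
        generalize eval (N : A) (Qf a b d r (i0 + 1)) = Q0 at *
        generalize (uc (N - i0) : A) = U0 at *
        generalize (uc (N - (i0 + 1)) : A) = U1 at *
        linear_combination Q0 * h2
    rw [key]
    generalize (∏ l ∈ range (r + 1), (ee (i0 + l) : A[X]).eval (N : A)) = P0
    ring

theorem t_zero (a b d : ℕ → A) (i0 : ℕ) (E Q : A[X]) (hE : IsUnit (E.eval (i0 : A)))
    (h : tt a b d i0 * E + (X - C (i0 : A)) ^ 3 * Q = 0) : a i0 = 0 ∧ b i0 = 0 ∧ d i0 = 0 := by
  have h1 := congrArg (fun f => f.comp (X + C (i0 : A))) h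
  simp only [add_comp, mul_comp, pow_comp, sub_comp, X_comp, C_comp, zero_comp, tt, add_sub_cancel_right] at h1
  set E' := E.comp (X + C (i0 : A))
  set Q' := Q.comp (X + C (i0 : A))
  have hE' : IsUnit (E'.coeff 0) := by
    rw [coeff_zero_eq_eval_zero, eval_comp]
    simpa using hE
  have c0 := congrArg (fun f => f.coeff 0) h1
  have c1 := congrArg (fun f => f.coeff 1) h1
  have c2 := congrArg (fun f => f.coeff 2) h1
  have e : (C (a i0) + C (b i0) * X + C (d i0) * X ^ 2) * E' + X ^ 3 * Q' =
      C (a i0) * E' + C (b i0) * (X * E') + C (d i0) * (X ^ 2 * E') + X ^ 3 * Q' := by ring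
  simp only [e] at c0 c1 c2
  have x10 : (X * E').coeff 0 = 0 := by simp
  have x11 : (X * E').coeff 1 = E'.coeff 0 := coeff_X_mul _ _
  have x12 : (X * E').coeff 2 = E'.coeff 1 := coeff_X_mul _ _
  have x20 : (X ^ 2 * E').coeff 0 = 0 := by rw [coeff_X_pow_mul']; simp
  have x21 : (X ^ 2 * E').coeff 1 = 0 := by rw [coeff_X_pow_mul']; simp
  have x22 : (X ^ 2 * E').coeff 2 = E'.coeff 0 := by rw [coeff_X_pow_mul']; simp
  have x30 : (X ^ 3 * Q').coeff 0 = 0 := by rw [coeff_X_pow_mul']; simp
  have x31 : (X ^ 3 * Q').coeff 1 = 0 := by rw [coeff_X_pow_mul']; simp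
  have x32 : (X ^ 3 * Q').coeff 2 = 0 := by rw [coeff_X_pow_mul']; simp
  simp only [coeff_add, coeff_C_mul, coeff_zero, x10, x11, x12, x20, x21, x22, x30, x31, x32, mul_zero, add_zero] at c0 c1 c2
  have ha : a i0 = 0 := hE'.mul_left_eq_zero.mp c0
  rw [ha, zero_mul, zero_add] at c1 c2
  have hb : b i0 = 0 := hE'.mul_left_eq_zero.mp c1
  rw [hb, zero_mul, zero_add] at c2
  exact ⟨ha, hb, hE'.mul_left_eq_zero.mp c2⟩

theorem Qf_zero {p : ℕ} (hu : ∀ k : ℕ, 0 < k → k < p → IsUnit (k : A)) (a b d : ℕ → A) (r : ℕ) : ∀ i0, 2 * r + 1 < p →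
    2 ≤ p → Qf a b d r i0 = 0 → ∀ i, i0 ≤ i → i ≤ i0 + r → a i = 0 ∧ b i = 0 ∧ d i = 0 := by
  induction r with
  | zero =>
    intro i0 _ hp h i hi hi'
    have : i = i0 := by omega
    subst this
    refine t_zero a b d i 1 0 (by simp) ?_
    rw [Qf] at h
    simp [h]
  | succ r ih =>
    intro i0 hp hp' h i hi hi'
    rw [Qf] at h
    have h8 : IsUnit (8 : A) := by
      have h2 : IsUnit (2 : A) := by have := hu 2 (by omega) (by omega); simpa using this
      have : (8 : A) = 2 ^ 3 := by norm_num
      rw [this]; exact h2.pow 3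
    have h0 := t_zero a b d i0 _ _ (by
      rw [eval_prod]
      rw [IsUnit.prod_iff]
      intro l hl
      rw [mem_range] at hl
      have : (ee (i0 + l) : A[X]).eval (i0 : A) = 8 * (-(((2 * l + 1 : ℕ)) : A)) ^ 3 := by
        simp only [ee, eval_mul, eval_C, eval_pow, eval_sub, eval_X]
        push_cast; ring
      rw [this]
      exact h8.mul (((hu (2 * l + 1) (by omega) (by omega)).neg).pow 3)) h
    rcases Nat.eq_or_lt_of_le hi with hh | hh
    · subst hh; exact h0
    · obtain ⟨ha, hb, hd⟩ := h0
      have ht : tt a b d i0 = 0 := by simp [tt, ha, hb, hd]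
      rw [ht, zero_mul, zero_add] at h
      have hm : ((X - C (i0 : A)) ^ 3 : A[X]).Monic := (monic_X_sub_C _).pow 3
      have hq : Qf a b d r (i0 + 1) = 0 := by
        rwa [mul_comm, hm.mul_left_eq_zero_iff] at h
      exact ih (i0 + 1) (by omega) hp' hq i hh (by omega)

/-- **uniqueness** -/
theorem uniq {p : ℕ} (hu : ∀ k : ℕ, 0 < k → k < p → IsUnit (k : A)) (Cc : ℕ) (hC : 6 * Cc + 5 ≤ p) (a b d : ℕ → A)
    (h : ∀ N ≤ 3 * Cc + 2, ∑ i ∈ range (Cc + 1), (if i ≤ N then
      (uc (N - i) : A) * (a i + ((N : A) - i) * b i + ((N : A) - i) ^ 2 * d i) else 0) = 0) :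
    ∀ i ≤ Cc, a i = 0 ∧ b i = 0 ∧ d i = 0 := by
  have hunit : ∀ N ≤ 3 * Cc + 2, IsUnit (uc N : A) := by
    intro N
    induction N with
    | zero => intro _; simp [uc]
    | succ N ih =>
      intro hN
      have h1 := uc_succ (A := A) N
      have h8 : IsUnit (8 : A) := by
        have h2 : IsUnit (2 : A) := by have := hu 2 (by omega) (by omega); simpa using this
        have : (8 : A) = 2 ^ 3 := by norm_num
        rw [this]; exact h2.pow 3
      have h2 : IsUnit (8 * (2 * (N : A) + 1) ^ 3 * (uc N : A)) := by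
        refine (h8.mul (IsUnit.pow 3 ?_)).mul (ih (by omega))
        have := hu (2 * N + 1) (by omega) (by omega)
        push_cast at this
        exact this
      rw [← h1] at h2
      exact isUnit_of_mul_isUnit_left h2
  have hQ : Qf a b d Cc 0 = 0 := by
    apply eq_zero_of_roots (3 * Cc + 3)
    · exact lt_of_le_of_lt (Qf_deg a b d Cc 0) (by omega)
    · intro k hk hk'
      exact hu k hk (by omega)
    · intro N hN
      have h1 := Qf_eval a b d Cc 0 N (Nat.zero_le N)
      have h2 : Ss a b d Cc 0 N = 0 := by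
        unfold Ss
        have hN' := h N (by omega)
        refine Eq.trans (sum_congr rfl fun i _ => ?_) hN'
        rw [zero_add]
        by_cases hi : i ≤ N
        · rw [if_pos hi, if_pos hi]
          congr 1
          simp only [tt, eval_add, eval_mul, eval_C, eval_sub, eval_X, eval_pow]
          ring
        · rw [if_neg hi, if_neg hi]
      rw [h2, mul_zero, Nat.sub_zero] at h1
      exact (hunit N (by omega)).mul_right_eq_zero.mp h1
  intro i hi
  exact Qf_zero hu a b d Cc 0 (by omega) (by omega) hQ i (Nat.zero_le i) (by omega)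

end Pool.Agent.H547.P3
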