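import Pool.Agent.H547.P3.Der
import Pool.Agent.H547.P3.Uniq

set_option autoImplicit false

/-!
# The pullback identities
-/

namespace Pool.Agent.H547.P3

open Finset PowerSeries Nat

/-- coefficients of `(1-4eX)^(-(2a+1)/2)` -/
noncomputable def cc (e : ℚ) (a n : ℕ) : ℚ := e ^ n * (2 * a + 2 * n)! * a ! / ((2 * a)! * (a + n)! * n !)

theorem cc_zero (e : ℚ) (a : ℕ) : cc e a 0 = 1 := by
  unfold cc
  have h1 : ((2 * a)! : ℚ) ≠ 0 := by positivity
  have h2 : (a ! : ℚ) ≠ 0 := by positivity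
  simp only [pow_zero, mul_zero, add_zero, Nat.factorial_zero, Nat.cast_one]
  field_simp

theorem cc_succ_n (e : ℚ) (a n : ℕ) : cc e a (n + 1) * ((n : ℚ) + 1) = 2 * e * (2 * a + 2 * n + 1) * cc e a n := by
  unfold cc
  have h1 : ((2 * a)! : ℚ) ≠ 0 := by positivity
  have h2 : ((a + n)! : ℚ) ≠ 0 := by positivity
  have h3 : ((n)! : ℚ) ≠ 0 := by positivity
  have h4 : ((a : ℚ) + n + 1) ≠ 0 := by positivity
  have h5 : ((n : ℚ) + 1) ≠ 0 := by positivity
  rw [show 2 * a + 2 * (n + 1) = 2 * a + 2 * n + 1 + 1 by ring, Nat.factorial_succ, Nat.factorial_succ,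
    show a + (n + 1) = a + n + 1 by ring, Nat.factorial_succ (a + n), Nat.factorial_succ n]
  push_cast
  field_simp
  ring

theorem cc_succ_a (e : ℚ) (a n : ℕ) : cc e (a + 1) n * (2 * (a : ℚ) + 1) = (2 * a + 2 * n + 1) * cc e a n := by
  unfold cc
  have h1 : ((2 * a)! : ℚ) ≠ 0 := by positivity
  have h2 : ((a + n)! : ℚ) ≠ 0 := by positivity
  have h3 : ((n)! : ℚ) ≠ 0 := by positivity
  have h4 : ((a : ℚ) + n + 1) ≠ 0 := by positivity
  have h5 : (2 * (a : ℚ) + 1) ≠ 0 := by positivity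
  have h6 : (2 * (a : ℚ) + 1 + 1) ≠ 0 := by positivity
  rw [show 2 * (a + 1) + 2 * n = 2 * a + 2 * n + 1 + 1 by ring, Nat.factorial_succ, Nat.factorial_succ,
    show 2 * (a + 1) = 2 * a + 1 + 1 by ring, Nat.factorial_succ (2 * a + 1), Nat.factorial_succ (2 * a),
    show a + 1 + n = a + n + 1 by ring, Nat.factorial_succ (a + n), Nat.factorial_succ a]
  push_cast
  field_simp
  ring

theorem E_succ (e : ℚ) (a : ℕ) : (PowerSeries.mk (cc e (a + 1)) : ℚ⟦X⟧) * (1 - C (4 * e) * X) = PowerSeries.mk (cc e a) := by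
  ext n
  rw [mul_sub, mul_one, map_sub, coeff_mk, coeff_mk, show PowerSeries.mk (cc e (a + 1)) * (C (4 * e) * X) =
    C (4 * e) * (PowerSeries.mk (cc e (a + 1)) * X) by ring, coeff_C_mul]
  rcases n with _ | n
  · rw [coeff_zero_mul_X, cc_zero, cc_zero]; ring
  · rw [coeff_succ_mul_X, coeff_mk]
    have h1 := cc_succ_n e (a + 1) n
    have h2 := cc_succ_a e a (n + 1)
    have h5 : (2 * (a : ℚ) + 1) ≠ 0 := by positivity
    have h6 : (2 * (a : ℚ) + 2 * (n + 1) + 1) ≠ 0 := by positivity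
    push_cast at h1 h2
    apply mul_left_cancel₀ h6
    linear_combination 2 * h1 + h2

theorem E_der (e : ℚ) : (derivative ℚ (PowerSeries.mk (cc e 0))) * (1 - C (4 * e) * X) = C (2 * e) * PowerSeries.mk (cc e 0) := by
  ext n
  rw [mul_sub, mul_one, map_sub, coeff_derivative, coeff_mk, coeff_C_mul, coeff_mk,
    show derivative ℚ (PowerSeries.mk (cc e 0)) * (C (4 * e) * X) = C (4 * e) * (derivative ℚ (PowerSeries.mk (cc e 0)) * X) by ring,
    coeff_C_mul]
  have h1 := cc_succ_n e 0 n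
  push_cast at h1
  rcases n with _ | n
  · rw [coeff_zero_mul_X]
    push_cast at h1 ⊢
    linear_combination h1
  · rw [coeff_succ_mul_X, coeff_derivative, coeff_mk]
    push_cast at h1 ⊢
    linear_combination h1

theorem E_sq (e : ℚ) : (PowerSeries.mk (cc e 0) : ℚ⟦X⟧) ^ 2 * (1 - C (4 * e) * X) = 1 := by
  apply PowerSeries.derivative.ext
  · have h := E_der e
    have h2 : derivative ℚ ((1 : ℚ⟦X⟧) - C (4 * e) * X) = - C (4 * e) := by
      simp only [map_sub, Derivation.leibniz, smul_eq_mul, derivative_C, derivative_X]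
      simp
    have h3 : derivative ℚ (1 : ℚ⟦X⟧) = 0 := by simp
    rw [Derivation.leibniz, h2, h3, Derivation.leibniz_pow]
    simp only [smul_eq_mul, nsmul_eq_mul]
    have h4 : (C (4 * e) : ℚ⟦X⟧) = 2 * C (2 * e) := by
      rw [show (4 * e : ℚ) = 2 * (2 * e) by ring, map_mul, map_ofNat]
    rw [h4] at h ⊢
    push_cast
    linear_combination (2 * PowerSeries.mk (cc e 0)) * h
  · simp [cc]

theorem E_pow (e : ℚ) (a : ℕ) : (PowerSeries.mk (cc e a) : ℚ⟦X⟧) = PowerSeries.mk (cc e 0) ^ (2 * a + 1) := by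
  induction a with
  | zero => simp
  | succ a ih =>
    have h1 := E_succ e a
    have h2 := E_sq e
    rw [show 2 * (a + 1) + 1 = 2 * a + 1 + 2 by ring, pow_add, ← ih, ← h1]
    linear_combination (-(PowerSeries.mk (cc e (a + 1)))) * h2

variable {A B : Type*} [CommRing A] [CommRing B]

theorem map_Ff (ρ : A →+* B) (u : ℕ → A) (i K : ℕ) : PowerSeries.map ρ (Ff u i K) = Ff (fun k => ρ (u k)) i K := by
  unfold Ff
  rw [map_sum]
  refine sum_congr rfl fun k _ => ?_
  rw [map_mul, map_pow, PowerSeries.map_X, PowerSeries.map_C, map_mul, map_pow, map_natCast]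

theorem map_Ph (ρ : A →+* B) (m d : ℕ) (σ : A⟦X⟧) (v : ℕ → A) (i K : ℕ) :
    PowerSeries.map ρ (Ph m d σ v i K) = Ph m d (PowerSeries.map ρ σ) (fun k => ρ (v k)) i K := by
  unfold Ph
  rw [map_sum]
  refine sum_congr rfl fun k _ => ?_
  rw [map_mul (PowerSeries.map ρ) (C _) _, map_mul (PowerSeries.map ρ) _ _, map_pow (PowerSeries.map ρ), map_pow (PowerSeries.map ρ),
    PowerSeries.map_X, PowerSeries.map_C, map_mul ρ, map_pow ρ, map_natCast]

theorem coeff_Ff (u : ℕ → A) (K n : ℕ) (hn : n < K) : coeff n (Ff u 0 K) = u n := by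
  unfold Ff
  rw [map_sum, sum_eq_single n]
  · rw [pow_zero, one_mul, coeff_C_mul, coeff_X_pow_self, mul_one]
  · intro k _ hk
    rw [coeff_C_mul, coeff_X_pow, if_neg (Ne.symm hk), mul_zero]
  · intro h
    exact absurd (mem_range.mpr hn) h

theorem pull_Q (e : ℚ) (m d : ℕ) (u v : ℕ → ℚ) (K : ℕ)
    (h : ∀ N < K, ∑ k ∈ range K, (if m * k ≤ N then v k * cc e (d * k) (N - m * k) else 0) = u N) :
    X ^ K ∣ Ff u 0 K - Ph m d (PowerSeries.mk (cc e 0)) v 0 K := by
  rw [X_pow_dvd_iff]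
  intro N hN
  rw [map_sub, coeff_Ff u K N hN, ← h N hN, sub_eq_zero]
  unfold Ph
  rw [map_sum]
  refine sum_congr rfl fun k _ => ?_
  rw [pow_zero, one_mul, coeff_C_mul, show 2 * d * k + 1 = 2 * (d * k) + 1 by ring, ← E_pow, coeff_X_pow_mul', coeff_mk]
  split_ifs <;> ring

/-- the integral root -/
noncomputable def sgZ (e : ℕ) : ℤ⟦X⟧ := PowerSeries.mk fun n => (e : ℤ) ^ n * (n.centralBinom : ℤ)

theorem sgZ_map (e : ℕ) : PowerSeries.map (Int.castRingHom ℚ) (sgZ e) = PowerSeries.mk (cc (e : ℚ) 0) := by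
  ext n
  rw [PowerSeries.coeff_map, sgZ, coeff_mk, coeff_mk]
  unfold cc
  rw [Nat.centralBinom_eq_two_mul_choose, eq_intCast]
  push_cast
  rw [Nat.cast_choose ℚ (show n ≤ 2 * n by omega), show 2 * n - n = n by omega]
  simp
  ring

theorem mapZQ_inj : Function.Injective (PowerSeries.map (Int.castRingHom ℚ)) :=
  PowerSeries.map_injective _ Int.cast_injective

theorem sgZ_sq (e : ℕ) : (sgZ e) ^ 2 * (1 - C (4 * (e : ℤ)) * X) = 1 := by
  apply mapZQ_inj
  rw [map_mul, map_pow, sgZ_map, map_sub, map_one, map_mul, PowerSeries.map_C, PowerSeries.map_X]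
  have := E_sq (e : ℚ)
  rw [eq_intCast]
  push_cast
  exact this

/-- integrality: pass from `ℚ` to any ring -/
theorem pull_A (A : Type*) [CommRing A] (e m d : ℕ) (u : ℕ → ℕ) (v : ℕ → ℤ) (K : ℕ)
    (h : ∀ N < K, ∑ k ∈ range K, (if m * k ≤ N then (v k : ℚ) * cc e (d * k) (N - m * k) else 0) = (u N : ℚ)) :
    X ^ K ∣ Ff (fun k => (u k : A)) 0 K - Ph m d (PowerSeries.map (Int.castRingHom A) (sgZ e)) (fun k => (v k : A)) 0 K := by
  have h1 := pull_Q (e : ℚ) m d (fun k => (u k : ℚ)) (fun k => (v k : ℚ)) K h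
  have h2 : X ^ K ∣ Ff (fun k => (u k : ℤ)) 0 K - Ph m d (sgZ e) v 0 K := by
    rw [X_pow_dvd_iff] at h1 ⊢
    intro n hn
    have := h1 n hn
    have e1 : PowerSeries.map (Int.castRingHom ℚ) (Ff (fun k => (u k : ℤ)) 0 K - Ph m d (sgZ e) v 0 K) =
        Ff (fun k => (u k : ℚ)) 0 K - Ph m d (PowerSeries.mk (cc (e : ℚ) 0)) (fun k => (v k : ℚ)) 0 K := by
      rw [map_sub, map_Ff, map_Ph, sgZ_map]
      simp
    rw [← e1, PowerSeries.coeff_map, eq_intCast] at this
    exact_mod_cast this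
  obtain ⟨g, hg⟩ := h2
  refine ⟨PowerSeries.map (Int.castRingHom A) g, ?_⟩
  have := congrArg (PowerSeries.map (Int.castRingHom A)) hg
  rw [map_sub, map_Ff, map_Ph, map_mul, map_pow, PowerSeries.map_X] at this
  simpa using this

theorem sg_sq (A : Type*) [CommRing A] (e : ℕ) : (PowerSeries.map (Int.castRingHom A) (sgZ e)) ^ 2 *
    (1 - C (2 * ((2 * e : ℕ) : A)) * X) = 1 := by
  have := congrArg (PowerSeries.map (Int.castRingHom A)) (sgZ_sq e)
  rw [map_mul, map_pow, map_sub, map_one, map_mul, PowerSeries.map_C, PowerSeries.map_X] at this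
  rw [eq_intCast] at this
  push_cast at this ⊢
  rw [show (2 * (2 * (e : A))) = 4 * e by ring]
  exact this

theorem sg_cc (A : Type*) [CommRing A] (e : ℕ) : constantCoeff (PowerSeries.map (Int.castRingHom A) (sgZ e)) = 1 := by
  rw [← coeff_zero_eq_constantCoeff_apply, PowerSeries.coeff_map, sgZ, coeff_mk]
  simp

end Pool.Agent.H547.P3
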