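import Pool.Agent.H547.P3.D7c

set_option autoImplicit false

namespace Pool.Agent.H547.P3.R90323e

open Finset

/-- the recurrence -/
def a : ℕ → ℤ
  | 0 => 0
  | 1 => 1
  | (n + 2) => 5 * a (n + 1) - 8 * a n

/-- the sum `S(p)` -/
def S (p : ℕ) : ℚ := ∑ k ∈ range p, (a (4 * k) : ℚ) * ((2 * k).choose k : ℚ) ^ 3 / (-4096) ^ k

section

variable {p : ℕ} [hp : Fact p.Prime]

theorem a_root {r h : ZMod (p ^ 3)} (hh : 2 * h = 1) (hr : r ^ 2 = -7) (n : ℕ) :
    r * (a n : ZMod (p ^ 3)) = ((5 + r) * h) ^ n - ((5 - r) * h) ^ n ∧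
    r * (a (n + 1) : ZMod (p ^ 3)) = ((5 + r) * h) ^ (n + 1) - ((5 - r) * h) ^ (n + 1) := by
  have e1 : ((5 + r) * h) ^ 2 = 5 * ((5 + r) * h) - 8 := by
    linear_combination h ^ 2 * hr + ((9 * h + 5 * r * h) - 8) * hh
  have e2 : ((5 - r) * h) ^ 2 = 5 * ((5 - r) * h) - 8 := by
    linear_combination h ^ 2 * hr + ((9 * h - 5 * r * h) - 8) * hh
  induction n with
  | zero =>
    simp only [a]
    push_cast
    constructor
    · ring
    · linear_combination (-r) * hh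
  | succ n ih =>
    refine ⟨ih.2, ?_⟩
    rw [a]
    push_cast
    rw [pow_succ _ (n + 1), pow_succ _ (n + 1)]
    linear_combination 5 * ih.2 - 8 * ih.1 - ((5 + r) * h) ^ n * e1 + ((5 - r) * h) ^ n * e2

theorem large (hp53 : 53 ≤ p) (h : p % 7 = 1 ∨ p % 7 = 2 ∨ p % 7 = 4) {w : ZMod (p ^ 3)} (hw : (-4096) * w = 1) :
    ∑ k ∈ range p, (a (4 * k) : ZMod (p ^ 3)) * (uc k : ZMod (p ^ 3)) * w ^ k = 0 := by
  obtain ⟨r, hr⟩ := exists_sqrt_m7 (p := p) (by omega) h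
  obtain ⟨i2, hh⟩ := exists_half' (p := p) (by omega)
  obtain ⟨n, hn⟩ : ∃ n, p = 2 * n + 1 := by
    have := hp.out.odd_of_ne_two (by omega)
    obtain ⟨n, hn⟩ := this
    exact ⟨n, hn⟩
  have u3 : IsUnit (3 : ZMod (p ^ 3)) := by have := unit_cast (p := p) (k := 3) (by norm_num) (by omega); simpa using this
  have u5 : IsUnit (5 : ZMod (p ^ 3)) := by have := unit_cast (p := p) (k := 5) (by norm_num) (by omega); simpa using this
  have u7 : IsUnit (7 : ZMod (p ^ 3)) := by have := unit_cast (p := p) (k := 7) (by norm_num) (by omega); simpa using this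
  obtain ⟨i15, hi⟩ : ∃ i : ZMod (p ^ 3), 15 * i = 1 := by
    have : IsUnit (15 : ZMod (p ^ 3)) := by
      have e : (15 : ZMod (p ^ 3)) = 3 * 5 := by norm_num
      rw [e]; exact u3.mul u5
    exact ⟨_, this.mul_val_inv⟩
  have ur : IsUnit r := by
    have : IsUnit (r * r) := by
      have e : r * r = -7 := by linear_combination hr
      rw [e]; exact u7.neg
    exact isUnit_of_mul_isUnit_left this
  have e1 : ((5 + r) * i2) ^ 2 = 5 * ((5 + r) * i2) - 8 := by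
    linear_combination i2 ^ 2 * hr + ((9 * i2 + 5 * r * i2) - 8) * hh
  have e2 : ((5 - r) * i2) ^ 2 = 5 * ((5 - r) * i2) - 8 := by
    linear_combination i2 ^ 2 * hr + ((9 * i2 - 5 * r * i2) - 8) * hh
  obtain ⟨A, hA⟩ : ∃ A, A = ((5 + r) * i2) ^ 4 := ⟨_, rfl⟩
  obtain ⟨B, hB⟩ : ∃ B, B = ((5 - r) * i2) ^ 4 := ⟨_, rfl⟩
  have hA' : 2 * A = -47 + 45 * r := by
    have : A = 45 * ((5 + r) * i2) - 136 := by
      rw [hA]; linear_combination (((5 + r) * i2) ^ 2 + 5 * ((5 + r) * i2) - 8 + 25) * e1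
    rw [this]; linear_combination (45 * (5 + r)) * hh
  have hB' : 2 * B = -47 - 45 * r := by
    have : B = 45 * ((5 - r) * i2) - 136 := by
      rw [hB]; linear_combination (((5 - r) * i2) ^ 2 + 5 * ((5 - r) * i2) - 8 + 25) * e2
    rw [this]; linear_combination (45 * (5 - r)) * hh
  have hz1 : 8192 * (B * w) = 47 + 45 * r := by linear_combination (4096 * w) * hB' - (-47 - 45 * r) * hw
  have hz2 : 8192 * (A * w) = 47 - 45 * r := by linear_combination (4096 * w) * hA' - (-47 + 45 * r) * hw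
  obtain ⟨key, -⟩ := D7_core hp53 hn hh hr hz1 hz2 hi
  rw [fS_zero (by omega), fS_zero (by omega)] at key
  apply ur.mul_right_eq_zero.mp
  rw [mul_sum]
  have : ∑ k ∈ range p, r * ((a (4 * k) : ZMod (p ^ 3)) * (uc k : ZMod (p ^ 3)) * w ^ k) =
      ∑ k ∈ range p, (uc k : ZMod (p ^ 3)) * (A * w) ^ k - ∑ k ∈ range p, (uc k : ZMod (p ^ 3)) * (B * w) ^ k := by
    rw [← sum_sub_distrib]
    refine sum_congr rfl fun k _ => ?_
    have h1 := (a_root hh hr (4 * k)).1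
    rw [pow_mul, pow_mul, ← hA, ← hB] at h1
    rw [mul_pow, mul_pow]
    linear_combination ((uc k : ZMod (p ^ 3)) * w ^ k) * h1
  rw [this, key, sub_self]

end

/-- running values -/
def st : ℕ → ℤ × ℤ × ℕ × ℤ
  | 0 => (0, 45, 1, 0)
  | k + 1 => ((st k).2.1, -47 * (st k).2.1 - 4096 * (st k).1, 8 * (2 * k + 1) ^ 3 * (st k).2.2.1 / (k + 1) ^ 3,
      (st k).2.2.2 * (-4096) + (st k).1 * (st k).2.2.1)

theorem uc_div (k : ℕ) : 8 * (2 * k + 1) ^ 3 * uc k / (k + 1) ^ 3 = uc (k + 1) := by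
  have h : uc (k + 1) * (k + 1) ^ 3 = 8 * (2 * k + 1) ^ 3 * uc k := by
    have := uc_succ (A := ℤ) k
    exact_mod_cast this
  rw [← h]
  exact Nat.mul_div_cancel _ (by positivity)

theorem a_four (k : ℕ) : a (4 * (k + 2)) = -47 * a (4 * (k + 1)) - 4096 * a (4 * k) := by
  have e : ∀ n, a (n + 2) = 5 * a (n + 1) - 8 * a n := fun n => by rw [a]
  rw [show 4 * (k + 2) = 4 * k + 6 + 2 by ring, e, show 4 * k + 6 + 1 = 4 * k + 5 + 2 by ring, e,
    show 4 * k + 5 + 1 = 4 * k + 4 + 2 by ring, show 4 * k + 6 = 4 * k + 4 + 2 by ring, e,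
    show 4 * k + 4 + 1 = 4 * k + 3 + 2 by ring, show 4 * k + 5 = 4 * k + 3 + 2 by ring, e,
    show 4 * k + 3 + 1 = 4 * k + 2 + 2 by ring, show 4 * (k + 1) = 4 * k + 2 + 2 by ring, show 4 * k + 4 = 4 * k + 2 + 2 by ring, e,
    show 4 * k + 2 + 1 = 4 * k + 1 + 2 by ring, show 4 * k + 3 = 4 * k + 1 + 2 by ring, e, show 4 * k + 1 + 1 = 4 * k + 2 by ring, e]
  ring

theorem st_eq (k : ℕ) : st k = (a (4 * k), a (4 * (k + 1)), uc k, ∑ j ∈ range k, a (4 * j) * (uc j : ℤ) * (-4096) ^ (k - 1 - j)) := by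
  induction k with
  | zero =>
    rw [st]
    simp [a, uc]
  | succ k ih =>
    rw [st, ih]
    simp only [Prod.mk.injEq]
    refine ⟨trivial, ?_, uc_div k, ?_⟩
    · rw [show k + 1 + 1 = k + 2 by ring, a_four]
    · rw [sum_range_succ, sum_mul, show k + 1 - 1 - k = 0 by omega, pow_zero, mul_one]
      congr 1
      refine sum_congr rfl fun j hj => ?_
      rw [mem_range] at hj
      rw [show k + 1 - 1 - j = (k - 1 - j) + 1 by omega, pow_succ]
      ring

theorem small (p : ℕ) (h0 : 0 < p) (h : (p : ℤ) ^ 3 ∣ (st p).2.2.2) (hp2 : p.Prime) (hp3 : p ≠ 2) : ∃ u : ℚ, ¬ p ∣ u.den ∧ S p = (p : ℚ) ^ 3 * u := by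
  haveI : Fact p.Prime := ⟨hp2⟩
  apply Rep.cong
  refine ⟨(st p).2.2.2, (-4096) ^ (p - 1), ?_, ?_, ?_⟩
  · intro hd
    have h1 := (Nat.prime_iff_prime_int.mp hp2).dvd_of_dvd_pow hd
    rw [dvd_neg] at h1
    have h2 : p ∣ 2 ^ 12 := by exact_mod_cast h1
    have := (Nat.prime_dvd_prime_iff_eq hp2 Nat.prime_two).mp (hp2.dvd_of_dvd_pow h2)
    omega
  · rw [st_eq, S, sum_mul]
    push_cast
    refine sum_congr rfl fun k hk => ?_
    rw [mem_range] at hk
    rw [show p - 1 = (p - 1 - k) + k by omega, pow_add]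
    have : ((-4096 : ℚ)) ^ k ≠ 0 := by positivity
    unfold uc
    rw [show p - 1 - k + k - k = p - 1 - k by omega]
    push_cast
    field_simp
  · rw [mul_zero]
    apply (ZMod.intCast_zmod_eq_zero_iff_dvd _ _).mpr
    exact_mod_cast h

theorem main (p : ℕ) (hp : p.Prime) (hp2 : p ≠ 2) (h : p % 7 = 1 ∨ p % 7 = 2 ∨ p % 7 = 4) :
    ∃ u : ℚ, ¬ p ∣ u.den ∧ S p = (p : ℚ) ^ 3 * u := by
  by_cases hp53 : 53 ≤ p
  · haveI : Fact p.Prime := ⟨hp⟩
    have hm : ¬ (p : ℤ) ∣ -4096 := by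
      intro h1
      rw [dvd_neg] at h1
      have h2 : p ∣ 2 ^ 12 := by exact_mod_cast h1
      have := (Nat.prime_dvd_prime_iff_eq hp Nat.prime_two).mp (hp.dvd_of_dvd_pow h2)
      omega
    obtain ⟨w, hw⟩ := inv_exists hm
    apply Rep.cong
    rw [← large hp53 h (w := w) (by push_cast at hw; exact hw)]
    unfold S
    refine Rep.sum _ fun k _ => ?_
    have h1 : (a (4 * k) : ℚ) * ((2 * k).choose k : ℚ) ^ 3 / (-4096) ^ k = (a (4 * k) : ℚ) * (uc k : ℚ) * (1 / ((-4096 : ℤ) : ℚ) ^ k) := by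
      unfold uc; push_cast; ring
    rw [h1]
    exact ((Rep.int _).mul (Rep.nat _)).mul (Rep.inv hm hw k)
  · have hcase : p = 11 ∨ p = 23 ∨ p = 29 ∨ p = 37 ∨ p = 43 := by
      have : p < 53 := by omega
      interval_cases p <;> first | omega | (exfalso; revert hp; norm_num)
    rcases hcase with rfl | rfl | rfl | rfl | rfl
    · exact small 11 (by norm_num) (by decide +kernel) hp hp2
    · exact small 23 (by norm_num) (by decide +kernel) hp hp2
    · exact small 29 (by norm_num) (by decide +kernel) hp hp2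
    · exact small 37 (by norm_num) (by decide +kernel) hp hp2
    · exact small 43 (by norm_num) (by decide +kernel) hp hp2

end Pool.Agent.H547.P3.R90323e
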