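import Pool.Agent.H547.P3.D7c
import Pool.Agent.H547.P3.R90323e

set_option autoImplicit false

namespace Pool.Agent.H547.P3.Rd1f0b8

open Finset

/-- `S(p)` -/
def S (p : ℕ) : ℚ := ∑ k ∈ range ((p - 1) / 2 + 1), ((2 * k).choose k : ℚ) ^ 3

/-- `T_m(p)` -/
def T (m : ℤ) (p : ℕ) : ℚ := ∑ k ∈ range p, ((2 * k).choose k * (3 * k).choose k * (6 * k).choose (3 * k) : ℚ) / (m : ℚ) ^ (3 * k)

def Cong (p : ℕ) (x y : ℚ) : Prop := ∃ u : ℚ, ¬ p ∣ u.den ∧ x - y = (p : ℚ) ^ 3 * u

section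

variable {p : ℕ} [hp : Fact p.Prime]

theorem Cong.symm_trans {x y z : ℚ} (h1 : Cong p x y) (h2 : Cong p x z) : Cong p y z := by
  obtain ⟨u, hu, h1⟩ := h1
  obtain ⟨v, hv, h2⟩ := h2
  refine ⟨v - u, ?_, by rw [mul_sub, ← h1, ← h2]; ring⟩
  intro h
  have h3 := Rat.sub_den_dvd v u
  rcases hp.out.dvd_mul.mp (h.trans h3) with h | h
  · exact hv h
  · exact hu h

theorem half_sum (hp5 : 5 ≤ p) : ∑ k ∈ range ((p - 1) / 2 + 1), (uc k : ZMod (p ^ 3)) = ∑ k ∈ range p, (uc k : ZMod (p ^ 3)) := by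
  obtain ⟨n, hn⟩ : ∃ n, p = 2 * n + 1 := by
    have := hp.out.odd_of_ne_two (by omega)
    obtain ⟨n, hn⟩ := this
    exact ⟨n, hn⟩
  obtain ⟨h, hh⟩ := exists_half' (p := p) (by omega)
  have hr : range p = range ((n + 1) + n) := by congr 1; omega
  rw [hr, Finset.sum_range_add _ (n + 1) n, show (p - 1) / 2 = n by omega]
  have : ∑ x ∈ range n, (uc (n + 1 + x) : ZMod (p ^ 3)) = 0 := by
    refine sum_eq_zero fun x hx => ?_
    rw [mem_range] at hx
    rw [← gX_at_zero (h := h) hp5 (by omega), gX_top hh hn (by omega) 0 x (by omega)]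
  rw [this, add_zero]

theorem Rep_S (hp5 : 5 ≤ p) : Rep p (S p) (∑ k ∈ range p, (uc k : ZMod (p ^ 3))) := by
  rw [← half_sum hp5]
  unfold S
  refine Rep.sum _ fun k _ => ?_
  have : ((2 * k).choose k : ℚ) ^ 3 = (uc k : ℚ) := by unfold uc; push_cast; ring
  rw [this]
  exact Rep.nat _

theorem Rep_T {m : ℤ} (hm : ¬ (p : ℤ) ∣ m) {w : ZMod (p ^ 3)} (hw : (m : ZMod (p ^ 3)) * w = 1) :
    Rep p (T m p) (∑ k ∈ range p, (v1 k : ZMod (p ^ 3)) * (w ^ 3) ^ k) := by
  unfold T
  refine Rep.sum _ fun k _ => ?_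
  have : ((2 * k).choose k * (3 * k).choose k * (6 * k).choose (3 * k) : ℚ) / (m : ℚ) ^ (3 * k) = (v1 k : ℚ) * (1 / (m : ℚ) ^ (3 * k)) := by
    unfold v1; push_cast; ring
  rw [this, ← pow_mul]
  exact (Rep.nat _).mul (Rep.inv hm hw _)

theorem large (hp53 : 53 ≤ p) (h : p % 7 = 1 ∨ p % 7 = 2 ∨ p % 7 = 4) :
    Cong p (S p) (legendreSym p (-15) * T (-15) p) ∧ Cong p (S p) (legendreSym p (-255) * T 255 p) := by
  obtain ⟨r, hr⟩ := exists_sqrt_m7 (p := p) (by omega) h
  obtain ⟨i2, hh⟩ := exists_half' (p := p) (by omega)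
  obtain ⟨n, hn⟩ : ∃ n, p = 2 * n + 1 := by
    have := hp.out.odd_of_ne_two (by omega)
    obtain ⟨n, hn⟩ := this
    exact ⟨n, hn⟩
  have u3 : IsUnit (3 : ZMod (p ^ 3)) := by have := unit_cast (p := p) (k := 3) (by norm_num) (by omega); simpa using this
  have n15 : ¬ (p : ℤ) ∣ -15 := by
    intro h1
    rw [dvd_neg] at h1
    have h2 : p ∣ 3 * 5 := by exact_mod_cast h1
    rcases hp.out.dvd_mul.mp h2 with h3 | h3
    · have := Nat.le_of_dvd (by norm_num) h3; omega
    · have := Nat.le_of_dvd (by norm_num) h3; omega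
  have n255 : ¬ (p : ℤ) ∣ 255 := by
    intro h1
    have h2 : p ∣ 3 * (5 * 17) := by exact_mod_cast h1
    rcases hp.out.dvd_mul.mp h2 with h3 | h3
    · have := Nat.le_of_dvd (by norm_num) h3; omega
    · rcases hp.out.dvd_mul.mp h3 with h3 | h3
      · have := Nat.le_of_dvd (by norm_num) h3; omega
      · have := Nat.le_of_dvd (by norm_num) h3; omega
  obtain ⟨w15, hw15⟩ := inv_exists n15
  obtain ⟨w255, hw255⟩ := inv_exists n255
  push_cast at hw15 hw255
  obtain ⟨w81, hw81⟩ : ∃ w : ZMod (p ^ 3), 81 * w = 1 := by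
    have : IsUnit (81 : ZMod (p ^ 3)) := by
      have e : (81 : ZMod (p ^ 3)) = 3 ^ 4 := by norm_num
      rw [e]; exact u3.pow 4
    exact ⟨_, this.mul_val_inv⟩
  obtain ⟨⟨x, hx, rx, kx⟩, ⟨y, hy, ry, ky⟩, -⟩ := D7_more (i15 := -w15) (i255 := w255) hp53 hn hh hr
    (z1 := (47 + 45 * r) * i2 ^ 13) (z2 := (47 - 45 * r) * i2 ^ 13)
    (by have : (2 * i2) ^ 13 = 1 := by rw [hh, one_pow]
        linear_combination (47 + 45 * r) * this)
    (by have : (2 * i2) ^ 13 = 1 := by rw [hh, one_pow]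
        linear_combination (47 - 45 * r) * this)
    (by linear_combination hw15) hw255 hw81
  have e15 : x = ((legendreSym p (-15) : ℤ) : ZMod (p ^ 3)) := by
    apply leg_sq_one (by omega) hn hx
    push_cast; exact rx
  have e255 : y = ((legendreSym p (-255) : ℤ) : ZMod (p ^ 3)) := by
    apply leg_sq_one (by omega) hn hy
    push_cast; exact ry
  rw [fS_zero (by omega), fT1_zero (by omega)] at kx ky
  simp only [one_pow, mul_one] at kx ky
  have ew : -(-w15) ^ 3 = w15 ^ 3 := by ring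
  rw [ew, e15] at kx
  rw [e255] at ky
  constructor
  · exact Rep.congr (Rep_S (by omega)) ((Rep.int _).mul (Rep_T n15 (by push_cast; exact hw15))) kx
  · exact Rep.congr (Rep_S (by omega)) ((Rep.int _).mul (Rep_T n255 (by push_cast; exact hw255))) ky

end

/-! ### small primes -/

def su : ℕ → ℕ × ℕ
  | 0 => (1, 0)
  | k + 1 => (8 * (2 * k + 1) ^ 3 * (su k).1 / (k + 1) ^ 3, (su k).2 + (su k).1)

def sa (m : ℤ) : ℕ → ℕ × ℤ
  | 0 => (1, 0)
  | k + 1 => (24 * (6 * k + 1) * (2 * k + 1) * (6 * k + 5) * (sa m k).1 / (k + 1) ^ 3, (sa m k).2 * m ^ 3 + (sa m k).1)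

theorem su_eq (k : ℕ) : su k = (uc k, ∑ j ∈ range k, uc j) := by
  induction k with
  | zero => simp [su, uc]
  | succ k ih =>
    rw [su, ih]
    simp only [Prod.mk.injEq]
    exact ⟨R90323e.uc_div k, by rw [sum_range_succ]⟩

theorem v1_div (k : ℕ) : 24 * (6 * k + 1) * (2 * k + 1) * (6 * k + 5) * v1 k / (k + 1) ^ 3 = v1 (k + 1) := by
  have h : v1 (k + 1) * (k + 1) ^ 3 = 24 * (6 * k + 1) * (2 * k + 1) * (6 * k + 5) * v1 k := by
    have := v1_recQ k
    exact_mod_cast this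
  rw [← h]
  exact Nat.mul_div_cancel _ (by positivity)

theorem sa_eq (m : ℤ) (k : ℕ) : sa m k = (v1 k, ∑ j ∈ range k, (v1 j : ℤ) * m ^ (3 * (k - 1 - j))) := by
  induction k with
  | zero => simp [sa, v1]
  | succ k ih =>
    rw [sa, ih]
    simp only [Prod.mk.injEq]
    refine ⟨v1_div k, ?_⟩
    rw [sum_range_succ, sum_mul, show k + 1 - 1 - k = 0 by omega, mul_zero, pow_zero, mul_one]
    congr 1
    refine sum_congr rfl fun j hj => ?_
    rw [mem_range] at hj
    rw [show 3 * (k + 1 - 1 - j) = 3 * (k - 1 - j) + 3 by omega, pow_add]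
    ring

theorem small (p : ℕ) (hp : p.Prime) (m e : ℤ) (hm : ¬ (p : ℤ) ∣ m)
    (h : (p : ℤ) ^ 3 ∣ ((su ((p - 1) / 2 + 1)).2 : ℤ) * m ^ (3 * (p - 1)) - e * (sa m p).2) : Cong p (S p) (e * T m p) := by
  have : Fact p.Prime := ⟨hp⟩
  have hm0 : (m : ℚ) ≠ 0 := by
    intro h
    have : m = 0 := by exact_mod_cast h
    exact hm (this ▸ dvd_zero _)
  apply Rep.cong
  refine ⟨((su ((p - 1) / 2 + 1)).2 : ℤ) * m ^ (3 * (p - 1)) - e * (sa m p).2, m ^ (3 * (p - 1)), ?_, ?_, ?_⟩
  · intro h; exact hm ((Nat.prime_iff_prime_int.mp hp).dvd_of_dvd_pow h)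
  · rw [su_eq, sa_eq, S, T, sub_mul]
    push_cast
    have e1 : ∑ k ∈ range ((p - 1) / 2 + 1), ((2 * k).choose k : ℚ) ^ 3 = ∑ k ∈ range ((p - 1) / 2 + 1), (uc k : ℚ) :=
      sum_congr rfl fun k _ => by unfold uc; push_cast; ring
    rw [e1]
    have e2 : (∑ k ∈ range p, ((2 * k).choose k * (3 * k).choose k * (6 * k).choose (3 * k) : ℚ) / (m : ℚ) ^ (3 * k)) * (m : ℚ) ^ (3 * (p - 1)) =
        ∑ j ∈ range p, (v1 j : ℚ) * (m : ℚ) ^ (3 * (p - 1 - j)) := by
      rw [sum_mul]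
      refine sum_congr rfl fun k hk => ?_
      rw [mem_range] at hk
      rw [show 3 * (p - 1) = 3 * (p - 1 - k) + 3 * k by omega, pow_add]
      unfold v1
      push_cast
      field_simp
    rw [mul_assoc, e2]
  · rw [mul_zero]
    apply (ZMod.intCast_zmod_eq_zero_iff_dvd _ _).mpr
    exact_mod_cast h

theorem main (p : ℕ) [hp : Fact p.Prime] (hp3 : 3 < p) (h : p % 7 = 1 ∨ p % 7 = 2 ∨ p % 7 = 4) :
    Cong p (S p) (legendreSym p (-15) * T (-15) p) ∧
    Cong p (legendreSym p (-15) * T (-15) p) (legendreSym p (-255) * T 255 p) := by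
  have key : Cong p (S p) (legendreSym p (-15) * T (-15) p) ∧ Cong p (S p) (legendreSym p (-255) * T 255 p) := by
    by_cases hp53 : 53 ≤ p
    · exact large hp53 h
    · have hcase : p = 11 ∨ p = 23 ∨ p = 29 ∨ p = 37 ∨ p = 43 := by
        have h0 := hp.out
        clear hp
        have : p < 53 := by omega
        interval_cases p <;> first | omega | (exfalso; revert h0; norm_num)
      rcases hcase with rfl | rfl | rfl | rfl | rfl
      · have e1 : legendreSym 11 (-15) = -1 := by norm_num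
        have e2 : legendreSym 11 (-255) = 1 := by norm_num
        rw [e1, e2]
        exact ⟨small 11 hp.out (-15) (-1) (by norm_num) (by decide +kernel), small 11 hp.out 255 (1) (by norm_num) (by decide +kernel)⟩
      · have e1 : legendreSym 23 (-15) = 1 := by norm_num
        have e2 : legendreSym 23 (-255) = -1 := by norm_num
        rw [e1, e2]
        exact ⟨small 23 hp.out (-15) (1) (by norm_num) (by decide +kernel), small 23 hp.out 255 (-1) (by norm_num) (by decide +kernel)⟩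
      · have e1 : legendreSym 29 (-15) = -1 := by norm_num
        have e2 : legendreSym 29 (-255) = 1 := by norm_num
        rw [e1, e2]
        exact ⟨small 29 hp.out (-15) (-1) (by norm_num) (by decide +kernel), small 29 hp.out 255 (1) (by norm_num) (by decide +kernel)⟩
      · have e1 : legendreSym 37 (-15) = -1 := by norm_num
        have e2 : legendreSym 37 (-255) = 1 := by norm_num
        rw [e1, e2]
        exact ⟨small 37 hp.out (-15) (-1) (by norm_num) (by decide +kernel), small 37 hp.out 255 (1) (by norm_num) (by decide +kernel)⟩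
      · have e1 : legendreSym 43 (-15) = -1 := by norm_num
        have e2 : legendreSym 43 (-255) = -1 := by norm_num
        rw [e1, e2]
        exact ⟨small 43 hp.out (-15) (-1) (by norm_num) (by decide +kernel), small 43 hp.out 255 (-1) (by norm_num) (by decide +kernel)⟩
  exact ⟨key.1, key.1.symm_trans key.2⟩

end Pool.Agent.H547.P3.Rd1f0b8
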