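import Pool.Agent.H547.P3.QP
import Pool.Agent.H547.P3.Der

set_option autoImplicit false

/-!
# The pullback identity at the level of `p`-blocks
-/

namespace Pool.Agent.H547.P3

open Finset Polynomial

variable {A : Type*} [CommRing A] {p : ℕ} [hp : Fact p.Prime]

theorem sum_blocks {R : Type*} [AddCommMonoid R] (p K : ℕ) (f : ℕ → R) :
    ∑ k ∈ range (p * K), f k = ∑ κ ∈ range K, ∑ j ∈ range p, f (p * κ + j) := by
  induction K with
  | zero => simp
  | succ K ih =>
    rw [Nat.mul_succ, sum_range_succ, ← ih, Finset.sum_range_add]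

theorem cast_pow_p (n : ℕ) : ∃ r : A, (n : A) ^ p = n + p * r := by
  have h2 : ∃ q : ℤ, (n : ℤ) ^ p - n = p * q := by
    have h1 : ((((n : ℤ) ^ p - n : ℤ)) : ZMod p) = 0 := by
      push_cast
      rw [ZMod.pow_card, sub_self]
    exact (ZMod.intCast_zmod_eq_zero_iff_dvd _ p).mp (by exact_mod_cast h1)
  obtain ⟨q, hq⟩ := h2
  refine ⟨(q : A), ?_⟩
  have := congrArg (Int.cast : ℤ → A) hq
  push_cast at this
  linear_combination this

/-- `1 - b z₀ X^p - (1 - b z₀ X)^p` is divisible by `p` -/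
theorem exists_N1 (hodd : Odd p) {z0 ν : A} (hz : z0 ^ (p - 1) = 1 + p * ν) (b : ℕ) {S : Type*} [CommRing S] (ι : A →+* S) (x : S) :
    ∃ N1 : S, (1 - ι (b * z0) * x ^ p) - (1 - ι (b * z0) * x) ^ p = p * N1 := by
  obtain ⟨r, hr⟩ := exists_add_pow_prime_eq hp.out (1 : S) (-(ι (b * z0) * x))
  obtain ⟨t, ht⟩ := cast_pow_p (A := A) (p := p) b
  have hzp : z0 ^ p = z0 + p * (ν * z0) := by
    have : z0 ^ p = z0 ^ (p - 1) * z0 := by
      rw [← pow_succ, Nat.sub_add_cancel hp.out.one_le]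
    rw [this, hz]; ring
  have hb : ((b : A) * z0) ^ p = b * z0 + p * (b * ν * z0 + t * z0 + p * t * ν * z0) := by
    rw [mul_pow, ht, hzp]; ring
  have hb' := congrArg ι hb
  rw [map_pow, map_add, map_mul ι (p : A), map_natCast] at hb'
  refine ⟨x ^ p * ι (b * ν * z0 + t * z0 + p * t * ν * z0) + (ι (b * z0) * x) * r, ?_⟩
  have e1 : (1 - ι (b * z0) * x) = 1 + -(ι (b * z0) * x) := by ring
  rw [e1, hr, hodd.neg_pow, mul_pow, one_pow, hb']
  ring

end Pool.Agent.H547.P3
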