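import Pool.Agent.H547.P3.S1

set_option autoImplicit false

/-!
# The square root and the term identity
-/

namespace Pool.Agent.H547.P3

open Finset

/-- general facts in a commutative ring -/
theorem term_eq {R : Type*} [CommRing R] {p q : ℕ} (hq : p = 2 * q + 1) {s S e l z T V : R}
    (hsl : s ^ 2 * l = 1) (hsp : s ^ p = S * e) (hz : z ^ p = V * T) (m d κ j : ℕ) (hj : j < p) :
    l ^ (d * (p - 1) + 2 * p) * (z ^ (m * (p * κ + j)) * s ^ (2 * d * (p * κ + j) + 1)) =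
      (T ^ (m * κ) * S ^ (2 * d * κ + 1)) *
        (V ^ (m * κ) * z ^ (m * j) * l ^ q * (e ^ (2 * (d * κ) + 1) * l ^ (2 * p)) * l ^ (d * (p - 1 - j))) := by
  have h1 : z ^ (m * (p * κ + j)) = V ^ (m * κ) * T ^ (m * κ) * z ^ (m * j) := by
    rw [show m * (p * κ + j) = p * (m * κ) + m * j by ring, pow_add, pow_mul, hz, mul_pow]
  have h2 : s ^ (2 * d * (p * κ + j) + 1) = s ^ (2 * d * (p * κ + j) + 1) * (s ^ 2 * l) ^ q := by
    rw [hsl, one_pow, mul_one]
  have h3 : s ^ (2 * d * (p * κ + j) + 1) * (s ^ 2 * l) ^ q = (S ^ (2 * d * κ + 1) * e ^ (2 * d * κ + 1)) *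
      (s ^ (2 * (d * j)) * l ^ q) := by
    rw [← mul_pow, ← hsp, ← pow_mul, mul_pow, ← pow_mul, ← mul_assoc, ← mul_assoc, ← pow_add, ← pow_add]
    congr 2
    rw [hq]; ring
  have h4 : l ^ (d * (p - 1) + 2 * p) = l ^ (d * j) * l ^ (d * (p - 1 - j)) * l ^ (2 * p) := by
    rw [← pow_add, ← pow_add, ← mul_add]
    congr 3
    omega
  have h5 : s ^ (2 * (d * j)) * l ^ (d * j) = 1 := by
    rw [pow_mul, ← mul_pow, hsl, one_pow]
  rw [h1, h2, h3, h4, show 2 * (d * κ) = 2 * d * κ by ring]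
  linear_combination (V ^ (m * κ) * T ^ (m * κ) * z ^ (m * j) * (S ^ (2 * d * κ + 1) * e ^ (2 * d * κ + 1)) * l ^ q *
    l ^ (d * (p - 1 - j)) * l ^ (2 * p)) * h5

open PowerSeries

variable {A : Type*} [CommRing A]

/-- `s^p = S e` -/
theorem root_pow {p : ℕ} {h : A} (hh : 2 * h = 1) {s S l L N g : A⟦X⟧}
    (hs : s ^ 2 * l = 1) (hS : S ^ 2 * L = 1) (hsc : constantCoeff s = 1) (hSc : constantCoeff S = 1)
    (hN : L - l ^ p = N) (hN3 : N ^ 3 = 0) (hgc : constantCoeff N = 0) (hg : g = N * s ^ (2 * p)) :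
    s ^ p = S * (1 + C h * g - C h ^ 3 * g ^ 2) ∧ g * l ^ p = N ∧ g ^ 3 = 0 := by
  have hl : s ^ (2 * p) * l ^ p = 1 := by rw [pow_mul, ← mul_pow, hs, one_pow]
  have h1 : g * l ^ p = N := by rw [hg, mul_assoc, hl, mul_one]
  have h3 : g ^ 3 = 0 := by rw [hg, mul_pow, hN3, zero_mul]
  have hC : (2 : A⟦X⟧) * C h = 1 := by
    have := congrArg (C (R := A)) hh
    rwa [map_mul, map_one, map_ofNat] at this
  refine ⟨?_, h1, h3⟩
  set e := 1 + C h * g - C h ^ 3 * g ^ 2 with he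
  have he2 : e ^ 2 = 1 + g := sqrt_sq h3 hC
  have h4 : (s ^ p) ^ 2 = (S * e) ^ 2 := by
    have h5 : (S * e) ^ 2 * l ^ p = 1 := by
      rw [mul_pow, he2]
      linear_combination hS - S ^ 2 * hN + S ^ 2 * h1
    have h6 : (s ^ p) ^ 2 * l ^ p = 1 := by rw [← pow_mul, mul_comm p 2, hl]
    linear_combination (s ^ (2 * p)) * h6 - (s ^ (2 * p)) * h5 + ((S * e) ^ 2 - (s ^ p) ^ 2) * hl
  have h5 : (s ^ p - S * e) * (s ^ p + S * e) = 0 := by linear_combination h4
  have hu : IsUnit (s ^ p + S * e) := by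
    rw [isUnit_iff_constantCoeff]
    have hgc' : constantCoeff g = 0 := by rw [hg, map_mul, hgc, zero_mul]
    have : constantCoeff (s ^ p + S * e) = 2 := by
      rw [map_add, map_pow, hsc, map_mul, hSc, he, map_sub, map_add, map_mul, map_mul, map_pow, map_pow, hgc']
      norm_num
    rw [this]
    exact IsUnit.of_mul_eq_one h hh
  have := hu.mul_left_eq_zero.mp h5
  linear_combination this

end Pool.Agent.H547.P3
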