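import Pool.Agent.H547.P3.S2

set_option autoImplicit false

/-!
# The block relation modulo `X^(pK)`
-/

namespace Pool.Agent.H547.P3

open Finset Polynomial

variable {A : Type*} [CommRing A]

noncomputable def lp (b : ℕ) (z0 : A) : A[X] := 1 - C ((b : A) * z0) * X
noncomputable def Lp (p b : ℕ) (z0 : A) : A[X] := 1 - C ((b : A) * z0) * X ^ p
noncomputable def ehat (p d b : ℕ) (z0 h : A) (κ : ℕ) : A[X] :=
  lp b z0 ^ (2 * p) + C ((d : A) * κ + h) * (Lp p b z0 - lp b z0 ^ p) * lp b z0 ^ p +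
    C (h * ((d : A) * κ) ^ 2 - h ^ 3) * (Lp p b z0 - lp b z0 ^ p) ^ 2

/-- the `T`-side polynomial -/
noncomputable def Tp (p q m d b : ℕ) (z0 h : A) (H : ℕ → ℕ → A) (κ : ℕ) : A[X] :=
  ∑ j ∈ range p, C ((z0 ^ (p - 1)) ^ (m * κ) * H j κ * z0 ^ (m * j)) *
    (X ^ (m * j) * lp b z0 ^ q * ehat p d b z0 h κ * lp b z0 ^ (d * (p - 1 - j)))

/-- the `S`-side polynomial -/
noncomputable def Sp (p : ℕ) (z0 : A) (G : ℕ → ℕ → A) (κ : ℕ) : A[X] :=
  ∑ j ∈ range p, C ((z0 ^ (p - 1)) ^ κ * G j κ * z0 ^ j) * X ^ j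

variable {p : ℕ} [hp : Fact p.Prime]

/-- `X ↦ z₀ X` -/
noncomputable def fZ (z0 : A) : PowerSeries A →+* PowerSeries A := PowerSeries.rescale z0

/-- `X ↦ z₀ X^p` -/
noncomputable def fT (p : ℕ) [hp : Fact p.Prime] (z0 : A) : PowerSeries A →+* PowerSeries A :=
  ((PowerSeries.expand p hp.out.ne_zero : PowerSeries A →ₐ[A] PowerSeries A) : PowerSeries A →+* PowerSeries A).comp
    (PowerSeries.rescale z0)

theorem fZ_X (z0 : A) : fZ z0 PowerSeries.X = PowerSeries.C z0 * PowerSeries.X := PowerSeries.rescale_X z0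

theorem rescale_C' (z0 a : A) : PowerSeries.rescale z0 (PowerSeries.C a) = PowerSeries.C a := by
  ext n
  rw [PowerSeries.coeff_rescale, PowerSeries.coeff_C]
  split_ifs with h
  · rw [h, pow_zero, one_mul]
  · rw [mul_zero]

theorem fZ_C (z0 a : A) : fZ z0 (PowerSeries.C a) = PowerSeries.C a := rescale_C' z0 a

theorem fT_C (z0 a : A) : fT p z0 (PowerSeries.C a) = PowerSeries.C a := by
  unfold fT
  rw [RingHom.comp_apply, rescale_C']
  exact PowerSeries.expand_C p hp.out.ne_zero a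

theorem fT_X (z0 : A) : fT p z0 PowerSeries.X = PowerSeries.C z0 * PowerSeries.X ^ p := by
  unfold fT
  rw [RingHom.comp_apply, PowerSeries.rescale_X, map_mul]
  have h1 := PowerSeries.expand_C p hp.out.ne_zero z0
  have h2 : (PowerSeries.expand p hp.out.ne_zero : PowerSeries A →ₐ[A] PowerSeries A) PowerSeries.X = PowerSeries.X ^ p :=
    PowerSeries.expand_X p hp.out.ne_zero
  change (PowerSeries.expand p hp.out.ne_zero) (PowerSeries.C z0) * (PowerSeries.expand p hp.out.ne_zero) PowerSeries.X = _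
  rw [h1, h2]

theorem fZ_cc (z0 : A) (f : PowerSeries A) : PowerSeries.constantCoeff (fZ z0 f) = PowerSeries.constantCoeff f := by
  unfold fZ
  rw [← PowerSeries.coeff_zero_eq_constantCoeff_apply, PowerSeries.coeff_rescale, pow_zero, one_mul,
    PowerSeries.coeff_zero_eq_constantCoeff_apply]

theorem fT_cc (z0 : A) (f : PowerSeries A) : PowerSeries.constantCoeff (fT p z0 f) = PowerSeries.constantCoeff f := by
  unfold fT
  rw [RingHom.comp_apply]
  have := PowerSeries.constantCoeff_expand p hp.out.ne_zero (PowerSeries.rescale z0 f)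
  refine Eq.trans this ?_
  exact fZ_cc z0 f

theorem fZ_dvd (z0 : A) {K : ℕ} {f : PowerSeries A} (h : PowerSeries.X ^ K ∣ f) : PowerSeries.X ^ K ∣ fZ z0 f := by
  obtain ⟨g, rfl⟩ := h
  rw [map_mul, map_pow, fZ_X, mul_pow]
  exact ⟨PowerSeries.C z0 ^ K * fZ z0 g, by ring⟩

theorem fT_dvd (z0 : A) {K : ℕ} {f : PowerSeries A} (h : PowerSeries.X ^ K ∣ f) : PowerSeries.X ^ (p * K) ∣ fT p z0 f := by
  obtain ⟨g, rfl⟩ := h
  rw [map_mul, map_pow, fT_X, mul_pow, ← pow_mul]
  exact ⟨PowerSeries.C z0 ^ K * fT p z0 g, by ring⟩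

theorem coe_sum' {ι : Type*} (s : Finset ι) (f : ι → A[X]) :
    ((∑ i ∈ s, f i : A[X]) : PowerSeries A) = ∑ i ∈ s, (f i : PowerSeries A) :=
  map_sum (Polynomial.coeToPowerSeries.ringHom (R := A)) f s

section rel

variable {q m d b : ℕ} {z0 ν h : A} {σ : PowerSeries A} {u v : ℕ → A} {G H : ℕ → ℕ → A}

theorem fT_Ph (m d : ℕ) (σ : PowerSeries A) (v : ℕ → A) (i K : ℕ) (z0 : A) : fT p z0 (Ph m d σ v i K) =
    ∑ k ∈ range K, PowerSeries.C ((k : A) ^ i * v k) *
      ((PowerSeries.C z0 * PowerSeries.X ^ p) ^ (m * k) * (fT p z0 σ) ^ (2 * d * k + 1)) := by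
  unfold Ph
  rw [map_sum]
  refine sum_congr rfl fun k _ => ?_
  rw [map_mul (fT p z0) (PowerSeries.C _) _, fT_C, map_mul (fT p z0) _ _, map_pow (fT p z0), map_pow (fT p z0), fT_X]

theorem fT_Ff (u : ℕ → A) (i K : ℕ) (z0 : A) : fT p z0 (Ff u i K) =
    ∑ k ∈ range K, PowerSeries.C ((k : A) ^ i * u k) * (PowerSeries.C z0 * PowerSeries.X ^ p) ^ k := by
  unfold Ff
  rw [map_sum]
  refine sum_congr rfl fun k _ => ?_
  rw [map_mul (fT p z0) (PowerSeries.C _) _, fT_C, map_pow (fT p z0), fT_X]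

theorem fZ_Ff (hu : ∀ κ j, j < p → u (p * κ + j) = u κ * G j κ) (K : ℕ) : fZ z0 (Ff u 0 (p * K)) =
    ∑ κ ∈ range K, PowerSeries.C (u κ) * (PowerSeries.C z0 * PowerSeries.X ^ p) ^ κ * (Sp p z0 G κ : PowerSeries A) := by
  unfold Ff
  rw [map_sum, sum_blocks]
  refine sum_congr rfl fun κ _ => ?_
  unfold Sp
  rw [coe_sum', mul_sum]
  refine sum_congr rfl fun j hj => ?_
  rw [mem_range] at hj
  rw [map_mul (fZ z0) (PowerSeries.C _) _, fZ_C, map_pow (fZ z0), fZ_X, hu κ j hj, pow_zero, one_mul]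
  rw [Polynomial.coe_mul, Polynomial.coe_C, Polynomial.coe_pow, Polynomial.coe_X]
  have hz : z0 ^ p = z0 ^ (p - 1) * z0 := by rw [← pow_succ, Nat.sub_add_cancel hp.out.one_le]
  rw [mul_pow, mul_pow, ← pow_mul, pow_add, pow_add, pow_mul (PowerSeries.C z0 : PowerSeries A) p κ]
  simp only [map_mul, map_pow]
  rw [← map_pow PowerSeries.C z0 p, hz, map_mul, mul_pow, map_pow]
  ring

theorem fZ_Ph (hq : p = 2 * q + 1) (hp3 : (p : A) ^ 3 = 0) (hh : 2 * h = 1) (hz : z0 ^ (p - 1) = 1 + p * ν)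
    (hs : σ ^ 2 * (1 - PowerSeries.C (b : A) * PowerSeries.X) = 1) (hsc : PowerSeries.constantCoeff σ = 1)
    (hv : ∀ κ j, j < p → v (p * κ + j) = v κ * H j κ) (K : ℕ) :
    ((lp b z0 : A[X]) : PowerSeries A) ^ (d * (p - 1) + 2 * p) * fZ z0 (Ph m d σ v 0 (p * K)) =
    ∑ κ ∈ range K, PowerSeries.C (v κ) * ((PowerSeries.C z0 * PowerSeries.X ^ p) ^ (m * κ) *
      (fT p z0 σ) ^ (2 * d * κ + 1)) * (Tp p q m d b z0 h H κ : PowerSeries A) := by
  obtain ⟨N1, hN1⟩ := exists_N1 (p := p) ⟨q, hq⟩ hz b PowerSeries.C (PowerSeries.X : PowerSeries A)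
  have el : ((lp b z0 : A[X]) : PowerSeries A) = 1 - PowerSeries.C ((b : A) * z0) * PowerSeries.X := by
    unfold lp
    rw [Polynomial.coe_sub, Polynomial.coe_one, Polynomial.coe_mul, Polynomial.coe_C, Polynomial.coe_X]
  have eL : ((Lp p b z0 : A[X]) : PowerSeries A) = 1 - PowerSeries.C ((b : A) * z0) * PowerSeries.X ^ p := by
    unfold Lp
    rw [Polynomial.coe_sub, Polynomial.coe_one, Polynomial.coe_mul, Polynomial.coe_C, Polynomial.coe_pow, Polynomial.coe_X]
  set s := fZ z0 σ with hsdef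
  set S := fT p z0 σ with hSdef
  set l : PowerSeries A := ((lp b z0 : A[X]) : PowerSeries A) with hl
  set L : PowerSeries A := ((Lp p b z0 : A[X]) : PowerSeries A) with hL
  have hsl : s ^ 2 * l = 1 := by
    have := congrArg (fZ z0) hs
    rw [map_mul, map_pow, map_sub, map_one, map_mul, fZ_C, fZ_X, ← mul_assoc, ← map_mul] at this
    rw [el]; exact this
  have hSL : S ^ 2 * L = 1 := by
    have := congrArg (fT p z0) hs
    rw [map_mul, map_pow, map_sub, map_one, map_mul, fT_C, fT_X, ← mul_assoc, ← map_mul] at this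
    rw [eL]; exact this
  have hN : L - l ^ p = (p : PowerSeries A) * N1 := by rw [eL, el]; exact hN1
  have hP3 : ((p : PowerSeries A)) ^ 3 = 0 := by
    have := congrArg (PowerSeries.C (R := A)) hp3
    rwa [map_pow, map_natCast, map_zero] at this
  have hN3 : (L - l ^ p) ^ 3 = 0 := by rw [hN, mul_pow, hP3, zero_mul]
  have hNc : PowerSeries.constantCoeff (L - l ^ p) = 0 := by
    rw [eL, el]
    simp [hp.out.ne_zero]
  obtain ⟨h1, h2, h3⟩ := root_pow (p := p) hh hsl hSL (by rw [hsdef, fZ_cc, hsc]) (by rw [hSdef, fT_cc, hsc]) rfl hN3 hNc rfl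
  set g := (L - l ^ p) * s ^ (2 * p) with hg
  set e := 1 + PowerSeries.C h * g - PowerSeries.C h ^ 3 * g ^ 2 with he
  have hC : (2 : PowerSeries A) * PowerSeries.C h = 1 := by
    have := congrArg (PowerSeries.C (R := A)) hh
    rwa [map_mul, map_one, map_ofNat] at this
  have hehat : ∀ κ : ℕ, e ^ (2 * (d * κ) + 1) * l ^ (2 * p) = ((ehat p d b z0 h κ : A[X]) : PowerSeries A) := by
    intro κ
    rw [he, sqrt_pow h3 hC]
    unfold ehat
    rw [Polynomial.coe_add, Polynomial.coe_add, Polynomial.coe_mul, Polynomial.coe_mul, Polynomial.coe_mul,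
      Polynomial.coe_pow, Polynomial.coe_pow, Polynomial.coe_pow, Polynomial.coe_sub, Polynomial.coe_pow,
      Polynomial.coe_C, Polynomial.coe_C, ← hl, ← hL]
    simp only [map_add, map_sub, map_mul, map_pow, map_natCast]
    push_cast
    rw [show 2 * p = p + p by ring, pow_add]
    linear_combination (((d : PowerSeries A) * κ + PowerSeries.C h) * l ^ p +
      (PowerSeries.C h * ((d : PowerSeries A) * κ) ^ 2 - PowerSeries.C h ^ 3) * (g * l ^ p + (L - l ^ p))) * h2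
  have hzp : (PowerSeries.C z0 * PowerSeries.X : PowerSeries A) ^ p =
      PowerSeries.C (z0 ^ (p - 1)) * (PowerSeries.C z0 * PowerSeries.X ^ p) := by
    have hz : z0 ^ p = z0 ^ (p - 1) * z0 := by rw [← pow_succ, Nat.sub_add_cancel hp.out.one_le]
    rw [mul_pow, ← map_pow, hz, map_mul]
    ring
  unfold Ph
  rw [map_sum, sum_blocks, mul_sum]
  refine sum_congr rfl fun κ _ => ?_
  rw [mul_sum]
  unfold Tp
  rw [coe_sum', mul_sum]
  refine sum_congr rfl fun j hj => ?_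
  rw [mem_range] at hj
  have ht := term_eq (R := PowerSeries A) hq hsl h1 hzp m d κ j hj
  rw [map_mul (fZ z0) (PowerSeries.C _) _, fZ_C, hv κ j hj, pow_zero, one_mul, map_mul (fZ z0) _ _, map_pow (fZ z0),
    map_pow (fZ z0), fZ_X, ← hsdef]
  rw [Polynomial.coe_mul, Polynomial.coe_mul, Polynomial.coe_mul,
    Polynomial.coe_mul, Polynomial.coe_C, Polynomial.coe_pow, Polynomial.coe_pow, Polynomial.coe_pow, Polynomial.coe_X,
    ← hl, ← hehat κ]
  simp only [map_mul, map_pow] at ht ⊢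
  rw [mul_pow (PowerSeries.C z0) PowerSeries.X (m * j)] at ht
  linear_combination (PowerSeries.C (v κ) * PowerSeries.C (H j κ)) * ht

end rel

end Pool.Agent.H547.P3
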