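import Pool.Agent.H547.P3.S3

set_option autoImplicit false

/-!
# Elimination: relation among the partial sums of the `S`-side
-/

namespace Pool.Agent.H547.P3

open Finset Polynomial

variable {A : Type*} [CommRing A]

/-- `z₀ X^p` -/
noncomputable def Tz (p : ℕ) (z0 : A) : A[X] := C z0 * X ^ p
noncomputable def wp (p m d β : ℕ) (z0 : A) : A[X] := C (m : A) + C (2 * ((d : A) - m) * β) * Tz p z0
noncomputable def B1p (p m d β : ℕ) (z0 : A) : A[X] :=
  C (2 * (d : A) * β) * Tz p z0 + 2 * (C (β : A) * Tz p z0) * wp p m d β z0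
noncomputable def B0p (p β : ℕ) (z0 : A) : A[X] := C (β : A) * Tz p z0 + C ((β : A) ^ 2) * Tz p z0 ^ 2

variable {p : ℕ} [hp : Fact p.Prime] {q m d β : ℕ} {z0 ν h : A} {σ : PowerSeries A} {u v : ℕ → A} {G H : ℕ → ℕ → A}

noncomputable def lam (p d b : ℕ) (z0 : A) : A[X] := lp b z0 ^ (d * (p - 1) + 2 * p)

noncomputable def R2 (p q m d β : ℕ) (z0 h : A) (G H : ℕ → ℕ → A) : A[X] :=
  wp p m d β z0 * Lp p (2 * β) z0 ^ 2 * c2 (C h) (Tp p q m d (2 * β) z0 h H) -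
    wp p m d β z0 ^ 3 * lam p d (2 * β) z0 * c2 (C h) (Sp p z0 G)

noncomputable def R1 (p q m d β : ℕ) (z0 h : A) (G H : ℕ → ℕ → A) : A[X] :=
  wp p m d β z0 ^ 2 * Lp p (2 * β) z0 * c1 (C h) (Tp p q m d (2 * β) z0 h H) -
    B1p p m d β z0 * Lp p (2 * β) z0 * c2 (C h) (Tp p q m d (2 * β) z0 h H) -
    wp p m d β z0 ^ 3 * lam p d (2 * β) z0 * c1 (C h) (Sp p z0 G)

noncomputable def R0 (p q m d β : ℕ) (z0 h : A) (G H : ℕ → ℕ → A) : A[X] :=
  wp p m d β z0 ^ 3 * Tp p q m d (2 * β) z0 h H 0 -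
    wp p m d β z0 ^ 2 * (C (β : A) * Tz p z0) * c1 (C h) (Tp p q m d (2 * β) z0 h H) +
    (B1p p m d β z0 * (C (β : A) * Tz p z0) - wp p m d β z0 * B0p p β z0) * c2 (C h) (Tp p q m d (2 * β) z0 h H) -
    wp p m d β z0 ^ 3 * lam p d (2 * β) z0 * Sp p z0 G 0

theorem Ph_comp (hh : 2 * h = 1) (K : ℕ) (T : ℕ → A[X]) (hT : QP (C (p : A)) T) :
    ∑ κ ∈ range K, PowerSeries.C (v κ) * ((PowerSeries.C z0 * PowerSeries.X ^ p) ^ (m * κ) *
      (fT p z0 σ) ^ (2 * d * κ + 1)) * (T κ : PowerSeries A) =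
    fT p z0 (Ph m d σ v 0 K) * (T 0 : PowerSeries A) + fT p z0 (Ph m d σ v 1 K) * (c1 (C h) T : A[X]) +
      fT p z0 (Ph m d σ v 2 K) * (c2 (C h) T : A[X]) := by
  have hC : (2 : A[X]) * C h = 1 := by
    have := congrArg (C (R := A)) hh
    rwa [map_mul, map_one, map_ofNat] at this
  rw [fT_Ph, fT_Ph, fT_Ph, sum_mul, sum_mul, sum_mul, ← sum_add_distrib, ← sum_add_distrib]
  refine sum_congr rfl fun κ _ => ?_
  have := comps hC hT κ
  rw [this]
  rw [Polynomial.coe_add, Polynomial.coe_add, Polynomial.coe_mul, Polynomial.coe_mul, Polynomial.coe_pow]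
  have hk : (((κ : A[X])) : PowerSeries A) = PowerSeries.C (κ : A) := by
    rw [← Polynomial.C_eq_natCast κ, Polynomial.coe_C]
  rw [hk]
  simp only [map_mul, map_pow, pow_zero, map_one]
  ring

theorem Ff_comp (hh : 2 * h = 1) (K : ℕ) (T : ℕ → A[X]) (hT : QP (C (p : A)) T) :
    ∑ κ ∈ range K, PowerSeries.C (u κ) * (PowerSeries.C z0 * PowerSeries.X ^ p) ^ κ * (T κ : PowerSeries A) =
    fT p z0 (Ff u 0 K) * (T 0 : PowerSeries A) + fT p z0 (Ff u 1 K) * (c1 (C h) T : A[X]) +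
      fT p z0 (Ff u 2 K) * (c2 (C h) T : A[X]) := by
  have hC : (2 : A[X]) * C h = 1 := by
    have := congrArg (C (R := A)) hh
    rwa [map_mul, map_one, map_ofNat] at this
  rw [fT_Ff, fT_Ff, fT_Ff, sum_mul, sum_mul, sum_mul, ← sum_add_distrib, ← sum_add_distrib]
  refine sum_congr rfl fun κ _ => ?_
  have := comps hC hT κ
  rw [this]
  rw [Polynomial.coe_add, Polynomial.coe_add, Polynomial.coe_mul, Polynomial.coe_mul, Polynomial.coe_pow]
  have hk : (((κ : A[X])) : PowerSeries A) = PowerSeries.C (κ : A) := by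
    rw [← Polynomial.C_eq_natCast κ, Polynomial.coe_C]
  rw [hk]
  simp only [map_mul, map_pow, pow_zero, map_one]
  ring

/-- the relation `Σ R_i F_i^T ≡ 0 mod X^{pK}` -/
theorem R_rel (hq : p = 2 * q + 1) (hp3 : (p : A) ^ 3 = 0) (hh : 2 * h = 1) (hz : z0 ^ (p - 1) = 1 + p * ν)
    (hs : σ ^ 2 * (1 - PowerSeries.C (2 * (β : A)) * PowerSeries.X) = 1) (hsc : PowerSeries.constantCoeff σ = 1)
    (hu : ∀ κ j, j < p → u (p * κ + j) = u κ * G j κ)
    (hv : ∀ κ j, j < p → v (p * κ + j) = v κ * H j κ)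
    (hG : QP (C (p : A)) (Sp p z0 G)) (hH : QP (C (p : A)) (Tp p q m d (2 * β) z0 h H))
    (hb : ∀ K, PowerSeries.X ^ K ∣ Ff u 0 K - Ph m d σ v 0 K) (K : ℕ) :
    PowerSeries.X ^ (p * K) ∣ (R2 p q m d β z0 h G H : PowerSeries A) * fT p z0 (Ff u 2 K) +
      (R1 p q m d β z0 h G H : PowerSeries A) * fT p z0 (Ff u 1 K) +
      (R0 p q m d β z0 h G H : PowerSeries A) * fT p z0 (Ff u 0 K) := by
  have h1 := fZ_dvd z0 (hb (p * K))
  rw [map_sub] at h1
  have h2 : PowerSeries.X ^ (p * K) ∣ ((lp (2 * β) z0 : A[X]) : PowerSeries A) ^ (d * (p - 1) + 2 * p) * fZ z0 (Ff u 0 (p * K)) -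
      ((lp (2 * β) z0 : A[X]) : PowerSeries A) ^ (d * (p - 1) + 2 * p) * fZ z0 (Ph m d σ v 0 (p * K)) := by
    rw [← mul_sub]; exact dvd_mul_of_dvd_right h1 _
  have hs' : σ ^ 2 * (1 - PowerSeries.C (((2 * β : ℕ)) : A) * PowerSeries.X) = 1 := by push_cast; exact hs
  rw [fZ_Ph hq hp3 hh hz hs' hsc hv K, fZ_Ff hu K, Ph_comp hh K _ hH, Ff_comp hh K _ hG] at h2
  obtain ⟨h3, h4⟩ := base_der hh hs m d v u K (hb K)
  have e0 := fT_dvd (p := p) z0 (hb K)
  have e1 := fT_dvd (p := p) z0 h3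
  have e2 := fT_dvd (p := p) z0 h4
  simp only [map_sub, map_add, map_mul (fT p z0), map_pow (fT p z0), map_one, fT_C, fT_X, map_ofNat] at e0 e1 e2
  have eT : ((Tz p z0 : A[X]) : PowerSeries A) = PowerSeries.C z0 * PowerSeries.X ^ p := by
    unfold Tz
    rw [Polynomial.coe_mul, Polynomial.coe_C, Polynomial.coe_pow, Polynomial.coe_X]
  have eW : ((wp p m d β z0 : A[X]) : PowerSeries A) = PowerSeries.C (m : A) +
      PowerSeries.C (2 * ((d : A) - m) * β) * (PowerSeries.C z0 * PowerSeries.X ^ p) := by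
    unfold wp
    rw [Polynomial.coe_add, Polynomial.coe_mul, Polynomial.coe_C, Polynomial.coe_C, eT]
  have eL : ((Lp p (2 * β) z0 : A[X]) : PowerSeries A) = 1 - PowerSeries.C (2 * (β : A)) * (PowerSeries.C z0 * PowerSeries.X ^ p) := by
    unfold Lp
    rw [Polynomial.coe_sub, Polynomial.coe_one, Polynomial.coe_mul, Polynomial.coe_C, Polynomial.coe_pow, Polynomial.coe_X]
    push_cast
    rw [map_mul]
    ring
  have eB1 : ((B1p p m d β z0 : A[X]) : PowerSeries A) = PowerSeries.C (2 * (d : A) * β) * (PowerSeries.C z0 * PowerSeries.X ^ p) +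
      2 * (PowerSeries.C (β : A) * (PowerSeries.C z0 * PowerSeries.X ^ p)) * ((wp p m d β z0 : A[X]) : PowerSeries A) := by
    unfold B1p
    have h2 : ((2 : A[X]) : PowerSeries A) = 2 := by
      have : (2 : A[X]) = C 2 := by rw [map_ofNat]
      rw [this, Polynomial.coe_C, map_ofNat]
    rw [Polynomial.coe_add, Polynomial.coe_mul, Polynomial.coe_C, Polynomial.coe_mul, Polynomial.coe_mul, Polynomial.coe_mul,
      Polynomial.coe_C, eT, h2]
  have eB0 : ((B0p p β z0 : A[X]) : PowerSeries A) = PowerSeries.C (β : A) * (PowerSeries.C z0 * PowerSeries.X ^ p) +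
      PowerSeries.C ((β : A) ^ 2) * (PowerSeries.C z0 * PowerSeries.X ^ p) ^ 2 := by
    unfold B0p
    rw [Polynomial.coe_add, Polynomial.coe_mul, Polynomial.coe_C, Polynomial.coe_mul, Polynomial.coe_C, Polynomial.coe_pow, eT]
  have elam : ((lam p d (2 * β) z0 : A[X]) : PowerSeries A) = ((lp (2 * β) z0 : A[X]) : PowerSeries A) ^ (d * (p - 1) + 2 * p) := by
    unfold lam
    rw [Polynomial.coe_pow]
  rw [← elam] at h2
  unfold R2 R1 R0
  simp only [Polynomial.coe_sub, Polynomial.coe_add, Polynomial.coe_mul, Polynomial.coe_pow, Polynomial.coe_C]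
  rw [← eL, ← eW] at e1
  rw [← eL] at e2
  rw [eT]
  rw [← eW] at e2
  have e2' : PowerSeries.X ^ (p * K) ∣ ((Lp p (2 * β) z0 : A[X]) : PowerSeries A) ^ 2 * fT p z0 (Ff u 2 K) -
      (((wp p m d β z0 : A[X]) : PowerSeries A) ^ 2 * fT p z0 (Ph m d σ v 2 K) +
       ((B1p p m d β z0 : A[X]) : PowerSeries A) * fT p z0 (Ph m d σ v 1 K) +
       ((B0p p β z0 : A[X]) : PowerSeries A) * fT p z0 (Ph m d σ v 0 K)) := by
    rw [eB1, eB0]
    exact e2
  clear e2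
  set TT : PowerSeries A := PowerSeries.C z0 * PowerSeries.X ^ p
  set W : PowerSeries A := ((wp p m d β z0 : A[X]) : PowerSeries A)
  set L : PowerSeries A := ((Lp p (2 * β) z0 : A[X]) : PowerSeries A)
  set Λ : PowerSeries A := ((lam p d (2 * β) z0 : A[X]) : PowerSeries A)
  set B1 : PowerSeries A := ((B1p p m d β z0 : A[X]) : PowerSeries A)
  set B0 : PowerSeries A := ((B0p p β z0 : A[X]) : PowerSeries A)
  set t0 : PowerSeries A := ((Tp p q m d (2 * β) z0 h H 0 : A[X]) : PowerSeries A)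
  set t1 : PowerSeries A := ((c1 (C h) (Tp p q m d (2 * β) z0 h H) : A[X]) : PowerSeries A)
  set t2 : PowerSeries A := ((c2 (C h) (Tp p q m d (2 * β) z0 h H) : A[X]) : PowerSeries A)
  set s0 : PowerSeries A := ((Sp p z0 G 0 : A[X]) : PowerSeries A)
  set s1 : PowerSeries A := ((c1 (C h) (Sp p z0 G) : A[X]) : PowerSeries A)
  set s2 : PowerSeries A := ((c2 (C h) (Sp p z0 G) : A[X]) : PowerSeries A)
  set F0 := fT p z0 (Ff u 0 K)
  set F1 := fT p z0 (Ff u 1 K)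
  set F2 := fT p z0 (Ff u 2 K)
  set P0 := fT p z0 (Ph m d σ v 0 K)
  set P1 := fT p z0 (Ph m d σ v 1 K)
  set P2 := fT p z0 (Ph m d σ v 2 K)
  obtain ⟨q0, hq0⟩ := e0
  obtain ⟨q1, hq1⟩ := e1
  obtain ⟨q2, hq2⟩ := e2'
  obtain ⟨q3, hq3⟩ := h2
  refine ⟨W * t2 * q2 + (W ^ 2 * t1 - B1 * t2) * q1 + (W ^ 3 * t0 - W ^ 2 * (PowerSeries.C (β : A) * TT) * t1 +
    (B1 * (PowerSeries.C (β : A) * TT) - W * B0) * t2) * q0 - W ^ 3 * q3, ?_⟩
  linear_combination W * t2 * hq2 + (W ^ 2 * t1 - B1 * t2) * hq1 + (W ^ 3 * t0 - W ^ 2 * (PowerSeries.C (β : A) * TT) * t1 +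
    (B1 * (PowerSeries.C (β : A) * TT) - W * B0) * t2) * hq0 - W ^ 3 * hq3

end Pool.Agent.H547.P3
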