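import Pool.Agent.H547.P3.S4
import Pool.Agent.H547.P3.Uniq

set_option autoImplicit false

/-!
# Coefficient extraction: the polynomials `R_i` vanish
-/

namespace Pool.Agent.H547.P3

open Finset Polynomial

variable {A : Type*} [CommRing A] {p : ℕ} [hp : Fact p.Prime] {z0 : A} {u : ℕ → A}

theorem coeff_RF (R : A[X]) (i K N j Cc : ℕ) (hR : R.natDegree < (Cc + 1) * p) (hN : N < K) (hj : j < p) :
    PowerSeries.coeff (j + p * N) ((R : PowerSeries A) * fT p z0 (Ff u i K)) =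
    ∑ i' ∈ range (Cc + 1), if i' ≤ N then (((N - i' : ℕ)) : A) ^ i * u (N - i') * z0 ^ (N - i') * R.coeff (j + p * i') else 0 := by
  have hp0 := hp.out.pos
  have hterm : ∀ κ : ℕ, PowerSeries.coeff (j + p * N) ((R : PowerSeries A) *
      (PowerSeries.C ((κ : A) ^ i * u κ) * (PowerSeries.C z0 * PowerSeries.X ^ p) ^ κ)) =
      if κ ≤ N then (κ : A) ^ i * u κ * z0 ^ κ * R.coeff (j + p * (N - κ)) else 0 := by
    intro κ
    have : (R : PowerSeries A) * (PowerSeries.C ((κ : A) ^ i * u κ) * (PowerSeries.C z0 * PowerSeries.X ^ p) ^ κ) =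
        PowerSeries.C ((κ : A) ^ i * u κ * z0 ^ κ) * ((R : PowerSeries A) * PowerSeries.X ^ (p * κ)) := by
      rw [mul_pow, ← pow_mul, map_mul PowerSeries.C _ (z0 ^ κ), map_pow]
      ring
    rw [this, PowerSeries.coeff_C_mul, PowerSeries.coeff_mul_X_pow']
    by_cases hκ : κ ≤ N
    · rw [if_pos hκ, if_pos (by have := Nat.mul_le_mul_left p hκ; omega)]
      congr 1
      rw [Polynomial.coeff_coe]
      congr 1
      rw [Nat.mul_sub]
      have := Nat.mul_le_mul_left p hκ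
      omega
    · rw [if_neg hκ, if_neg, mul_zero]
      have := Nat.mul_le_mul_left p (Nat.succ_le_of_lt (not_le.mp hκ))
      rw [Nat.mul_succ] at this
      omega
  rw [fT_Ff, mul_sum, map_sum, sum_congr rfl fun κ _ => hterm κ]
  -- reduce to κ ≤ N
  have h1 : ∑ κ ∈ range K, (if κ ≤ N then (κ : A) ^ i * u κ * z0 ^ κ * R.coeff (j + p * (N - κ)) else 0) =
      ∑ κ ∈ range (N + 1), (κ : A) ^ i * u κ * z0 ^ κ * R.coeff (j + p * (N - κ)) := by
    rw [← sum_filter]
    refine sum_congr ?_ fun _ _ => rfl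
    ext κ
    simp only [mem_filter, mem_range]
    omega
  rw [h1, ← sum_range_reflect, ← sum_filter]
  have h2 : ∑ κ ∈ range (N + 1), (((N + 1 - 1 - κ : ℕ)) : A) ^ i * u (N + 1 - 1 - κ) * z0 ^ (N + 1 - 1 - κ) *
      R.coeff (j + p * (N - (N + 1 - 1 - κ))) =
      ∑ κ ∈ (range (N + 1)).filter (fun κ => κ ≤ Cc), (((N - κ : ℕ)) : A) ^ i * u (N - κ) * z0 ^ (N - κ) * R.coeff (j + p * κ) := by
    rw [sum_filter]
    refine sum_congr rfl fun κ hκ => ?_
    rw [mem_range] at hκ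
    rw [show N + 1 - 1 - κ = N - κ by omega, show N - (N - κ) = κ by omega]
    by_cases hC : κ ≤ Cc
    · rw [if_pos hC]
    · rw [if_neg hC, R.coeff_eq_zero_of_natDegree_lt, mul_zero]
      refine lt_of_lt_of_le hR ?_
      have := Nat.mul_le_mul_left p (Nat.succ_le_of_lt (not_le.mp hC))
      rw [mul_comm p (Cc.succ)] at this
      exact this.trans (Nat.le_add_left _ _)
  rw [h2]
  refine sum_congr ?_ fun _ _ => rfl
  ext κ
  simp only [mem_filter, mem_range]
  omega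

theorem R_zero (hu : ∀ k : ℕ, 0 < k → k < p → IsUnit (k : A)) (hz : IsUnit z0) (Cc : ℕ) (hC : 6 * Cc + 5 ≤ p)
    {R0 R1 R2 : A[X]} (h0 : R0.natDegree < (Cc + 1) * p) (h1 : R1.natDegree < (Cc + 1) * p)
    (h2 : R2.natDegree < (Cc + 1) * p)
    (hrel : PowerSeries.X ^ (p * (3 * Cc + 3)) ∣ (R2 : PowerSeries A) * fT p z0 (Ff (fun k => (uc k : A)) 2 (3 * Cc + 3)) +
      (R1 : PowerSeries A) * fT p z0 (Ff (fun k => (uc k : A)) 1 (3 * Cc + 3)) +
      (R0 : PowerSeries A) * fT p z0 (Ff (fun k => (uc k : A)) 0 (3 * Cc + 3))) :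
    R0 = 0 ∧ R1 = 0 ∧ R2 = 0 := by
  have hp0 := hp.out.pos
  have key : ∀ j < p, ∀ i ≤ Cc, z0 ^ (Cc - i) * R0.coeff (j + p * i) = 0 ∧ z0 ^ (Cc - i) * R1.coeff (j + p * i) = 0 ∧
      z0 ^ (Cc - i) * R2.coeff (j + p * i) = 0 := by
    intro j hj
    refine uniq hu Cc hC (fun i => z0 ^ (Cc - i) * R0.coeff (j + p * i)) (fun i => z0 ^ (Cc - i) * R1.coeff (j + p * i))
      (fun i => z0 ^ (Cc - i) * R2.coeff (j + p * i)) ?_
    intro N hN
    have hc := (PowerSeries.X_pow_dvd_iff.mp hrel) (j + p * N) (by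
      have := Nat.mul_le_mul_left p (show N + 1 ≤ 3 * Cc + 3 by omega)
      rw [Nat.mul_succ] at this
      omega)
    rw [map_add, map_add, coeff_RF R2 2 _ N j Cc h2 (by omega) hj, coeff_RF R1 1 _ N j Cc h1 (by omega) hj,
      coeff_RF R0 0 _ N j Cc h0 (by omega) hj, ← sum_add_distrib, ← sum_add_distrib] at hc
    have hzN : IsUnit (z0 ^ N) := hz.pow N
    have : z0 ^ N * (∑ i ∈ range (Cc + 1), (if i ≤ N then
      (uc (N - i) : A) * (z0 ^ (Cc - i) * R0.coeff (j + p * i) + ((N : A) - i) * (z0 ^ (Cc - i) * R1.coeff (j + p * i)) +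
        ((N : A) - i) ^ 2 * (z0 ^ (Cc - i) * R2.coeff (j + p * i))) else 0)) = 0 := by
      have hc' := congrArg (fun x => z0 ^ Cc * x) hc
      simp only [mul_zero] at hc'
      refine Eq.trans ?_ hc'
      rw [mul_sum, mul_sum]
      refine sum_congr rfl fun i hi => ?_
      rw [mem_range] at hi
      by_cases hiN : i ≤ N
      · simp only [if_pos hiN]
        have e : z0 ^ N * z0 ^ (Cc - i) = z0 ^ Cc * z0 ^ (N - i) := by
          rw [← pow_add, ← pow_add]; congr 1; omega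
        rw [Nat.cast_sub hiN]
        linear_combination ((uc (N - i) : A) * (R0.coeff (j + p * i) + ((N : A) - i) * R1.coeff (j + p * i) +
          ((N : A) - i) ^ 2 * R2.coeff (j + p * i))) * e
      · simp only [if_neg hiN, mul_zero, add_zero]
    exact hzN.mul_right_eq_zero.mp this
  have fin : ∀ R : A[X], R.natDegree < (Cc + 1) * p → (∀ j < p, ∀ i ≤ Cc, z0 ^ (Cc - i) * R.coeff (j + p * i) = 0) → R = 0 := by
    intro R hR hk
    ext n
    rw [coeff_zero]
    by_cases hn : n < (Cc + 1) * p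
    · have h := hk (n % p) (Nat.mod_lt _ hp0) (n / p) (by
        have := Nat.div_lt_of_lt_mul (by rwa [mul_comm] at hn : n < p * (Cc + 1))
        omega)
      rw [Nat.mod_add_div] at h
      exact (hz.pow _).mul_right_eq_zero.mp h
    · exact R.coeff_eq_zero_of_natDegree_lt (lt_of_lt_of_le hR (not_lt.mp hn))
  exact ⟨fin R0 h0 fun j hj i hi => (key j hj i hi).1, fin R1 h1 fun j hj i hi => (key j hj i hi).2.1,
    fin R2 h2 fun j hj i hi => (key j hj i hi).2.2⟩

end Pool.Agent.H547.P3
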