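import Pool.Agent.H547.P3.S5

set_option autoImplicit false

/-!
# Degree bounds, and the evaluation at `X = 1`
-/

namespace Pool.Agent.H547.P3

open Finset Polynomial

variable {A : Type*} [CommRing A]

theorem nd_mul {f g : A[X]} {a b : ℕ} (hf : f.natDegree ≤ a) (hg : g.natDegree ≤ b) : (f * g).natDegree ≤ a + b :=
  natDegree_mul_le_of_le hf hg
theorem nd_pow {f : A[X]} {a : ℕ} (hf : f.natDegree ≤ a) (n : ℕ) : (f ^ n).natDegree ≤ n * a := natDegree_pow_le_of_le n hf
theorem nd_add {f g : A[X]} {a : ℕ} (hf : f.natDegree ≤ a) (hg : g.natDegree ≤ a) : (f + g).natDegree ≤ a :=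
  natDegree_add_le_of_degree_le hf hg
theorem nd_sub {f g : A[X]} {a : ℕ} (hf : f.natDegree ≤ a) (hg : g.natDegree ≤ a) : (f - g).natDegree ≤ a :=
  (natDegree_sub_le _ _).trans (max_le hf hg)
theorem nd_C (a : A) (n : ℕ) : (C a : A[X]).natDegree ≤ n := by rw [natDegree_C]; exact Nat.zero_le _
theorem nd_X (n : ℕ) : (X ^ n : A[X]).natDegree ≤ n := natDegree_X_pow_le n

variable {p : ℕ} {q m d b β : ℕ} {z0 h : A} {G H : ℕ → ℕ → A}

theorem lp_deg : (lp b z0 : A[X]).natDegree ≤ 1 := by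
  unfold lp
  refine nd_sub (by rw [natDegree_one]; omega) ?_
  have := nd_mul (nd_C ((b : A) * z0) 0) (natDegree_X_le (R := A))
  simpa using this

theorem Lp_deg : (Lp p b z0 : A[X]).natDegree ≤ p := by
  unfold Lp
  refine nd_sub (by rw [natDegree_one]; omega) ?_
  have := nd_mul (nd_C ((b : A) * z0) 0) (nd_X p)
  simpa using this

theorem Tz_deg : (Tz p z0 : A[X]).natDegree ≤ p := by
  unfold Tz
  have := nd_mul (nd_C z0 0) (nd_X p)
  simpa using this

theorem wp_deg : (wp p m d β z0 : A[X]).natDegree ≤ p := by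
  unfold wp
  refine nd_add (nd_C _ _) ?_
  have := nd_mul (nd_C (2 * ((d : A) - m) * β) 0) (Tz_deg (p := p) (z0 := z0))
  simpa using this

theorem B1p_deg : (B1p p m d β z0 : A[X]).natDegree ≤ 2 * p := by
  unfold B1p
  refine nd_add ?_ ?_
  · have := nd_mul (nd_C (2 * (d : A) * β) 0) (Tz_deg (p := p) (z0 := z0))
    exact this.trans (by omega)
  · have h2 : (2 : A[X]).natDegree ≤ 0 := by
      have : (2 : A[X]) = C 2 := by rw [map_ofNat]
      rw [this]; exact nd_C _ _
    have := nd_mul (nd_mul h2 (nd_mul (nd_C (β : A) 0) (Tz_deg (p := p) (z0 := z0)))) (wp_deg (p := p) (m := m) (d := d) (β := β) (z0 := z0))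
    exact this.trans (by omega)

theorem B0p_deg : (B0p p β z0 : A[X]).natDegree ≤ 2 * p := by
  unfold B0p
  refine nd_add ?_ ?_
  · have := nd_mul (nd_C (β : A) 0) (Tz_deg (p := p) (z0 := z0))
    exact this.trans (by omega)
  · have := nd_mul (nd_C ((β : A) ^ 2) 0) (nd_pow (Tz_deg (p := p) (z0 := z0)) 2)
    exact this.trans (by omega)

theorem lam_deg : (lam p d b z0 : A[X]).natDegree ≤ d * (p - 1) + 2 * p := by
  unfold lam
  have := nd_pow (lp_deg (b := b) (z0 := z0)) (d * (p - 1) + 2 * p)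
  simpa using this

theorem ehat_deg (κ : ℕ) : (ehat p d b z0 h κ : A[X]).natDegree ≤ 2 * p := by
  unfold ehat
  have hlp : ((lp b z0 : A[X]) ^ p).natDegree ≤ p := by simpa using nd_pow (lp_deg (b := b) (z0 := z0)) p
  have hd : (Lp p b z0 - lp b z0 ^ p : A[X]).natDegree ≤ p := nd_sub Lp_deg hlp
  refine nd_add (nd_add ?_ ?_) ?_
  · simpa using nd_pow (lp_deg (b := b) (z0 := z0)) (2 * p)
  · exact (nd_mul (nd_mul (nd_C _ 0) hd) hlp).trans (by omega)
  · exact (nd_mul (nd_C _ 0) (nd_pow hd 2)).trans (by omega)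

theorem Tp_deg (hmd : m ≤ d) (κ : ℕ) : (Tp p q m d b z0 h H κ : A[X]).natDegree ≤ d * (p - 1) + q + 2 * p := by
  unfold Tp
  refine natDegree_sum_le_of_forall_le _ _ fun j hj => ?_
  rw [mem_range] at hj
  have h1 := nd_mul (nd_C ((z0 ^ (p - 1)) ^ (m * κ) * H j κ * z0 ^ (m * j)) 0) (nd_mul (nd_mul (nd_mul (nd_X (A := A) (m * j))
    (nd_pow (lp_deg (b := b) (z0 := z0)) q)) (ehat_deg (p := p) (d := d) (b := b) (z0 := z0) (h := h) κ))
    (nd_pow (lp_deg (b := b) (z0 := z0)) (d * (p - 1 - j))))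
  refine h1.trans ?_
  have h2 : m * j ≤ d * j := Nat.mul_le_mul_right j hmd
  have h3 : d * j + d * (p - 1 - j) = d * (p - 1) := by rw [← mul_add]; congr 1; omega
  omega

theorem Sp_deg (κ : ℕ) : (Sp p z0 G κ : A[X]).natDegree ≤ p - 1 := by
  unfold Sp
  refine natDegree_sum_le_of_forall_le _ _ fun j hj => ?_
  rw [mem_range] at hj
  exact (nd_mul (nd_C _ 0) (nd_X j)).trans (by omega)

theorem R2_deg (hq : p = 2 * q + 1) (hmd : m ≤ d) : (R2 p q m d β z0 h G H).natDegree < (d + 6) * p := by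
  have e : (d + 6) * p = d * (p - 1) + d + 6 * p := by
    have : d * p = d * (p - 1) + d := by rw [← Nat.mul_succ]; congr 1; omega
    rw [add_mul, this]
  have h1 : (R2 p q m d β z0 h G H).natDegree ≤ d * (p - 1) + 6 * p - 1 := by
    unfold R2
    refine nd_sub ?_ ?_
    · exact (nd_mul (nd_mul wp_deg (nd_pow Lp_deg 2)) (c2_deg (Tp_deg hmd))).trans (by omega)
    · exact (nd_mul (nd_mul (nd_pow wp_deg 3) lam_deg) (c2_deg Sp_deg)).trans (by omega)
  omega

theorem R1_deg (hq : p = 2 * q + 1) (hmd : m ≤ d) : (R1 p q m d β z0 h G H).natDegree < (d + 6) * p := by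
  have e : (d + 6) * p = d * (p - 1) + d + 6 * p := by
    have : d * p = d * (p - 1) + d := by rw [← Nat.mul_succ]; congr 1; omega
    rw [add_mul, this]
  have h1 : (R1 p q m d β z0 h G H).natDegree ≤ d * (p - 1) + 6 * p - 1 := by
    unfold R1
    refine nd_sub (nd_sub ?_ ?_) ?_
    · exact (nd_mul (nd_mul (nd_pow wp_deg 2) Lp_deg) (c1_deg (Tp_deg hmd))).trans (by omega)
    · exact (nd_mul (nd_mul B1p_deg Lp_deg) (c2_deg (Tp_deg hmd))).trans (by omega)
    · exact (nd_mul (nd_mul (nd_pow wp_deg 3) lam_deg) (c1_deg Sp_deg)).trans (by omega)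
  omega

theorem R0_deg (hq : p = 2 * q + 1) (hmd : m ≤ d) : (R0 p q m d β z0 h G H).natDegree < (d + 6) * p := by
  have e : (d + 6) * p = d * (p - 1) + d + 6 * p := by
    have : d * p = d * (p - 1) + d := by rw [← Nat.mul_succ]; congr 1; omega
    rw [add_mul, this]
  have hb : (C (β : A) * Tz p z0 : A[X]).natDegree ≤ p := by
    have := nd_mul (nd_C (β : A) 0) (Tz_deg (p := p) (z0 := z0))
    simpa using this
  have h1 : (R0 p q m d β z0 h G H).natDegree ≤ d * (p - 1) + 6 * p - 1 := by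
    unfold R0
    refine nd_sub (nd_add (nd_sub ?_ ?_) ?_) ?_
    · exact (nd_mul (nd_pow wp_deg 3) (Tp_deg hmd 0)).trans (by omega)
    · exact (nd_mul (nd_mul (nd_pow wp_deg 2) hb) (c1_deg (Tp_deg hmd))).trans (by omega)
    · refine (nd_mul (nd_sub (a := 3 * p) ?_ ?_) (c2_deg (Tp_deg hmd))).trans (by omega)
      · exact (nd_mul B1p_deg hb).trans (by omega)
      · exact (nd_mul wp_deg B0p_deg).trans (by omega)
    · exact (nd_mul (nd_mul (nd_pow wp_deg 3) lam_deg) (Sp_deg 0)).trans (by omega)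
  omega

theorem nzd {f Y : A[X]} (hf : IsUnit (f.coeff 0)) (h : f * Y = 0) : Y = 0 := by
  have h1 : IsUnit (f : PowerSeries A) := by
    rw [PowerSeries.isUnit_iff_constantCoeff, ← PowerSeries.coeff_zero_eq_constantCoeff_apply, Polynomial.coeff_coe]
    exact hf
  have h2 : (f : PowerSeries A) * (Y : PowerSeries A) = 0 := by
    rw [← Polynomial.coe_mul, h, Polynomial.coe_zero]
  have h3 := h1.mul_right_eq_zero.mp h2
  exact (Polynomial.coe_eq_zero_iff).mp h3

end Pool.Agent.H547.P3
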