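import Pool.Agent.H547.P3.S6

set_option autoImplicit false

/-!
# The star theorem
-/

namespace Pool.Agent.H547.P3

open Finset Polynomial

variable {A : Type*} [CommRing A] {p : ℕ} [hp : Fact p.Prime] {q m d β : ℕ} {z0 ν h : A} {σ : PowerSeries A}
  {G H : ℕ → ℕ → A} {v : ℕ → A}

theorem Cp3 (hp3 : (p : A) ^ 3 = 0) : (C (p : A) : A[X]) ^ 3 = 0 := by rw [← map_pow, hp3, map_zero]

theorem QP_zpow (hp3 : (p : A) ^ 3 = 0) (hh : 2 * h = 1) (hz : z0 ^ (p - 1) = 1 + p * ν) (n : ℕ) :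
    QP (p : A) (fun κ => (z0 ^ (p - 1)) ^ (n * κ)) := by
  rw [hz]
  exact QP.exp hp3 hh ν n

theorem QP_Sp (hp3 : (p : A) ^ 3 = 0) (hh : 2 * h = 1) (hz : z0 ^ (p - 1) = 1 + p * ν)
    (hG : ∀ j < p, QP (p : A) (fun κ => G j κ)) : QP (C (p : A)) (Sp p z0 G) := by
  unfold Sp
  refine QP.sum _ fun j hj => ?_
  refine QP.mul (Cp3 hp3) ?_ (QP.const _ _)
  refine QP.map (C : A →+* A[X]) (f := fun κ => (z0 ^ (p - 1)) ^ κ * G j κ * z0 ^ j) ?_
  refine QP.mul hp3 (QP.mul hp3 ?_ (hG j (mem_range.mp hj))) (QP.const _ _)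
  have := QP_zpow hp3 hh hz 1
  simpa only [one_mul] using this

theorem QP_Tp (hodd : Odd p) (hp3 : (p : A) ^ 3 = 0) (hh : 2 * h = 1) (hz : z0 ^ (p - 1) = 1 + p * ν)
    (hH : ∀ j < p, QP (p : A) (fun κ => H j κ)) (b : ℕ) : QP (C (p : A)) (Tp p q m d b z0 h H) := by
  unfold Tp
  refine QP.sum _ fun j hj => ?_
  refine QP.mul (Cp3 hp3) ?_ ?_
  · refine QP.map (C : A →+* A[X]) (f := fun κ => (z0 ^ (p - 1)) ^ (m * κ) * H j κ * z0 ^ (m * j)) ?_
    exact QP.mul hp3 (QP.mul hp3 (QP_zpow hp3 hh hz m) (hH j (mem_range.mp hj))) (QP.const _ _)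
  · refine QP.mul (Cp3 hp3) (QP.mul (Cp3 hp3) (QP.const _ _) ?_) (QP.const _ _)
    obtain ⟨N1, hN1⟩ := exists_N1 (p := p) hodd hz b (C : A →+* A[X]) X
    have hN : Lp p b z0 - lp b z0 ^ p = C (p : A) * N1 := by
      unfold Lp lp
      rw [hN1, map_natCast]
    refine ⟨lp b z0 ^ (2 * p) + C h * (C (p : A) * N1) * lp b z0 ^ p - C (h ^ 3) * (C (p : A) * N1) ^ 2,
      C (d : A) * N1 * lp b z0 ^ p, C (h * (d : A) ^ 2) * N1 ^ 2, fun κ => ?_⟩
    unfold ehat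
    rw [hN]
    simp only [map_add, map_sub, map_mul, map_pow, map_natCast]
    ring

/-- **star theorem** -/
theorem star (hq : p = 2 * q + 1) (hp3 : (p : A) ^ 3 = 0) (hh : 2 * h = 1) (hz : z0 ^ (p - 1) = 1 + p * ν)
    (hunit : ∀ k : ℕ, 0 < k → k < p → IsUnit (k : A)) (hzu : IsUnit z0) (hmd : m ≤ d) (hm : IsUnit (m : A))
    (hd : 6 * (d + 5) + 5 ≤ p)
    (hs : σ ^ 2 * (1 - PowerSeries.C (2 * (β : A)) * PowerSeries.X) = 1) (hsc : PowerSeries.constantCoeff σ = 1)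
    (hu : ∀ κ j, j < p → (uc (p * κ + j) : A) = (uc κ : A) * G j κ)
    (hv : ∀ κ j, j < p → v (p * κ + j) = v κ * H j κ)
    (hG : ∀ j < p, QP (p : A) (fun κ => G j κ)) (hH : ∀ j < p, QP (p : A) (fun κ => H j κ))
    (hb : ∀ K, PowerSeries.X ^ K ∣ Ff (fun k => (uc k : A)) 0 K - Ph m d σ v 0 K)
    {l0 li : A} (hl0 : l0 = 1 - 2 * β * z0) (hli : l0 * li = 1) :
    ∃ x : A, x ^ 2 = 1 ∧ (∃ y : A, x = l0 ^ q * (1 + p * y)) ∧
      l0 ^ 2 * (x * (∑ j ∈ range p, H j 0 * (z0 ^ m * li ^ d) ^ j)) =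
        l0 ^ 2 * (∑ j ∈ range p, G j 0 * z0 ^ j) +
        β * z0 * l0 * c1 h (fun κ => (z0 ^ (p - 1)) ^ κ * ∑ j ∈ range p, G j κ * z0 ^ j) +
        (β * z0 + β ^ 2 * z0 ^ 2) * c2 h (fun κ => (z0 ^ (p - 1)) ^ κ * ∑ j ∈ range p, G j κ * z0 ^ j) ∧
      l0 ^ 2 * (x * c1 h (fun κ => ((z0 ^ m * li ^ d) ^ (p - 1)) ^ κ * ∑ j ∈ range p, H j κ * (z0 ^ m * li ^ d) ^ j)) =
        (m + 2 * ((d : A) - m) * β * z0) * l0 * c1 h (fun κ => (z0 ^ (p - 1)) ^ κ * ∑ j ∈ range p, G j κ * z0 ^ j) +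
        (2 * d * β * z0 + 2 * (β * z0) * (m + 2 * ((d : A) - m) * β * z0)) *
          c2 h (fun κ => (z0 ^ (p - 1)) ^ κ * ∑ j ∈ range p, G j κ * z0 ^ j) ∧
      l0 ^ 2 * (x * c2 h (fun κ => ((z0 ^ m * li ^ d) ^ (p - 1)) ^ κ * ∑ j ∈ range p, H j κ * (z0 ^ m * li ^ d) ^ j)) =
        (m + 2 * ((d : A) - m) * β * z0) ^ 2 * c2 h (fun κ => (z0 ^ (p - 1)) ^ κ * ∑ j ∈ range p, G j κ * z0 ^ j) := by
  have hodd : Odd p := ⟨q, hq⟩
  have hQS := QP_Sp hp3 hh hz hG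
  have hQT := QP_Tp (q := q) (m := m) (d := d) hodd hp3 hh hz hH (2 * β)
  have hrel := R_rel (G := G) hq hp3 hh hz hs hsc (u := fun k => (uc k : A)) hu hv hQS hQT hb (3 * (d + 5) + 3)
  obtain ⟨h0, h1, h2⟩ := R_zero hunit hzu (d + 5) hd (R0_deg hq hmd) (R1_deg hq hmd) (R2_deg hq hmd) hrel
  have hwu : IsUnit ((wp p m d β z0 : A[X]).coeff 0) := by
    unfold wp Tz
    rw [coeff_add, coeff_C_zero, coeff_C_mul, coeff_C_mul, coeff_X_pow, if_neg (by have := hp.out.pos; omega), mul_zero,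
      mul_zero, add_zero]
    exact hm
  have hLu : IsUnit ((Lp p (2 * β) z0 : A[X]).coeff 0) := by
    unfold Lp
    rw [coeff_sub, coeff_one_zero, coeff_C_mul, coeff_X_pow, if_neg (by have := hp.out.pos; omega), mul_zero, sub_zero]
    exact isUnit_one
  unfold R2 at h2
  unfold R1 at h1
  unfold R0 at h0
  set W := wp p m d β z0 with hW
  set L := Lp p (2 * β) z0 with hL
  set Λ := lam p d (2 * β) z0 with hΛ
  set B1 := B1p p m d β z0 with hB1
  set B0 := B0p p β z0 with hB0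
  set T0 := Tp p q m d (2 * β) z0 h H 0 with hT0
  set T1 := c1 (C h) (Tp p q m d (2 * β) z0 h H) with hT1
  set T2 := c2 (C h) (Tp p q m d (2 * β) z0 h H) with hT2
  set S0 := Sp p z0 G 0 with hS0
  set S1 := c1 (C h) (Sp p z0 G) with hS1
  set S2 := c2 (C h) (Sp p z0 G) with hS2
  have E2 : L ^ 2 * T2 = W ^ 2 * Λ * S2 := by
    have := nzd hwu (Y := L ^ 2 * T2 - W ^ 2 * Λ * S2) (by linear_combination h2)
    linear_combination this
  have hcp : ∀ n, IsUnit ((W ^ n).coeff 0) := fun n => by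
    rw [coeff_zero_eq_eval_zero, eval_pow, ← coeff_zero_eq_eval_zero]
    exact hwu.pow n
  have E1 : L ^ 2 * T1 = Λ * (B1 * S2 + W * L * S1) := by
    have := nzd (hcp 2) (Y := L ^ 2 * T1 - Λ * (B1 * S2 + W * L * S1)) (by linear_combination L * h1 + B1 * E2)
    linear_combination this
  have E0 : L ^ 2 * T0 = Λ * (C (β : A) * Tz p z0 * L * S1 + B0 * S2 + L ^ 2 * S0) := by
    have := nzd (hcp 3) (Y := L ^ 2 * T0 - Λ * (C (β : A) * Tz p z0 * L * S1 + B0 * S2 + L ^ 2 * S0)) (by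
      linear_combination L ^ 2 * h0 + W ^ 2 * (C (β : A) * Tz p z0) * E1 - (B1 * (C (β : A) * Tz p z0) - W * B0) * E2)
    linear_combination this
  -- evaluation at 1
  have e0 := congrArg (eval 1) E0
  have e1 := congrArg (eval 1) E1
  have e2 := congrArg (eval 1) E2
  have vL : eval 1 L = l0 := by
    rw [hL, hl0]; unfold Lp
    simp only [eval_sub, eval_one, eval_mul, eval_C, eval_pow, eval_X, one_pow, mul_one]
    push_cast; ring
  have vT : eval 1 (Tz p z0) = z0 := by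
    unfold Tz
    simp
  have vW : eval 1 W = m + 2 * ((d : A) - m) * β * z0 := by
    rw [hW]; unfold wp
    rw [eval_add, eval_mul, eval_C, eval_C, vT]
  have vB1 : eval 1 B1 = 2 * d * β * z0 + 2 * (β * z0) * (m + 2 * ((d : A) - m) * β * z0) := by
    rw [hB1]; unfold B1p
    rw [← hW]
    simp only [eval_add, eval_mul, eval_C, vT, vW, eval_ofNat]
  have vB0 : eval 1 B0 = β * z0 + β ^ 2 * z0 ^ 2 := by
    rw [hB0]; unfold B0p
    simp only [eval_add, eval_mul, eval_C, eval_pow, vT]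
  have vl : eval 1 (lp (2 * β) z0) = l0 := by
    rw [hl0]; unfold lp
    simp only [eval_sub, eval_one, eval_mul, eval_C, eval_X, mul_one]
    push_cast; ring
  have vΛ : eval 1 Λ = l0 ^ (d * (p - 1) + 2 * p) := by
    rw [hΛ]; unfold lam
    rw [eval_pow, vl]
  obtain ⟨N1, hN1⟩ := exists_N1 (p := p) hodd hz (2 * β) (RingHom.id A) (1 : A)
  have hN1' : l0 - l0 ^ p = p * N1 := by
    rw [← hN1, hl0]
    simp only [RingHom.id_apply, one_pow, mul_one]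
    push_cast
    ring
  have hpp : li ^ p * l0 = li ^ (p - 1) := by
    have : li ^ p = li ^ (p - 1) * li := by rw [← pow_succ, Nat.sub_add_cancel hp.out.one_le]
    rw [this]; linear_combination li ^ (p - 1) * hli
  have hlp : l0 ^ p * li ^ p = 1 := by rw [← mul_pow, hli, one_pow]
  set g1 := li ^ (p - 1) - 1 with hg1
  have hg1p : g1 = p * (N1 * li ^ p) := by
    rw [hg1]; linear_combination li ^ p * hN1' - hpp + hlp
  have hg3 : g1 ^ 3 = 0 := by rw [hg1p, mul_pow, hp3, zero_mul]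
  have hlg : l0 ^ p * g1 = l0 - l0 ^ p := by
    rw [hg1]; linear_combination l0 * hlp - l0 ^ p * hpp
  set ε := 1 + h * g1 - h ^ 3 * g1 ^ 2 with hε
  have hε2 : ε ^ 2 = 1 + g1 := sqrt_sq hg3 hh
  set x := l0 ^ q * ε with hx
  have hx2 : x ^ 2 = 1 := by
    rw [hx, mul_pow, hε2, hg1, ← pow_mul, show q * 2 = p - 1 by omega]
    have : l0 ^ (p - 1) * li ^ (p - 1) = 1 := by rw [← mul_pow, hli, one_pow]
    linear_combination this
  have vS : ∀ κ, eval 1 (Sp p z0 G κ) = (z0 ^ (p - 1)) ^ κ * ∑ j ∈ range p, G j κ * z0 ^ j := by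
    intro κ
    unfold Sp
    rw [eval_finset_sum, mul_sum]
    refine sum_congr rfl fun j _ => ?_
    simp only [eval_mul, eval_C, eval_pow, eval_X, one_pow, mul_one]
    ring
  have vE : ∀ κ : ℕ, eval 1 (ehat p d (2 * β) z0 h κ) = l0 ^ (2 * p) * (ε * (li ^ (p - 1)) ^ (d * κ)) := by
    intro κ
    have hsp := sqrt_pow hg3 hh (d * κ)
    rw [← hε, pow_succ, pow_mul, hε2] at hsp
    have h1g : (1 : A) + g1 = li ^ (p - 1) := by rw [hg1]; ring
    rw [h1g] at hsp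
    unfold ehat
    simp only [eval_add, eval_mul, eval_C, eval_pow, eval_sub, vl]
    rw [← hL, vL, mul_comm ε, hsp, ← hlg]
    push_cast
    ring
  have vTp : ∀ κ, eval 1 (Tp p q m d (2 * β) z0 h H κ) = l0 ^ (d * (p - 1) + 2 * p) *
      (x * (((z0 ^ m * li ^ d) ^ (p - 1)) ^ κ * ∑ j ∈ range p, H j κ * (z0 ^ m * li ^ d) ^ j)) := by
    intro κ
    unfold Tp
    rw [eval_finset_sum, mul_sum, mul_sum, mul_sum]
    refine sum_congr rfl fun j hj => ?_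
    rw [mem_range] at hj
    simp only [eval_mul, eval_C, eval_pow, eval_X, one_pow, vl, vE κ, one_mul]
    have h3 : l0 ^ (d * (p - 1 - j)) = l0 ^ (d * (p - 1)) * li ^ (d * j) := by
      have : d * (p - 1) = d * (p - 1 - j) + d * j := by rw [← mul_add]; congr 1; omega
      rw [this, pow_add, mul_assoc, ← mul_pow, hli, one_pow, mul_one]
    rw [h3, hx, pow_add]
    rw [mul_pow (z0 ^ m) (li ^ d) (p - 1), mul_pow (z0 ^ m) (li ^ d) j, mul_pow ((z0 ^ m) ^ (p - 1))]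
    have e1 : ((z0 ^ m) ^ (p - 1)) ^ κ = (z0 ^ (p - 1)) ^ (m * κ) := by
      rw [← pow_mul, ← pow_mul, ← pow_mul]; congr 1; ring
    have e2 : ((li ^ d) ^ (p - 1)) ^ κ = (li ^ (p - 1)) ^ (d * κ) := by
      rw [← pow_mul, ← pow_mul, ← pow_mul]; congr 1; ring
    have e3 : (z0 ^ m) ^ j = z0 ^ (m * j) := by rw [← pow_mul]
    have e4 : (li ^ d) ^ j = li ^ (d * j) := by rw [← pow_mul]
    rw [e1, e2, e3, e4]
    ring
  have hΛu : IsUnit (l0 ^ (d * (p - 1) + 2 * p)) := (IsUnit.of_mul_eq_one li hli).pow _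
  have cS1 : eval 1 S1 = c1 h (fun κ => (z0 ^ (p - 1)) ^ κ * ∑ j ∈ range p, G j κ * z0 ^ j) := by
    have := c1_map (evalRingHom (1 : A)) (C h) (Sp p z0 G)
    simp only [coe_evalRingHom, eval_C, vS] at this
    rw [hS1, this]
  have cS2 : eval 1 S2 = c2 h (fun κ => (z0 ^ (p - 1)) ^ κ * ∑ j ∈ range p, G j κ * z0 ^ j) := by
    have := c2_map (evalRingHom (1 : A)) (C h) (Sp p z0 G)
    simp only [coe_evalRingHom, eval_C, vS] at this
    rw [hS2, this]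
  have cS0 : eval 1 S0 = ∑ j ∈ range p, G j 0 * z0 ^ j := by
    rw [hS0, vS, pow_zero, one_mul]
  have cT0 : eval 1 T0 = l0 ^ (d * (p - 1) + 2 * p) * (x * (∑ j ∈ range p, H j 0 * (z0 ^ m * li ^ d) ^ j)) := by
    rw [hT0, vTp, pow_zero, one_mul]
  have cT1 : eval 1 T1 = l0 ^ (d * (p - 1) + 2 * p) * (x * c1 h (fun κ => ((z0 ^ m * li ^ d) ^ (p - 1)) ^ κ *
      ∑ j ∈ range p, H j κ * (z0 ^ m * li ^ d) ^ j)) := by
    have := c1_map (evalRingHom (1 : A)) (C h) (Tp p q m d (2 * β) z0 h H)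
    simp only [coe_evalRingHom, eval_C, vTp] at this
    rw [hT1, this]
    unfold c1 c2
    ring
  have cT2 : eval 1 T2 = l0 ^ (d * (p - 1) + 2 * p) * (x * c2 h (fun κ => ((z0 ^ m * li ^ d) ^ (p - 1)) ^ κ *
      ∑ j ∈ range p, H j κ * (z0 ^ m * li ^ d) ^ j)) := by
    have := c2_map (evalRingHom (1 : A)) (C h) (Tp p q m d (2 * β) z0 h H)
    simp only [coe_evalRingHom, eval_C, vTp] at this
    rw [hT2, this]
    unfold c2
    ring
  simp only [eval_mul, eval_add, eval_pow, eval_C, vL, vT, vW, vB1, vB0, vΛ, cS0, cS1, cS2, cT0, cT1, cT2] at e0 e1 e2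
  refine ⟨x, hx2, ⟨h * (N1 * li ^ p) - h ^ 3 * (p * (N1 * li ^ p) ^ 2), ?_⟩, ?_, ?_, ?_⟩
  · rw [hx, hε, hg1p]; ring
  · apply hΛu.mul_left_cancel
    linear_combination e0
  · apply hΛu.mul_left_cancel
    linear_combination e1
  · apply hΛu.mul_left_cancel
    linear_combination e2

end Pool.Agent.H547.P3
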