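import Pool.Agent.H547.P3.Fricke2
import Pool.Agent.H547.P3.S7

set_option autoImplicit false

/-!
# The star theorem for the two families
-/

namespace Pool.Agent.H547.P3

open Finset

variable {p : ℕ} [hp : Fact p.Prime] {n : ℕ} {h : ZMod (p ^ 3)}

noncomputable def fT1 (p : ℕ) (w : ZMod (p ^ 3)) (κ : ℕ) : ZMod (p ^ 3) := (w ^ (p - 1)) ^ κ * ∑ j ∈ range p, H1 p j κ * w ^ j
noncomputable def fT2 (p : ℕ) (w : ZMod (p ^ 3)) (κ : ℕ) : ZMod (p ^ 3) := (w ^ (p - 1)) ^ κ * ∑ j ∈ range p, H2 p j κ * w ^ j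

theorem star1 (hp53 : 53 ≤ p) (hn : p = 2 * n + 1) (hh : 2 * h = 1) {z l li : ZMod (p ^ 3)} (hz : IsUnit z)
    (hl : l = 1 - 16 * z) (hli : l * li = 1) :
    ∃ x : ZMod (p ^ 3), x ^ 2 = 1 ∧ (∃ y, x = l ^ n * (1 + (p : ZMod (p ^ 3)) * y)) ∧
      l ^ 2 * (x * fT1 p (z ^ 2 * li ^ 3) 0) = l ^ 2 * fS p z 0 + 8 * z * l * c1 h (fS p z) + (8 * z + 64 * z ^ 2) * c2 h (fS p z) ∧
      l ^ 2 * (x * c1 h (fT1 p (z ^ 2 * li ^ 3))) = (2 + 16 * z) * l * c1 h (fS p z) +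
        (48 * z + 16 * z * (2 + 16 * z)) * c2 h (fS p z) ∧
      l ^ 2 * (x * c2 h (fT1 p (z ^ 2 * li ^ 3))) = (2 + 16 * z) ^ 2 * c2 h (fS p z) := by
  obtain ⟨ν, hν⟩ := fermat_unit hz
  obtain ⟨x, h1, h2, h3, h4, h5⟩ := star (A := ZMod (p ^ 3)) (q := n) (m := 2) (d := 3) (β := 8) (z0 := z) (ν := ν) (h := h)
    (σ := PowerSeries.map (Int.castRingHom (ZMod (p ^ 3))) (sgZ 4)) (G := Gu p) (H := H1 p)
    (v := fun k => (v1 k : ZMod (p ^ 3))) (l0 := l) (li := li) hn p3_zero hh hν (fun k h0 hk => unit_cast h0 hk) hz (by norm_num)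
    (unit_cast (p := p) (k := 2) (by norm_num) (by omega)) (by omega) (sg_sq (ZMod (p ^ 3)) 4) (sg_cc (ZMod (p ^ 3)) 4)
    (fun κ j hj => Gu_spec (by omega) κ j hj) (fun κ j hj => H1_spec (by omega) κ j hj) Gu_QP H1_QP
    (fun K => base1 (ZMod (p ^ 3)) K) (by rw [hl]; push_cast; ring) hli
  refine ⟨x, h1, h2, ?_, ?_, ?_⟩
  · have e1 : fT1 p (z ^ 2 * li ^ 3) 0 = ∑ j ∈ range p, H1 p j 0 * (z ^ 2 * li ^ 3) ^ j := by
      unfold fT1; rw [pow_zero, one_mul]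
    have e2 : fS p z 0 = ∑ j ∈ range p, Gu p j 0 * z ^ j := by
      unfold fS; rw [pow_zero, one_mul]
    rw [e1, e2, h3]
    push_cast
    unfold fS
    ring
  · unfold fT1 fS
    rw [h4]
    push_cast
    ring
  · unfold fT1 fS
    rw [h5]
    push_cast
    ring

theorem star2 (hp47 : 47 ≤ p) (hn : p = 2 * n + 1) (hh : 2 * h = 1) {z l li : ZMod (p ^ 3)} (hz : IsUnit z)
    (hl : l = 1 - 64 * z) (hli : l * li = 1) :
    ∃ x : ZMod (p ^ 3), x ^ 2 = 1 ∧ (∃ y, x = l ^ n * (1 + (p : ZMod (p ^ 3)) * y)) ∧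
      l ^ 2 * (x * fT2 p (z * li ^ 2) 0) = l ^ 2 * fS p z 0 + 32 * z * l * c1 h (fS p z) + (32 * z + 1024 * z ^ 2) * c2 h (fS p z) ∧
      l ^ 2 * (x * c1 h (fT2 p (z * li ^ 2))) = (1 + 64 * z) * l * c1 h (fS p z) +
        (128 * z + 64 * z * (1 + 64 * z)) * c2 h (fS p z) ∧
      l ^ 2 * (x * c2 h (fT2 p (z * li ^ 2))) = (1 + 64 * z) ^ 2 * c2 h (fS p z) := by
  obtain ⟨ν, hν⟩ := fermat_unit hz
  obtain ⟨x, h1, h2, h3, h4, h5⟩ := star (A := ZMod (p ^ 3)) (q := n) (m := 1) (d := 2) (β := 32) (z0 := z) (ν := ν) (h := h)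
    (σ := PowerSeries.map (Int.castRingHom (ZMod (p ^ 3))) (sgZ 16)) (G := Gu p) (H := H2 p)
    (v := fun k => ((-1) ^ k * v2 k : ZMod (p ^ 3))) (l0 := l) (li := li) hn p3_zero hh hν (fun k h0 hk => unit_cast h0 hk) hz (by norm_num)
    (unit_cast (p := p) (k := 1) (by norm_num) (by omega)) (by omega) (sg_sq (ZMod (p ^ 3)) 16) (sg_cc (ZMod (p ^ 3)) 16)
    (fun κ j hj => Gu_spec (by omega) κ j hj) (fun κ j hj => H2_spec (by omega) κ j hj) Gu_QP H2_QP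
    (fun K => base2 (ZMod (p ^ 3)) K) (by rw [hl]; push_cast; ring) hli
  refine ⟨x, h1, h2, ?_, ?_, ?_⟩
  · have e1 : fT2 p (z * li ^ 2) 0 = ∑ j ∈ range p, H2 p j 0 * (z ^ 1 * li ^ 2) ^ j := by
      unfold fT2; rw [pow_zero, one_mul, pow_one]
    have e2 : fS p z 0 = ∑ j ∈ range p, Gu p j 0 * z ^ j := by
      unfold fS; rw [pow_zero, one_mul]
    rw [e1, e2, h3]
    push_cast
    unfold fS
    ring
  · unfold fT2 fS
    rw [pow_one] at h4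
    rw [h4]
    push_cast
    ring
  · unfold fT2 fS
    rw [pow_one] at h5
    rw [h5]
    push_cast
    ring

theorem fS_zero (hp5 : 5 ≤ p) (z : ZMod (p ^ 3)) : fS p z 0 = ∑ j ∈ range p, (uc j : ZMod (p ^ 3)) * z ^ j := by
  unfold fS
  rw [pow_zero, one_mul]
  exact sum_congr rfl fun j hj => by rw [Gu_zero hp5 j (mem_range.mp hj)]

theorem fT1_zero (hp5 : 5 ≤ p) (w : ZMod (p ^ 3)) : fT1 p w 0 = ∑ j ∈ range p, (v1 j : ZMod (p ^ 3)) * w ^ j := by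
  unfold fT1
  rw [pow_zero, one_mul]
  exact sum_congr rfl fun j hj => by rw [H1_zero hp5 j (mem_range.mp hj)]

theorem fT2_zero (hp5 : 5 ≤ p) (w : ZMod (p ^ 3)) : fT2 p w 0 = ∑ j ∈ range p, (v2 j : ZMod (p ^ 3)) * (-w) ^ j := by
  unfold fT2
  rw [pow_zero, one_mul]
  exact sum_congr rfl fun j hj => by rw [H2_zero hp5 j (mem_range.mp hj), neg_pow w j]; ring

end Pool.Agent.H547.P3
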