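import Pool.Agent.H547.P3.Pull

set_option autoImplicit false

/-!
# The two binomial sums
-/

namespace Pool.Agent.H547.P3

open Finset Nat

/-- inverse factorial on the integers -/
noncomputable def invf (z : ℤ) : ℚ := if z < 0 then 0 else 1 / ((z.toNat) ! : ℚ)

theorem invf_neg {z : ℤ} (h : z < 0) : invf z = 0 := if_pos h

theorem invf_nat (n : ℕ) : invf (n : ℤ) = 1 / (n ! : ℚ) := by
  unfold invf
  rw [if_neg (by omega), Int.toNat_natCast]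

theorem invf_succ (z : ℤ) : invf z = ((z : ℚ) + 1) * invf (z + 1) := by
  rcases lt_trichotomy z (-1) with h | h | h
  · rw [invf_neg (by omega), invf_neg (by omega), mul_zero]
  · subst h; rw [invf_neg (by omega)]; norm_num
  · obtain ⟨n, rfl⟩ := Int.eq_ofNat_of_zero_le (show 0 ≤ z by omega)
    have : ((n : ℤ) + 1) = ((n + 1 : ℕ) : ℤ) := by push_cast; ring
    rw [this, invf_nat, invf_nat, Nat.factorial_succ]
    have h1 : ((n)! : ℚ) ≠ 0 := by positivity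
    have h2 : ((n : ℚ) + 1) ≠ 0 := by positivity
    push_cast
    field_simp

noncomputable def F1 (N k : ℕ) : ℚ := (4 : ℚ) ^ ((N : ℤ) - 2 * k) * ((2 * N + 2 * k)! : ℚ) * invf k ^ 3 * invf ((N : ℤ) + k) *
  invf ((N : ℤ) - 2 * k)
noncomputable def G1 (N k : ℕ) : ℚ := -64 * (3 * (N : ℚ) + 2) * (4 : ℚ) ^ ((N : ℤ) - 2 * k) * ((2 * N + 2 * k)! : ℚ) *
  (k : ℚ) ^ 3 * invf k ^ 3 * invf ((N : ℤ) + k) * invf ((N : ℤ) + 1 - 2 * k)

theorem cert1 (N k : ℕ) : ((N : ℚ) + 1) ^ 3 * F1 (N + 1) k - 8 * (2 * (N : ℚ) + 1) ^ 3 * F1 N k = G1 N (k + 1) - G1 N k := by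
  unfold F1 G1
  have f4 : (4 : ℚ) ≠ 0 := by norm_num
  have e1 : (4 : ℚ) ^ (((N + 1 : ℕ) : ℤ) - 2 * k) = 16 * 4 * (4 : ℚ) ^ ((N : ℤ) - 2 * ((k + 1 : ℕ) : ℤ)) := by
    rw [show (((N + 1 : ℕ) : ℤ) - 2 * k) = ((N : ℤ) - 2 * ((k + 1 : ℕ) : ℤ)) + 3 by push_cast; ring, zpow_add₀ f4]
    norm_num; ring
  have e2 : (4 : ℚ) ^ ((N : ℤ) - 2 * k) = 16 * (4 : ℚ) ^ ((N : ℤ) - 2 * ((k + 1 : ℕ) : ℤ)) := by
    rw [show ((N : ℤ) - 2 * k) = ((N : ℤ) - 2 * ((k + 1 : ℕ) : ℤ)) + 2 by push_cast; ring, zpow_add₀ f4]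
    norm_num; ring
  have e3 : ((2 * (N + 1) + 2 * k)! : ℚ) = (2 * N + 2 * k + 2) * (2 * N + 2 * k + 1) * (2 * N + 2 * k)! := by
    rw [show 2 * (N + 1) + 2 * k = 2 * N + 2 * k + 1 + 1 by ring, Nat.factorial_succ, Nat.factorial_succ]
    push_cast; ring
  have e4 : ((2 * N + 2 * (k + 1))! : ℚ) = (2 * N + 2 * k + 2) * (2 * N + 2 * k + 1) * (2 * N + 2 * k)! := by
    rw [show 2 * N + 2 * (k + 1) = 2 * N + 2 * k + 1 + 1 by ring, Nat.factorial_succ, Nat.factorial_succ]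
    push_cast; ring
  have e5 : invf (k : ℤ) = ((k : ℚ) + 1) * invf ((k + 1 : ℕ) : ℤ) := by
    have := invf_succ (k : ℤ)
    rw [this]; push_cast; ring
  have e6 : invf ((N : ℤ) + k) = ((N : ℚ) + k + 1) * invf ((N : ℤ) + ((k + 1 : ℕ) : ℤ)) := by
    have := invf_succ ((N : ℤ) + k)
    rw [this]; push_cast; ring_nf
  have e7 : invf (((N + 1 : ℕ) : ℤ) + k) = invf ((N : ℤ) + ((k + 1 : ℕ) : ℤ)) := by
    congr 1; push_cast; ring
  have e8 : invf ((N : ℤ) - 2 * k) = ((N : ℚ) + 1 - 2 * k) * invf ((N : ℤ) + 1 - 2 * k) := by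
    have := invf_succ ((N : ℤ) - 2 * k)
    rw [this, show (N : ℤ) - 2 * k + 1 = (N : ℤ) + 1 - 2 * k by ring]
    push_cast; ring
  have e9 : invf ((N : ℤ) + 1 - 2 * ((k + 1 : ℕ) : ℤ)) = ((N : ℚ) - 2 * k) * invf ((N : ℤ) - 2 * k) := by
    have := invf_succ ((N : ℤ) + 1 - 2 * ((k + 1 : ℕ) : ℤ))
    rw [this, show (N : ℤ) + 1 - 2 * ((k + 1 : ℕ) : ℤ) + 1 = (N : ℤ) - 2 * k by push_cast; ring]
    push_cast; ring
  have e10 : invf (((N + 1 : ℕ) : ℤ) - 2 * k) = invf ((N : ℤ) + 1 - 2 * k) := by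
    congr 1
  rw [e9, e8, e10, e1, e2, e3, e4, e5, e6, e7]
  push_cast
  ring

noncomputable def F2 (N k : ℕ) : ℚ := (-1) ^ k * (16 : ℚ) ^ ((N : ℤ) - k) * ((2 * N + 2 * k)! : ℚ) * ((2 * k)! : ℚ) * invf k ^ 4 *
  invf ((N : ℤ) + k) * invf ((N : ℤ) - k)
noncomputable def G2 (N k : ℕ) : ℚ := -32 * (4 * (N : ℚ) + 3) * (-1) ^ k * (16 : ℚ) ^ ((N : ℤ) - k) * ((2 * N + 2 * k)! : ℚ) *
  ((2 * k)! : ℚ) * (k : ℚ) ^ 3 * invf k ^ 4 * invf ((N : ℤ) + k) * invf ((N : ℤ) + 1 - k)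

theorem cert2 (N k : ℕ) : ((N : ℚ) + 1) ^ 3 * F2 (N + 1) k - 8 * (2 * (N : ℚ) + 1) ^ 3 * F2 N k = G2 N (k + 1) - G2 N k := by
  unfold F2 G2
  have f4 : (16 : ℚ) ≠ 0 := by norm_num
  have e1 : (16 : ℚ) ^ (((N + 1 : ℕ) : ℤ) - k) = 256 * (16 : ℚ) ^ ((N : ℤ) - ((k + 1 : ℕ) : ℤ)) := by
    rw [show (((N + 1 : ℕ) : ℤ) - k) = ((N : ℤ) - ((k + 1 : ℕ) : ℤ)) + 2 by push_cast; ring, zpow_add₀ f4]
    norm_num; ring
  have e2 : (16 : ℚ) ^ ((N : ℤ) - k) = 16 * (16 : ℚ) ^ ((N : ℤ) - ((k + 1 : ℕ) : ℤ)) := by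
    rw [show ((N : ℤ) - k) = ((N : ℤ) - ((k + 1 : ℕ) : ℤ)) + 1 by push_cast; ring, zpow_add₀ f4]
    norm_num; ring
  have e3 : ((2 * (N + 1) + 2 * k)! : ℚ) = (2 * N + 2 * k + 2) * (2 * N + 2 * k + 1) * (2 * N + 2 * k)! := by
    rw [show 2 * (N + 1) + 2 * k = 2 * N + 2 * k + 1 + 1 by ring, Nat.factorial_succ, Nat.factorial_succ]
    push_cast; ring
  have e4 : ((2 * N + 2 * (k + 1))! : ℚ) = (2 * N + 2 * k + 2) * (2 * N + 2 * k + 1) * (2 * N + 2 * k)! := by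
    rw [show 2 * N + 2 * (k + 1) = 2 * N + 2 * k + 1 + 1 by ring, Nat.factorial_succ, Nat.factorial_succ]
    push_cast; ring
  have e4' : ((2 * (k + 1))! : ℚ) = (2 * k + 2) * (2 * k + 1) * (2 * k)! := by
    rw [show 2 * (k + 1) = 2 * k + 1 + 1 by ring, Nat.factorial_succ, Nat.factorial_succ]
    push_cast; ring
  have e5 : invf (k : ℤ) = ((k : ℚ) + 1) * invf ((k + 1 : ℕ) : ℤ) := by
    have := invf_succ (k : ℤ)
    rw [this]; push_cast; ring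
  have e6 : invf ((N : ℤ) + k) = ((N : ℚ) + k + 1) * invf ((N : ℤ) + ((k + 1 : ℕ) : ℤ)) := by
    have := invf_succ ((N : ℤ) + k)
    rw [this]; push_cast; ring_nf
  have e7 : invf (((N + 1 : ℕ) : ℤ) + k) = invf ((N : ℤ) + ((k + 1 : ℕ) : ℤ)) := by
    congr 1; push_cast; ring
  have e8 : invf ((N : ℤ) - k) = ((N : ℚ) + 1 - k) * invf ((N : ℤ) + 1 - k) := by
    have := invf_succ ((N : ℤ) - k)
    rw [this, show (N : ℤ) - k + 1 = (N : ℤ) + 1 - k by ring]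
    push_cast; ring
  have e9 : invf ((N : ℤ) + 1 - ((k + 1 : ℕ) : ℤ)) = invf ((N : ℤ) - k) := by
    congr 1; push_cast; ring
  have e10 : invf (((N + 1 : ℕ) : ℤ) - k) = invf ((N : ℤ) + 1 - k) := by
    congr 1
  rw [e9, e8, e10, e1, e2, e3, e4, e4', e5, e6, e7]
  push_cast
  ring

theorem uc_rec (N : ℕ) : ((N : ℚ) + 1) ^ 3 * (uc (N + 1) : ℚ) = 8 * (2 * (N : ℚ) + 1) ^ 3 * (uc N : ℚ) := by
  have := uc_succ (A := ℚ) N
  linear_combination this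

theorem sum_eq (F G : ℕ → ℕ → ℚ) (hcert : ∀ N k : ℕ, ((N : ℚ) + 1) ^ 3 * F (N + 1) k - 8 * (2 * (N : ℚ) + 1) ^ 3 * F N k = G N (k + 1) - G N k)
    (hG0 : ∀ N, G N 0 = 0) (hGK : ∀ N K, N + 1 < K → G N K = 0) (hF0 : ∀ k, F 0 k = if k = 0 then 1 else 0)
    (K : ℕ) : ∀ N < K, ∑ k ∈ range K, F N k = (uc N : ℚ) := by
  intro N
  induction N with
  | zero =>
    intro hK
    rw [sum_eq_single 0]
    · rw [hF0]; simp [uc]
    · intro k _ hk; rw [hF0, if_neg hk]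
    · intro h; exact absurd (mem_range.mpr hK) h
  | succ N ih =>
    intro hK
    have h1 : ((N : ℚ) + 1) ^ 3 * ∑ k ∈ range K, F (N + 1) k - 8 * (2 * (N : ℚ) + 1) ^ 3 * ∑ k ∈ range K, F N k = 0 := by
      rw [mul_sum, mul_sum, ← sum_sub_distrib, sum_congr rfl fun k _ => hcert N k, sum_range_sub, hG0, hGK N K hK, sub_zero]
    rw [ih (by omega)] at h1
    have h2 := uc_rec N
    have h3 : ((N : ℚ) + 1) ^ 3 ≠ 0 := by positivity
    apply mul_left_cancel₀ h3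
    linear_combination h1 - h2

/-- `(6k)!/((3k)! k!³)` -/
def v1 (k : ℕ) : ℕ := (6 * k).choose (3 * k) * (3 * k).choose k * (2 * k).choose k
/-- `(4k)!/k!⁴` -/
def v2 (k : ℕ) : ℕ := (4 * k).choose (2 * k) * (2 * k).choose k ^ 2

theorem v1_Q (k : ℕ) : (v1 k : ℚ) = ((6 * k)! : ℚ) / ((3 * k)! * (k ! : ℚ) ^ 3) := by
  unfold v1
  push_cast
  rw [Nat.cast_choose ℚ (show 3 * k ≤ 6 * k by omega), Nat.cast_choose ℚ (show k ≤ 3 * k by omega),
    Nat.cast_choose ℚ (show k ≤ 2 * k by omega), show 6 * k - 3 * k = 3 * k by omega, show 3 * k - k = 2 * k by omega,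
    show 2 * k - k = k by omega]
  have h1 : ((3 * k)! : ℚ) ≠ 0 := by positivity
  have h2 : ((2 * k)! : ℚ) ≠ 0 := by positivity
  have h3 : ((k)! : ℚ) ≠ 0 := by positivity
  field_simp

theorem v2_Q (k : ℕ) : (v2 k : ℚ) = ((4 * k)! : ℚ) / ((k ! : ℚ) ^ 4) := by
  unfold v2
  push_cast
  rw [Nat.cast_choose ℚ (show 2 * k ≤ 4 * k by omega), 
    Nat.cast_choose ℚ (show k ≤ 2 * k by omega), show 4 * k - 2 * k = 2 * k by omega, 
    show 2 * k - k = k by omega]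
  have h2 : ((2 * k)! : ℚ) ≠ 0 := by positivity
  have h3 : ((k)! : ℚ) ≠ 0 := by positivity
  field_simp

theorem F1_eq (N k : ℕ) : (if 2 * k ≤ N then (((v1 k : ℕ) : ℤ) : ℚ) * cc ((4 : ℕ) : ℚ) (3 * k) (N - 2 * k) else 0) = F1 N k := by
  split_ifs with h
  · obtain ⟨n, rfl⟩ := Nat.exists_eq_add_of_le h
    unfold F1 cc
    rw [show 2 * k + n - 2 * k = n by omega, show (((2 * k + n : ℕ) : ℤ) - 2 * k) = (n : ℤ) by push_cast; ring,
      show (((2 * k + n : ℕ) : ℤ) + k) = ((3 * k + n : ℕ) : ℤ) by push_cast; ring, invf_nat, invf_nat, invf_nat,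
      Int.cast_natCast, v1_Q, zpow_natCast, show 2 * (2 * k + n) + 2 * k = 6 * k + 2 * n by ring,
      show 2 * (3 * k) = 6 * k by ring]
    have h1 : ((3 * k)! : ℚ) ≠ 0 := by positivity
    have h2 : ((6 * k)! : ℚ) ≠ 0 := by positivity
    have h3 : ((k)! : ℚ) ≠ 0 := by positivity
    have h4 : ((n)! : ℚ) ≠ 0 := by positivity
    have h5 : ((3 * k + n)! : ℚ) ≠ 0 := by positivity
    push_cast
    field_simp
  · unfold F1
    rw [invf_neg (z := (N : ℤ) - 2 * k) (by omega), mul_zero]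

theorem F2_eq (N k : ℕ) : (if 1 * k ≤ N then (((-1) ^ k * (v2 k : ℤ) : ℤ) : ℚ) * cc ((16 : ℕ) : ℚ) (2 * k) (N - 1 * k) else 0) = F2 N k := by
  rw [one_mul]
  split_ifs with h
  · obtain ⟨n, rfl⟩ := Nat.exists_eq_add_of_le h
    unfold F2 cc
    rw [show k + n - k = n by omega, show (((k + n : ℕ) : ℤ) - k) = (n : ℤ) by push_cast; ring,
      show (((k + n : ℕ) : ℤ) + k) = ((2 * k + n : ℕ) : ℤ) by push_cast; ring, invf_nat, invf_nat, invf_nat,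
      zpow_natCast, show 2 * (k + n) + 2 * k = 4 * k + 2 * n by ring,
      show 2 * (2 * k) = 4 * k by ring]
    push_cast
    rw [v2_Q]
    have h1 : ((2 * k)! : ℚ) ≠ 0 := by positivity
    have h2 : ((4 * k)! : ℚ) ≠ 0 := by positivity
    have h3 : ((k)! : ℚ) ≠ 0 := by positivity
    have h4 : ((n)! : ℚ) ≠ 0 := by positivity
    have h5 : ((2 * k + n)! : ℚ) ≠ 0 := by positivity
    field_simp
  · unfold F2
    rw [invf_neg (z := (N : ℤ) - k) (by omega), mul_zero]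

open PowerSeries in
theorem base1 (A : Type*) [CommRing A] (K : ℕ) :
    X ^ K ∣ Ff (fun k => (uc k : A)) 0 K - Ph 2 3 (PowerSeries.map (Int.castRingHom A) (sgZ 4)) (fun k => (v1 k : A)) 0 K := by
  have := pull_A A 4 2 3 uc (fun k => (v1 k : ℤ)) K (by
    intro N hN
    rw [← sum_eq F1 G1 cert1 ?_ ?_ ?_ K N hN]
    · exact sum_congr rfl fun k _ => F1_eq N k
    · intro N; unfold G1; simp
    · intro N K h; unfold G1; rw [invf_neg (z := (N : ℤ) + 1 - 2 * K) (by omega), mul_zero]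
    · intro k
      unfold F1
      split_ifs with hk
      · subst hk; simp [invf]
      · rw [invf_neg (z := ((0 : ℕ) : ℤ) - 2 * k) (by omega), mul_zero])
  simpa using this

open PowerSeries in
theorem base2 (A : Type*) [CommRing A] (K : ℕ) :
    X ^ K ∣ Ff (fun k => (uc k : A)) 0 K - Ph 1 2 (PowerSeries.map (Int.castRingHom A) (sgZ 16)) (fun k => (-1) ^ k * (v2 k : A)) 0 K := by
  have := pull_A A 16 1 2 uc (fun k => (-1) ^ k * (v2 k : ℤ)) K (by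
    intro N hN
    rw [← sum_eq F2 G2 cert2 ?_ ?_ ?_ K N hN]
    · exact sum_congr rfl fun k _ => F2_eq N k
    · intro N; unfold G2; simp
    · intro N K h; unfold G2; rw [invf_neg (z := (N : ℤ) + 1 - K) (by omega), mul_zero]
    · intro k
      unfold F2
      split_ifs with hk
      · subst hk; simp [invf]
      · rw [invf_neg (z := ((0 : ℕ) : ℤ) - k) (by omega), mul_zero])
  simpa using this

end Pool.Agent.H547.P3
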